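import Pool.Agent.H94.Main1

set_option autoImplicit false

namespace Pool.Agent.H94

open Finset

variable {α : Type*} [DecidableEq α]
variable {ι : Type*} [Fintype ι] [DecidableEq ι]
variable {r : ℕ} {E : Finset α} {base : Finset α → Prop}

/-- Replacement of the pair of entries `i`, `j`. -/
def mv (B : ι → Finset α) (i j : ι) (X : Finset α) : ι → Finset α :=
  Function.update (Function.update B i ((B i ∩ B j) ∪ X)) j
    ((B i ∩ B j) ∪ (sd (B i) (B j) \ X))

/-- A symmetric exchange between two entries of a tuple of bases. -/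
def SE (base : Finset α → Prop) (B B' : ι → Finset α) : Prop :=
  ∃ i j, i ≠ j ∧ ∃ x ∈ B i \ B j, ∃ y ∈ B j \ B i,
    B' = Function.update (Function.update B i (insert y ((B i).erase x))) j
      (insert x ((B j).erase y)) ∧ base (B' i) ∧ base (B' j)

/-- Number of agreements. -/
def val (B D : ι → Finset α) : ℕ := ∑ k, (B k ∩ D k).card

theorem mv_left {B : ι → Finset α} {i j : ι} (hij : i ≠ j) (X : Finset α) :
    mv B i j X i = (B i ∩ B j) ∪ X := by
  rw [mv, Function.update_of_ne hij, Function.update_self]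

theorem mv_right {B : ι → Finset α} {i j : ι} (X : Finset α) :
    mv B i j X j = (B i ∩ B j) ∪ (sd (B i) (B j) \ X) := by
  rw [mv, Function.update_self]

theorem mv_other {B : ι → Finset α} {i j k : ι} (hi : k ≠ i) (hj : k ≠ j) (X : Finset α) :
    mv B i j X k = B k := by
  rw [mv, Function.update_of_ne hj, Function.update_of_ne hi]

theorem sum_two (f g : ι → ℕ) {i j : ι} (hij : i ≠ j) (h : ∀ k, k ≠ i → k ≠ j → f k = g k) :
    ∑ k, f k + (g i + g j) = ∑ k, g k + (f i + f j) := by
  have hi : i ∈ (univ : Finset ι) := mem_univ i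
  have hj : j ∈ (univ : Finset ι).erase i := mem_erase.mpr ⟨hij.symm, mem_univ j⟩
  have h1 := add_sum_erase univ f hi
  have h2 := add_sum_erase (univ.erase i) f hj
  have h3 := add_sum_erase univ g hi
  have h4 := add_sum_erase (univ.erase i) g hj
  have h5 : ∑ k ∈ (univ.erase i).erase j, f k = ∑ k ∈ (univ.erase i).erase j, g k := by
    refine sum_congr rfl ?_
    intro k hk
    rw [mem_erase, mem_erase] at hk
    exact h k hk.2.1 hk.1
  omega

theorem mv_self {B : ι → Finset α} {i j : ι} (hij : i ≠ j) : mv B i j (B i \ B j) = B := by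
  funext k
  by_cases hi : k = i
  · subst hi; rw [mv_left hij, inter_union_sdiff]
  · by_cases hj : k = j
    · subst hj; rw [mv_right, sd_sdiff_left, inter_union_sdiff']
    · rw [mv_other hi hj]

theorem SE_mv {n : ℕ} {B : ι → Finset α} {i j : ι} (hij : i ≠ j) {A A' : Finset α}
    (hs : Step n (sd (B i) (B j)) (ctr base (B i) (B j)) A A') :
    SE base (mv B i j A) (mv B i j A') := by
  obtain ⟨hA, hA', x, hx, y, hy, rfl⟩ := hs
  rw [mem_sdiff] at hy
  have hxU : x ∈ sd (B i) (B j) := hA.sub hx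
  have hxC : x ∉ B i ∩ B j := fun h => disjoint_left.mp (disj_sd _ _) h hxU
  have hyC : y ∉ B i ∩ B j := fun h => disjoint_left.mp (disj_sd _ _) h hy.1
  have hxy : x ≠ y := by rintro rfl; exact hy.2 hx
  have e1 : B i ∩ B j ∪ insert y (A.erase x) = insert y ((B i ∩ B j ∪ A).erase x) := by
    ext v
    simp only [mem_union, mem_insert, mem_erase]
    constructor
    · rintro (h | h | h)
      · by_cases hvx : v = x
        · subst hvx; exact absurd h hxC
        · exact Or.inr ⟨hvx, Or.inl h⟩
      · exact Or.inl h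
      · exact Or.inr ⟨h.1, Or.inr h.2⟩
    · tauto
  have e2 : B i ∩ B j ∪ sd (B i) (B j) \ insert y (A.erase x) =
      insert x ((B i ∩ B j ∪ sd (B i) (B j) \ A).erase y) := by
    ext v
    simp only [mem_union, mem_insert, mem_erase, mem_sdiff]
    by_cases hvx : v = x
    · subst hvx
      simp only [true_or, iff_true]
      right
      exact ⟨hxU, by rintro (h | h); exacts [hxy h, h.1 rfl]⟩
    · by_cases hvy : v = y
      · subst hvy
        simp only [hvx, hyC, false_or]
        simp
      · simp only [hvx, hvy, false_or, not_false_eq_true, true_and, ne_eq]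
  refine ⟨i, j, hij, x, ?_, y, ?_, ?_, ?_, ?_⟩
  · rw [mv_left hij, mv_right, mem_sdiff, mem_union, mem_union, mem_sdiff]
    exact ⟨Or.inr hx, by rintro (h | h); exacts [hxC h, h.2 hx]⟩
  · rw [mv_left hij, mv_right, mem_sdiff, mem_union, mem_union, mem_sdiff]
    exact ⟨Or.inr ⟨hy.1, hy.2⟩, by rintro (h | h); exacts [hyC h, hy.2 h]⟩
  · funext k
    by_cases hj : k = j
    · subst hj
      rw [mv_right, Function.update_self, mv_right, e2]
    · by_cases hi : k = i
      · subst hi
        rw [mv_left hij, Function.update_of_ne hj, Function.update_self, mv_left hij, e1]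
      · rw [mv_other hi hj, Function.update_of_ne hj, Function.update_of_ne hi, mv_other hi hj]
  · rw [mv_left hij]; exact hA'.base
  · rw [mv_right]; exact hA'.cobase

theorem reach_mv (h : PB r E base) {B : ι → Finset α} (hB : ∀ k, base (B k)) {i j : ι}
    (hij : i ≠ j) {X : Finset α}
    (hX : Good (B i \ B j).card (sd (B i) (B j)) (ctr base (B i) (B j)) X) :
    Relation.ReflTransGen (SE base) B (mv B i j X) := by
  have h1 := swap_conn (h.pf (hB i) (hB j)) (good_self (hB i) (hB j)) hX
  have h2 : ∀ A, Relation.ReflTransGen (Step (B i \ B j).card (sd (B i) (B j))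
      (ctr base (B i) (B j))) (B i \ B j) A →
      Relation.ReflTransGen (SE base) B (mv B i j A) := by
    intro A hA
    induction hA with
    | refl => rw [mv_self hij]
    | tail _ hs ih => exact ih.tail (SE_mv hij hs)
  exact h2 X h1

theorem SE.bases {B B' : ι → Finset α} (hs : SE base B B') (hB : ∀ k, base (B k)) :
    ∀ k, base (B' k) := by
  obtain ⟨i, j, hij, x, hx, y, hy, rfl, h1, h2⟩ := hs
  intro k
  by_cases hj : k = j
  · subst hj; exact h2
  · by_cases hi : k = i
    · subst hi; exact h1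
    · rw [Function.update_of_ne hj, Function.update_of_ne hi]; exact hB k

theorem SE.content {B B' : ι → Finset α} (hs : SE base B B') (z : α) :
    (univ.filter (fun k => z ∈ B' k)).card = (univ.filter (fun k => z ∈ B k)).card := by
  obtain ⟨i, j, hij, x, hx, y, hy, rfl, h1, h2⟩ := hs
  rw [mem_sdiff] at hx hy
  have hxy : x ≠ y := by rintro rfl; exact hy.2 hx.1
  rw [card_filter, card_filter]
  have key := sum_two (fun k => if z ∈ Function.update (Function.update B i
      (insert y ((B i).erase x))) j (insert x ((B j).erase y)) k then 1 else 0)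
      (fun k => if z ∈ B k then 1 else 0) hij (by
        intro k hi hj
        simp only [Function.update_of_ne hj, Function.update_of_ne hi])
  have key2 : ((if z ∈ Function.update (Function.update B i
      (insert y ((B i).erase x))) j (insert x ((B j).erase y)) i then 1 else 0) +
      (if z ∈ Function.update (Function.update B i
      (insert y ((B i).erase x))) j (insert x ((B j).erase y)) j then 1 else 0) : ℕ) =
      (if z ∈ B i then 1 else 0) + (if z ∈ B j then 1 else 0) := by
    rw [Function.update_self, Function.update_of_ne hij, Function.update_self]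
    simp only [mem_insert, mem_erase]
    by_cases hzx : z = x
    · subst hzx
      simp [hx.1, hx.2, hxy]
    · by_cases hzy : z = y
      · subst hzy
        simp [hy.1, hy.2, hzx]
      · simp [hzx, hzy]
  rw [key2] at key
  omega

theorem reach_bases {B B' : ι → Finset α} (hs : Relation.ReflTransGen (SE base) B B')
    (hB : ∀ k, base (B k)) : ∀ k, base (B' k) := by
  induction hs with
  | refl => exact hB
  | tail _ h ih => exact h.bases ih

theorem reach_content {B B' : ι → Finset α} (hs : Relation.ReflTransGen (SE base) B B')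
    (z : α) :
    (univ.filter (fun k => z ∈ B' k)).card = (univ.filter (fun k => z ∈ B k)).card := by
  induction hs with
  | refl => rfl
  | tail _ h ih => rw [h.content, ih]

/-- An optimal pair of compatible tuples of bases. -/
structure Opt (base : Finset α → Prop) (B D : ι → Finset α) : Prop where
  bB : ∀ k, base (B k)
  bD : ∀ k, base (D k)
  comp : ∀ z, (univ.filter (fun k => z ∈ B k)).card = (univ.filter (fun k => z ∈ D k)).card
  max : ∀ B' D', Relation.ReflTransGen (SE base) B B' → Relation.ReflTransGen (SE base) D D' →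
    val B' D' ≤ val B D

theorem val_comm (B D : ι → Finset α) : val B D = val D B := by
  rw [val, val]; refine sum_congr rfl ?_; intro k _; rw [inter_comm]

theorem Opt.symm {B D : ι → Finset α} (h : Opt base B D) : Opt base D B := by
  refine ⟨h.bD, h.bB, fun z => (h.comp z).symm, ?_⟩
  intro B' D' h1 h2
  rw [val_comm B' D', val_comm D B]
  exact h.max D' B' h2 h1

theorem pair_val (A A' B B' : Finset α) : (A ∩ A').card + (B ∩ B').card =
    ((A ∩ A') ∪ (B ∩ B')).card + ((A ∩ B) ∩ (A' ∩ B')).card := by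
  rw [← card_union_add_card_inter (A ∩ A') (B ∩ B')]
  congr 2
  ext v; simp only [mem_inter]; tauto

/-- A defect at the pair `i`, `j`. -/
def Defect (B D : ι → Finset α) (i j : ι) : Prop :=
  ∃ e, (e ∈ B i ∨ e ∈ B j) ∧ (e ∈ D i ∨ e ∈ D j) ∧ ¬ (e ∈ B i ∧ e ∈ D i) ∧
    ¬ (e ∈ B j ∧ e ∈ D j)

theorem mem_mv_union {B1 B2 D1 D2 X Y : Finset α} {v s : α}
    (hag : ∀ v, v ∈ sd B1 B2 → v ∈ sd D1 D2 → v ≠ s → (v ∈ X ↔ v ∈ Y))
    (hv : v ∈ (B1 ∪ B2) ∩ (D1 ∪ D2)) (hvs : v ≠ s) :
    v ∈ ((B1 ∩ B2 ∪ X) ∩ (D1 ∩ D2 ∪ Y)) ∪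
      ((B1 ∩ B2 ∪ sd B1 B2 \ X) ∩ (D1 ∩ D2 ∪ sd D1 D2 \ Y)) := by
  have h1 := hag v
  simp only [mem_sd] at h1
  simp only [mem_inter, mem_union, mem_sdiff, mem_sd] at hv ⊢
  by_cases a1 : v ∈ B1 <;> by_cases a2 : v ∈ B2 <;> by_cases a3 : v ∈ D1 <;>
    by_cases a4 : v ∈ D2 <;> by_cases a5 : v ∈ X <;> by_cases a6 : v ∈ Y <;>
    simp [a1, a2, a3, a4, a5, a6, hvs] at h1 hv ⊢

theorem val_mv {B D : ι → Finset α} {i j : ι} (hij : i ≠ j) {X Y : Finset α}
    (hX : X ⊆ sd (B i) (B j)) (hY : Y ⊆ sd (D i) (D j)) :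
    val (mv B i j X) (mv D i j Y) + ((B i ∩ D i) ∪ (B j ∩ D j)).card =
    val B D + (((B i ∩ B j ∪ X) ∩ (D i ∩ D j ∪ Y)) ∪
      ((B i ∩ B j ∪ sd (B i) (B j) \ X) ∩ (D i ∩ D j ∪ sd (D i) (D j) \ Y))).card := by
  have key := sum_two (fun k => (mv B i j X k ∩ mv D i j Y k).card)
    (fun k => (B k ∩ D k).card) hij (by
      intro k hi hj
      simp only [mv_other hi hj])
  simp only [mv_left hij, mv_right] at key
  rw [pair_val (B i) (D i), pair_val (B i ∩ B j ∪ X)] at key
  have e1 : (B i ∩ B j ∪ X) ∩ (B i ∩ B j ∪ sd (B i) (B j) \ X) = B i ∩ B j := by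
    ext v; simp only [mem_inter, mem_union, mem_sdiff]; tauto
  have e2 : (D i ∩ D j ∪ Y) ∩ (D i ∩ D j ∪ sd (D i) (D j) \ Y) = D i ∩ D j := by
    ext v; simp only [mem_inter, mem_union, mem_sdiff]; tauto
  rw [e1, e2] at key
  rw [val, val]
  omega

theorem old_lt {B D : ι → Finset α} {i j : ι} (hd : Defect B D i j) :
    ((B i ∩ D i) ∪ (B j ∩ D j)).card < ((B i ∪ B j) ∩ (D i ∪ D j)).card := by
  obtain ⟨e, h1, h2, h3, h4⟩ := hd
  refine card_lt_card ?_
  rw [ssubset_iff_of_subset]
  · refine ⟨e, ?_, ?_⟩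
    · simp only [mem_inter, mem_union]; exact ⟨h1, h2⟩
    · simp only [mem_inter, mem_union]; tauto
  · intro v hv
    simp only [mem_inter, mem_union] at hv ⊢
    tauto

theorem Opt.no_agree (h : PB r E base) {B D : ι → Finset α} (ho : Opt base B D) {i j : ι}
    (hij : i ≠ j) (hd : Defect B D i j) {X Y : Finset α}
    (hX : Good (B i \ B j).card (sd (B i) (B j)) (ctr base (B i) (B j)) X)
    (hY : Good (D i \ D j).card (sd (D i) (D j)) (ctr base (D i) (D j)) Y)
    (hag : ∀ v, v ∈ sd (B i) (B j) → v ∈ sd (D i) (D j) → (v ∈ X ↔ v ∈ Y)) : False := by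
  have h1 := ho.max _ _ (reach_mv h ho.bB hij hX) (reach_mv h ho.bD hij hY)
  have h2 := val_mv hij hX.sub hY.sub
  have h3 := old_lt hd
  have h4 : (B i ∪ B j) ∩ (D i ∪ D j) ⊆ (((B i ∩ B j ∪ X) ∩ (D i ∩ D j ∪ Y)) ∪
      ((B i ∩ B j ∪ sd (B i) (B j) \ X) ∩ (D i ∩ D j ∪ sd (D i) (D j) \ Y))) := by
    intro v hv
    obtain ⟨e, he⟩ := hd
    simp only [mem_inter, mem_union, mem_sdiff] at hv ⊢
    have h1 := hag v
    simp only [mem_sd] at h1 ⊢
    by_cases a1 : v ∈ B i <;> by_cases a2 : v ∈ B j <;> by_cases a3 : v ∈ D i <;>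
    by_cases a4 : v ∈ D j <;> by_cases a5 : v ∈ X <;> by_cases a6 : v ∈ Y <;>
    simp [a1, a2, a3, a4, a5, a6] at h1 hv ⊢
  have h5 := card_le_card h4
  omega

theorem Opt.stay (h : PB r E base) {B D : ι → Finset α} (ho : Opt base B D) {i j : ι}
    (hij : i ≠ j) (hd : Defect B D i j) {X Y : Finset α} {s : α}
    (hX : Good (B i \ B j).card (sd (B i) (B j)) (ctr base (B i) (B j)) X)
    (hY : Good (D i \ D j).card (sd (D i) (D j)) (ctr base (D i) (D j)) Y)
    (hag : ∀ v, v ∈ sd (B i) (B j) → v ∈ sd (D i) (D j) → v ≠ s → (v ∈ X ↔ v ∈ Y)) :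
    Opt base (mv B i j X) (mv D i j Y) := by
  have r1 := reach_mv h ho.bB hij hX
  have r2 := reach_mv h ho.bD hij hY
  refine ⟨reach_bases r1 ho.bB, reach_bases r2 ho.bD, ?_, ?_⟩
  · intro z
    rw [reach_content r1, reach_content r2]; exact ho.comp z
  · intro B' D' h1 h2
    have h3 := ho.max B' D' (r1.trans h1) (r2.trans h2)
    have h4 := val_mv hij hX.sub hY.sub
    have h5 := old_lt hd
    have h6 : (B i ∪ B j) ∩ (D i ∪ D j) ⊆ insert s (((B i ∩ B j ∪ X) ∩ (D i ∩ D j ∪ Y)) ∪
      ((B i ∩ B j ∪ sd (B i) (B j) \ X) ∩ (D i ∩ D j ∪ sd (D i) (D j) \ Y))) := by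
      intro v hv
      by_cases hvs : v = s
      · subst hvs; exact mem_insert_self _ _
      · exact mem_insert_of_mem (mem_mv_union hag hv hvs)
    have h7 := card_le_card h6
    have h8 := card_insert_le s (((B i ∩ B j ∪ X) ∩ (D i ∩ D j ∪ Y)) ∪
      ((B i ∩ B j ∪ sd (B i) (B j) \ X) ∩ (D i ∩ D j ∪ sd (D i) (D j) \ Y)))
    omega

theorem Opt.key (h : PB r E base) {B D : ι → Finset α} (ho : Opt base B D) {i j : ι}
    (hij : i ≠ j) (hd : Defect B D i j) : Ty base (B i) (B j) (D i) (D j) := by
  have p1 := h.pf (ho.bB i) (ho.bB j)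
  have p2 := h.pf (ho.bD i) (ho.bD j)
  rcases le_total (D i \ D j).card (B i \ B j).card with hle | hle
  · rcases ctl_gen p1 p2 hle with ⟨X1, X2, g1, g2, hag⟩ | hex
    · exact absurd (ho.no_agree h hij hd g1 g2 hag) id
    · exact Or.inl hex
  · rcases ctl_gen p2 p1 hle with ⟨X1, X2, g1, g2, hag⟩ | hex
    · exact absurd (ho.no_agree h hij hd g2 g1 (fun v hv hv' => (hag v hv' hv).symm)) id
    · exact Or.inr ⟨hex.2.1, hex.1, hex.2.2⟩

theorem Opt.exc_false (h : PB r E base) {B D : ι → Finset α} (ho : Opt base B D) {i j : ι}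
    (hij : i ≠ j) (hd : Defect B D i j) (h3 : (B i \ B j).card = 3) (h2 : (D i \ D j).card = 2)
    (hex : Exc (sd (B i) (B j)) (sd (D i) (D j)) (ctr base (B i) (B j))
      (ctr base (D i) (D j))) : False := by
  have cBi := h.card _ (ho.bB i)
  have cDi := h.card _ (ho.bD i)
  have cC1 := card_inter_add_card_sdiff (B i) (B j)
  have cC2 := card_inter_add_card_sdiff (D i) (D j)
  have g1 := hex.good1
  obtain ⟨x, y, p, q, hT, hxy, hxp, hxq, hyp, hyq, hpq, c1, c2, c3, c4⟩ := hex.cyc
  set T := sd (D i) (D j) with hTdef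
  set U := sd (B i) (B j) with hUdef
  have hTU : T ⊆ U := hex.hWU
  -- the element z
  obtain ⟨z, hz2, hz1⟩ : ∃ z ∈ D i ∩ D j, z ∉ B i ∩ B j := by
    by_contra hcon
    push Not at hcon
    have := card_le_card (show D i ∩ D j ⊆ B i ∩ B j from hcon)
    omega
  have hzT : z ∉ T := fun h' => disjoint_left.mp (disj_sd _ _) hz2 h'
  -- the index l
  obtain ⟨l, hlB, hlD⟩ : ∃ l, z ∈ B l ∧ z ∉ D l := by
    by_contra hcon
    push Not at hcon
    have hsub : univ.filter (fun k => z ∈ B k) ⊂ univ.filter (fun k => z ∈ D k) := by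
      rw [ssubset_iff_of_subset]
      · rw [mem_inter] at hz1 hz2
        by_cases hzi : z ∈ B i
        · refine ⟨j, ?_, ?_⟩
          · rw [mem_filter]; exact ⟨mem_univ _, hz2.2⟩
          · rw [mem_filter]; tauto
        · refine ⟨i, ?_, ?_⟩
          · rw [mem_filter]; exact ⟨mem_univ _, hz2.1⟩
          · rw [mem_filter]; tauto
      · intro k hk
        rw [mem_filter] at hk ⊢
        exact ⟨mem_univ _, hcon k hk.2⟩
    have := card_lt_card hsub
    rw [ho.comp z] at this
    exact lt_irrefl _ this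
  have hli : l ≠ i := by rintro rfl; exact hlD (mem_inter.mp hz2).1
  have hlj : l ≠ j := by rintro rfl; exact hlD (mem_inter.mp hz2).2
  have hg2 : ∀ e : Finset α, (e = {x, p} ∨ e = {p, y} ∨ e = {y, q} ∨ e = {q, x}) →
      Good 2 T (ctr base (D i) (D j)) e := by
    rintro e (rfl | rfl | rfl | rfl)
    exacts [c1, c2, c3, c4]
  refine exc_sets h (C1 := B i ∩ B j) (C2 := D i ∩ D j) (T := T) (P := B l) (Q := D l) hT hxy hxp
    hxq hyp hyq hpq (by omega) (by omega) ?_ ?_ (ho.bB l) (ho.bD l) hz2 hlD ?_ ?_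
  · intro v hv hv'
    exact disjoint_left.mp (disj_sd _ _) hv' (hTU hv)
  · intro v hv hv'
    exact disjoint_left.mp (disj_sd _ _) hv' hv
  · intro e he
    exact (hg2 e he).base
  · intro e he d hdT hde
    have hG1 : Good (B i \ B j).card U (ctr base (B i) (B j)) (T.erase d) := by
      rw [h3]; exact g1 d hdT
    have hG2 : Good (D i \ D j).card T (ctr base (D i) (D j)) e := by
      rw [h2]; exact hg2 e he
    -- the other element of T outside e
    obtain ⟨s, hs⟩ : ∃ s, ∀ v ∈ T, v ∉ e → v ≠ d → v = s := by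
      have hcard : ((T \ e).erase d).card = 1 := by
        rw [card_erase_of_mem (mem_sdiff.mpr ⟨hdT, hde⟩), card_sdiff_of_subset hG2.sub, hG2.card,
          h2, hex.cW]
      obtain ⟨s, hs⟩ := card_eq_one.mp hcard
      refine ⟨s, ?_⟩
      intro v hv hve hvd
      have : v ∈ (T \ e).erase d := mem_erase.mpr ⟨hvd, mem_sdiff.mpr ⟨hv, hve⟩⟩
      rw [hs, mem_singleton] at this
      exact this
    have hopt : Opt base (mv B i j (T.erase d)) (mv D i j e) := by
      refine ho.stay h hij hd (s := s) hG1 hG2 ?_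
      intro v hvU hvT hvs
      rw [mem_erase]
      constructor
      · rintro ⟨h1, h2'⟩
        by_contra hve
        exact hvs (hs v h2' hve h1)
      · intro hve
        exact ⟨by rintro rfl; exact hde hve, hvT⟩
    have hdef : Defect (mv B i j (T.erase d)) (mv D i j e) l i := by
      refine ⟨z, ?_, ?_, ?_, ?_⟩
      · left; rw [mv_other hli hlj]; exact hlB
      · right; rw [mv_left hij]; exact mem_union_left _ hz2
      · rw [mv_other hli hlj, mv_other hli hlj]; tauto
      · rw [mv_left hij]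
        rintro ⟨h', _⟩
        rw [mem_union, mem_erase] at h'
        tauto
    have := hopt.key h hli hdef
    rw [mv_other hli hlj, mv_other hli hlj, mv_left hij, mv_left hij] at this
    exact this

theorem Opt.eq (h : PB r E base) {B D : ι → Finset α} (ho : Opt base B D) : B = D := by
  by_contra hne
  obtain ⟨i, hi⟩ : ∃ i, B i ≠ D i := by
    by_contra hcon; push Not at hcon; exact hne (funext hcon)
  obtain ⟨e, heB, heD⟩ : ∃ e ∈ B i, e ∉ D i := by
    by_contra hcon
    push Not at hcon
    exact hi (eq_of_subset_of_card_le hcon (by rw [h.card _ (ho.bB i), h.card _ (ho.bD i)]))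
  obtain ⟨j, hjD, hjB⟩ : ∃ j, e ∈ D j ∧ e ∉ B j := by
    by_contra hcon
    push Not at hcon
    have hsub : univ.filter (fun k => e ∈ D k) ⊂ univ.filter (fun k => e ∈ B k) := by
      rw [ssubset_iff_of_subset]
      · refine ⟨i, ?_, ?_⟩
        · rw [mem_filter]; exact ⟨mem_univ _, heB⟩
        · rw [mem_filter]; tauto
      · intro k hk
        rw [mem_filter] at hk ⊢
        exact ⟨mem_univ _, hcon k hk.2⟩
    have := card_lt_card hsub
    rw [ho.comp e] at this
    exact lt_irrefl _ this
  have hij : i ≠ j := by rintro rfl; exact heD hjD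
  have hd : Defect B D i j := ⟨e, Or.inl heB, Or.inr hjD, by tauto, by tauto⟩
  have hd' : Defect D B i j := ⟨e, Or.inr hjD, Or.inl heB, by tauto, by tauto⟩
  rcases ho.key h hij hd with ⟨h1, h2, h3⟩ | ⟨h1, h2, h3⟩
  · exact ho.exc_false h hij hd h1 h2 h3
  · exact ho.symm.exc_false h hij hd' h2 h1 h3

/-- Two compatible tuples of bases can be brought to a common tuple by symmetric exchanges. -/
theorem reach_common (h : PB r E base) : ∀ (m : ℕ) (B D : ι → Finset α), (∀ k, base (B k)) →
    (∀ k, base (D k)) →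
    (∀ z, (univ.filter (fun k => z ∈ B k)).card = (univ.filter (fun k => z ∈ D k)).card) →
    Fintype.card ι * r - val B D = m →
    ∃ M, Relation.ReflTransGen (SE base) B M ∧ Relation.ReflTransGen (SE base) D M := by
  intro m
  induction m using Nat.strong_induction_on with
  | _ m ih =>
    intro B D hB hD hc hm
    by_cases hopt : ∀ B' D', Relation.ReflTransGen (SE base) B B' →
        Relation.ReflTransGen (SE base) D D' → val B' D' ≤ val B D
    · have : B = D := Opt.eq h ⟨hB, hD, hc, hopt⟩
      subst this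
      exact ⟨B, Relation.ReflTransGen.refl, Relation.ReflTransGen.refl⟩
    · push Not at hopt
      obtain ⟨B', D', h1, h2, h3⟩ := hopt
      have hB' := reach_bases h1 hB
      have hD' := reach_bases h2 hD
      have hle : val B' D' ≤ Fintype.card ι * r := by
        rw [val]
        calc ∑ k, (B' k ∩ D' k).card ≤ ∑ _k : ι, r := by
              refine sum_le_sum ?_
              intro k _
              rw [← h.card _ (hB' k)]
              exact card_le_card inter_subset_left
          _ = Fintype.card ι * r := by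
              rw [sum_const, smul_eq_mul, card_univ]
      obtain ⟨M, m1, m2⟩ := ih (Fintype.card ι * r - val B' D') (by omega) B' D' hB' hD' (by
        intro z
        rw [reach_content h1, reach_content h2]; exact hc z) rfl
      exact ⟨M, h1.trans m1, h2.trans m2⟩

end Pool.Agent.H94
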