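import Pool.Agent.H94.ToricDefs
import Pool.Agent.H94.Main2

set_option autoImplicit false

namespace Pool.Agent.H94

open Finset MvPolynomial

variable {α : Type*} [DecidableEq α] {K : Type*} [Field K]

/-- Any two compatible tuples of bases can be brought to a common tuple by symmetric
exchanges. -/
def WP (base : Finset α → Prop) : Prop :=
  ∀ (m : ℕ) (B D : Fin m → Finset α), (∀ k, base (B k)) → (∀ k, base (D k)) →
    (∀ z, (univ.filter (fun k => z ∈ B k)).card = (univ.filter (fun k => z ∈ D k)).card) →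
    ∃ M, Relation.ReflTransGen (SE base) B M ∧ Relation.ReflTransGen (SE base) D M

/-- The base predicate of a matroid on finsets. -/
def isB (M : Matroid α) (S : Finset α) : Prop := M.IsBase (S : Set α)

/-- Exponent vector of the image of a monomial. -/
noncomputable def expo (M : Matroid α) (u : Bases M →₀ ℕ) : α →₀ ℕ :=
  u.sum fun B n => n • ∑ e ∈ B.1, Finsupp.single e 1

omit [DecidableEq α] in
theorem baseHom_monomial (M : Matroid α) (u : Bases M →₀ ℕ) (c : K) :
    baseHom K M (monomial u c) = monomial (expo M u) c := by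
  rw [baseHom, aeval_monomial, expo, monomial_finsupp_sum_index, algebraMap_eq]
  congr 1
  refine Finsupp.prod_congr ?_
  intro B _
  have h1 : (∏ e ∈ B.1, (X e : MvPolynomial α K)) =
      monomial (∑ e ∈ B.1, Finsupp.single e 1) 1 := by
    rw [monomial_sum_one]; rfl
  rw [h1, monomial_pow, one_pow]

omit [DecidableEq α] in
theorem ker_le (M : Matroid α) (I : Ideal (MvPolynomial (Bases M) K))
    (hI : ∀ u v, expo M u = expo M v → (monomial u 1 : MvPolynomial (Bases M) K) -
      monomial v 1 ∈ I) : toricIdeal K M ≤ I := by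
  classical
  let s : (α →₀ ℕ) → (Bases M →₀ ℕ) := Function.invFun (expo M)
  have hs : ∀ u, expo M (s (expo M u)) = expo M u := by
    intro u
    exact Function.invFun_eq ⟨u, rfl⟩
  let T : MvPolynomial α K →ₗ[K] (MvPolynomial (Bases M) K ⧸ I) :=
    (basisMonomials α K).constr K (fun w => Ideal.Quotient.mkₐ K I (monomial (s w) 1))
  have hT : T.comp (baseHom K M).toLinearMap = (Ideal.Quotient.mkₐ K I).toLinearMap := by
    refine (basisMonomials (Bases M) K).ext ?_
    intro u
    have h1 : (basisMonomials (Bases M) K) u = monomial u 1 := by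
      rw [coe_basisMonomials]
    rw [h1, LinearMap.comp_apply, AlgHom.toLinearMap_apply, AlgHom.toLinearMap_apply,
      baseHom_monomial]
    have h2 : (monomial (expo M u) (1 : K) : MvPolynomial α K) =
        (basisMonomials α K) (expo M u) := by
      rw [coe_basisMonomials]
    rw [h2]
    change ((basisMonomials α K).constr K
      (fun w => Ideal.Quotient.mkₐ K I (monomial (s w) 1))) ((basisMonomials α K) (expo M u)) = _
    rw [Module.Basis.constr_basis]
    simp only [Ideal.Quotient.mkₐ_eq_mk]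
    rw [Ideal.Quotient.eq]
    exact hI _ _ (hs u)
  intro f hf
  have hf' : baseHom K M f = 0 := hf
  have h3 := LinearMap.congr_fun hT f
  rw [LinearMap.comp_apply, AlgHom.toLinearMap_apply, AlgHom.toLinearMap_apply, hf', map_zero] at h3
  simp only [Ideal.Quotient.mkₐ_eq_mk] at h3
  exact Ideal.Quotient.eq_zero_iff_mem.mp h3.symm

theorem exists_tuple {β : Type*} (u : β →₀ ℕ) :
    ∃ (m : ℕ) (B : Fin m → β), u = ∑ k, Finsupp.single (B k) 1 := by
  classical
  induction u using Finsupp.induction_linear with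
  | zero => exact ⟨0, Fin.elim0, by simp⟩
  | add f g hf hg =>
    obtain ⟨m, B, hB⟩ := hf
    obtain ⟨m', B', hB'⟩ := hg
    refine ⟨m + m', Fin.append B B', ?_⟩
    rw [Fin.sum_univ_add, hB, hB']
    simp
  | single a n =>
    refine ⟨n, fun _ => a, ?_⟩
    rw [sum_const, card_univ, Fintype.card_fin, Finsupp.smul_single, smul_eq_mul, mul_one]

omit [DecidableEq α] in
theorem expo_tuple (M : Matroid α) {m : ℕ} (B : Fin m → Bases M) :
    expo M (∑ k, Finsupp.single (B k) 1) = ∑ k, ∑ e ∈ (B k).1, Finsupp.single e 1 := by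
  classical
  have hadd : ∀ u v : Bases M →₀ ℕ, expo M (u + v) = expo M u + expo M v := by
    intro u v
    rw [expo, expo, expo, Finsupp.sum_add_index']
    · intro a; simp
    · intro a b c; rw [add_smul]
  have hzero : expo M 0 = 0 := by rw [expo, Finsupp.sum_zero_index]
  let φ : (Bases M →₀ ℕ) →+ (α →₀ ℕ) := ⟨⟨expo M, hzero⟩, hadd⟩
  have h1 : expo M (∑ k, Finsupp.single (B k) 1) = φ (∑ k, Finsupp.single (B k) 1) := rfl
  rw [h1, map_sum]
  refine sum_congr rfl ?_
  intro k _
  change expo M (Finsupp.single (B k) 1) = _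
  rw [expo, Finsupp.sum_single_index]
  · rw [one_smul]
  · rw [zero_smul]

theorem tuple_apply {m : ℕ} (B : Fin m → Finset α) (z : α) :
    (∑ k, ∑ e ∈ B k, (Finsupp.single e 1 : α →₀ ℕ)) z =
      (univ.filter (fun k => z ∈ B k)).card := by
  rw [Finsupp.finsetSum_apply, card_filter]
  refine sum_congr rfl ?_
  intro k _
  rw [Finsupp.finsetSum_apply]
  simp only [Finsupp.single_apply]
  rw [sum_ite_eq']

omit [DecidableEq α] in
theorem tuple_degree {m r : ℕ} (B : Fin m → Finset α) (h : ∀ k, (B k).card = r) :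
    (∑ k, ∑ e ∈ B k, (Finsupp.single e 1 : α →₀ ℕ)).degree = m * r := by
  rw [map_sum]
  have : ∀ k ∈ (univ : Finset (Fin m)), (∑ e ∈ B k, (Finsupp.single e 1 : α →₀ ℕ)).degree = r := by
    intro k _
    rw [map_sum]
    simp [h k]
  rw [sum_congr rfl this, sum_const, card_univ, Fintype.card_fin, smul_eq_mul]

theorem SE_mem {ι : Type*} [Fintype ι] [DecidableEq ι] (M : Matroid α) {B B' : ι → Finset α}
    (hs : SE (isB M) B B') (hB : ∀ k, isB M (B k)) (hB' : ∀ k, isB M (B' k)) :
    (∏ k, (X (⟨B k, hB k⟩ : Bases M) : MvPolynomial (Bases M) K)) -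
      ∏ k, X (⟨B' k, hB' k⟩ : Bases M) ∈ Ideal.span (exchBinomials K M) := by
  obtain ⟨i, j, hij, x, hx, y, hy, heq, h1, h2⟩ := hs
  have hi : i ∈ (univ : Finset ι) := mem_univ i
  have hj : j ∈ (univ : Finset ι).erase i := mem_erase.mpr ⟨hij.symm, mem_univ j⟩
  rw [← mul_prod_erase univ (fun k => (X (⟨B k, hB k⟩ : Bases M) : MvPolynomial (Bases M) K)) hi,
    ← mul_prod_erase (univ.erase i)
      (fun k => (X (⟨B k, hB k⟩ : Bases M) : MvPolynomial (Bases M) K)) hj,
    ← mul_prod_erase univ (fun k => (X (⟨B' k, hB' k⟩ : Bases M) : MvPolynomial (Bases M) K)) hi,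
    ← mul_prod_erase (univ.erase i)
      (fun k => (X (⟨B' k, hB' k⟩ : Bases M) : MvPolynomial (Bases M) K)) hj]
  have hrest : ∏ k ∈ (univ.erase i).erase j,
      (X (⟨B k, hB k⟩ : Bases M) : MvPolynomial (Bases M) K) =
      ∏ k ∈ (univ.erase i).erase j, X (⟨B' k, hB' k⟩ : Bases M) := by
    refine prod_congr rfl ?_
    intro k hk
    rw [mem_erase, mem_erase] at hk
    have : B k = B' k := by
      rw [heq, Function.update_of_ne hk.1, Function.update_of_ne hk.2.1]
    congr 2
  rw [hrest, ← mul_assoc, ← mul_assoc, ← sub_mul]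
  refine Ideal.mul_mem_right _ _ (Ideal.subset_span ?_)
  refine ⟨⟨B i, hB i⟩, ⟨B j, hB j⟩, ⟨B' i, hB' i⟩, ⟨B' j, hB' j⟩, ⟨x, hx, y, hy, ?_, ?_⟩, rfl⟩
  · change B' i = _
    rw [heq, Function.update_of_ne hij, Function.update_self]
  · change B' j = _
    rw [heq, Function.update_self]

theorem reach_mem {ι : Type*} [Fintype ι] [DecidableEq ι] (M : Matroid α) {B B' : ι → Finset α}
    (hs : Relation.ReflTransGen (SE (isB M)) B B') (hB : ∀ k, isB M (B k)) :
    ∀ hB' : ∀ k, isB M (B' k),
    (∏ k, (X (⟨B k, hB k⟩ : Bases M) : MvPolynomial (Bases M) K)) -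
      ∏ k, X (⟨B' k, hB' k⟩ : Bases M) ∈ Ideal.span (exchBinomials K M) := by
  induction hs with
  | refl => intro hB'; rw [sub_self]; exact zero_mem _
  | tail h1 h2 ih =>
    intro hB'
    have hb := reach_bases h1 hB
    have := add_mem (ih hb) (SE_mem (K := K) M h2 hb hB')
    rw [sub_add_sub_cancel] at this
    exact this

theorem prod_exch {S T : Finset α} {x y : α} (hx : x ∈ S \ T) (hy : y ∈ T \ S) :
    (∏ e ∈ insert y (S.erase x), (X e : MvPolynomial α K)) * ∏ e ∈ insert x (T.erase y), X e =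
      (∏ e ∈ S, X e) * ∏ e ∈ T, X e := by
  rw [mem_sdiff] at hx hy
  rw [prod_insert (fun h => hy.2 (mem_of_mem_erase h)),
    prod_insert (fun h => hx.2 (mem_of_mem_erase h)), ← mul_prod_erase S _ hx.1,
    ← mul_prod_erase T _ hy.1]
  ring

/-- The toric ideal is generated by the binomials of symmetric exchanges as soon as compatible
tuples of bases are connected by symmetric exchanges. -/
theorem toric_of_WP (M : Matroid α) [M.RankPos] [M.RankFinite] (h : WP (isB M)) :
    toricIdeal K M = Ideal.span (exchBinomials K M) := by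
  refine le_antisymm (ker_le M _ ?_) ?_
  · intro u v huv
    obtain ⟨m, B, rfl⟩ := exists_tuple u
    obtain ⟨m', D, rfl⟩ := exists_tuple v
    rw [expo_tuple, expo_tuple] at huv
    obtain ⟨B0, hB0⟩ := M.exists_isBase
    have hcard : ∀ B : Bases M, B.1.card = B0.ncard := by
      intro B
      rw [← B.2.ncard_eq_ncard_of_isBase hB0, Set.ncard_coe_finset]
    have hpos : 0 < B0.ncard := by
      rw [Set.ncard_pos hB0.finite]
      exact hB0.nonempty
    have hm : m * B0.ncard = m' * B0.ncard := by
      rw [← tuple_degree (fun k => (B k).1) (fun k => hcard (B k)),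
        ← tuple_degree (fun k => (D k).1) (fun k => hcard (D k)), huv]
    have hmm : m = m' := Nat.eq_of_mul_eq_mul_right hpos hm
    subst hmm
    obtain ⟨N, h1, h2⟩ := h m (fun k => (B k).1) (fun k => (D k).1) (fun k => (B k).2)
      (fun k => (D k).2) (by
        intro z
        rw [← tuple_apply, ← tuple_apply, huv])
    have hN := reach_bases h1 (fun k => (B k).2)
    have e1 := reach_mem (K := K) M h1 (fun k => (B k).2) hN
    have e2 := reach_mem (K := K) M h2 (fun k => (D k).2) hN
    have e3 := sub_mem e1 e2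
    rw [sub_sub_sub_cancel_right] at e3
    rw [monomial_sum_one, monomial_sum_one]
    exact e3
  · rw [Ideal.span_le]
    rintro f ⟨B1, B2, B3, B4, ⟨x, hx, y, hy, h3, h4⟩, rfl⟩
    change baseHom K M _ = 0
    rw [map_sub, map_mul, map_mul, baseHom, aeval_X, aeval_X, aeval_X, aeval_X, h3, h4,
      prod_exch hx hy, sub_self]

end Pool.Agent.H94
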