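import Pool.Agent.H94.Closure

set_option autoImplicit false

namespace Pool.Agent.H94

open Finset

variable {α α' : Type*} [DecidableEq α] [DecidableEq α']

/-- Single exchange between entries with injective projection. -/
theorem proj_insert_erase {π : α → α'} {S : Finset α} (hinj : Set.InjOn π (S : Set α)) {x y : α}
    (hx : x ∈ S) (hy : π y ∉ (S.image π).erase (π x)) :
    Set.InjOn π (insert y (S.erase x) : Finset α) ∧
      (insert y (S.erase x)).image π = insert (π y) ((S.image π).erase (π x)) := by
  have himg : (S.erase x).image π = (S.image π).erase (π x) := by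
    ext c
    simp only [mem_image, mem_erase]
    constructor
    · rintro ⟨v, ⟨hvx, hv⟩, rfl⟩
      refine ⟨?_, v, hv, rfl⟩
      intro hc
      exact hvx (hinj (mem_coe.mpr hv) (mem_coe.mpr hx) hc)
    · rintro ⟨hcx, v, hv, rfl⟩
      exact ⟨v, ⟨by rintro rfl; exact hcx rfl, hv⟩, rfl⟩
  refine ⟨?_, by rw [image_insert, himg]⟩
  intro a ha b hb hab
  rw [mem_coe, mem_insert] at ha hb
  have hS : ∀ c ∈ S.erase x, π y ≠ π c := by
    intro c hc hcy
    apply hy
    rw [← himg, hcy]
    exact mem_image_of_mem π hc
  rcases ha with rfl | ha <;> rcases hb with rfl | hb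
  · rfl
  · exact absurd hab (hS b hb)
  · exact absurd hab.symm (hS a ha)
  · exact hinj (mem_coe.mpr (mem_of_mem_erase ha)) (mem_coe.mpr (mem_of_mem_erase hb)) hab

theorem content_proj {π : α → α'} {m : ℕ} {B D : Fin m → Finset α}
    (hB : ∀ k, Set.InjOn π (B k : Set α)) (hD : ∀ k, Set.InjOn π (D k : Set α))
    (hc : ∀ z, (univ.filter (fun k => z ∈ B k)).card = (univ.filter (fun k => z ∈ D k)).card)
    (c : α') : (univ.filter (fun k => c ∈ (B k).image π)).card =
      (univ.filter (fun k => c ∈ (D k).image π)).card := by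
  set Z : Finset α := ((univ.biUnion B) ∪ (univ.biUnion D)).filter (fun z => π z = c) with hZ
  have key : ∀ (A : Fin m → Finset α), (∀ k, Set.InjOn π (A k : Set α)) →
      (∀ k, ∀ z ∈ A k, π z = c → z ∈ Z) →
      (univ.filter (fun k => c ∈ (A k).image π)).card =
        ∑ z ∈ Z, (univ.filter (fun k => z ∈ A k)).card := by
    intro A hA hAZ
    have h1 : ∀ k, (if c ∈ (A k).image π then 1 else 0) = ∑ z ∈ Z, (if z ∈ A k then 1 else 0) := by
      intro k
      by_cases hk : c ∈ (A k).image π
      · rw [if_pos hk]
        obtain ⟨v, hv, hvc⟩ := mem_image.mp hk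
        rw [sum_eq_single_of_mem v (hAZ k v hv hvc)]
        · rw [if_pos hv]
        · intro z hz hzv
          rw [if_neg]
          intro hzA
          apply hzv
          rw [hZ, mem_filter] at hz
          exact hA k (mem_coe.mpr hzA) (mem_coe.mpr hv) (hz.2.trans hvc.symm)
      · rw [if_neg hk]
        symm
        refine sum_eq_zero ?_
        intro z hz
        rw [if_neg]
        intro hzA
        rw [hZ, mem_filter] at hz
        exact hk (mem_image.mpr ⟨z, hzA, hz.2⟩)
    rw [card_filter]
    simp only [card_filter]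
    rw [sum_comm]
    exact sum_congr rfl (fun k _ => h1 k)
  rw [key B hB, key D hD]
  · exact sum_congr rfl (fun z _ => hc z)
  · intro k z hz hzc
    rw [hZ, mem_filter, mem_union, mem_biUnion, mem_biUnion]
    exact ⟨Or.inr ⟨k, mem_univ _, hz⟩, hzc⟩
  · intro k z hz hzc
    rw [hZ, mem_filter, mem_union, mem_biUnion, mem_biUnion]
    exact ⟨Or.inl ⟨k, mem_univ _, hz⟩, hzc⟩

/-- Tuples with the same projections and the same content are connected. -/
theorem fibre_conn {π : α → α'} {base : Finset α → Prop} {base' : Finset α' → Prop}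
    (hb : ∀ S : Finset α, base S ↔ (Set.InjOn π (S : Set α) ∧ base' (S.image π))) {m : ℕ} :
    ∀ (N : ℕ) (B D : Fin m → Finset α), (∀ k, base (B k)) → (∀ k, base (D k)) →
    (∀ z, (univ.filter (fun k => z ∈ B k)).card = (univ.filter (fun k => z ∈ D k)).card) →
    (∀ k, (B k).image π = (D k).image π) → ∑ k, (B k \ D k).card = N →
    Relation.ReflTransGen (SE base) B D := by
  intro N
  induction N using Nat.strong_induction_on with
  | _ N ih =>
    intro B D hB hD hc him hN
    by_cases hBD : B = D
    · rw [hBD]
    have hBi := fun k => ((hb _).mp (hB k)).1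
    have hDi := fun k => ((hb _).mp (hD k)).1
    obtain ⟨i, z, hzB, hzD⟩ : ∃ i, ∃ z ∈ B i, z ∉ D i := by
      by_contra hcon
      push Not at hcon
      apply hBD
      funext k
      refine eq_of_subset_of_card_le (hcon k) ?_
      rw [← card_image_of_injOn (hBi k), ← card_image_of_injOn (hDi k), him k]
    have hz1 : π z ∈ (D i).image π := by rw [← him i]; exact mem_image_of_mem π hzB
    obtain ⟨z', hz'D, hzz'⟩ := mem_image.mp hz1
    have hne : z' ≠ z := by rintro rfl; exact hzD hz'D
    have hz'B : z' ∉ B i := by
      intro h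
      exact hne (hBi i (mem_coe.mpr h) (mem_coe.mpr hzB) hzz')
    obtain ⟨j, hjB, hjD⟩ : ∃ j, z' ∈ B j ∧ z' ∉ D j := by
      by_contra hcon
      push Not at hcon
      have hsub : univ.filter (fun k => z' ∈ B k) ⊂ univ.filter (fun k => z' ∈ D k) := by
        rw [ssubset_iff_of_subset]
        · refine ⟨i, ?_, ?_⟩
          · rw [mem_filter]; exact ⟨mem_univ _, hz'D⟩
          · rw [mem_filter]; tauto
        · intro k hk
          rw [mem_filter] at hk ⊢
          exact ⟨mem_univ _, hcon k hk.2⟩
      have := card_lt_card hsub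
      rw [hc z'] at this
      exact lt_irrefl _ this
    have hij : i ≠ j := by rintro rfl; exact hz'B hjB
    have hzBj : z ∉ B j := by
      intro h
      exact hne (hBi j (mem_coe.mpr hjB) (mem_coe.mpr h) hzz')
    have p1 := proj_insert_erase (hBi i) hzB (y := z') (by rw [hzz']; exact notMem_erase _ _)
    have p2 := proj_insert_erase (hBi j) hjB (y := z) (by rw [← hzz']; exact notMem_erase _ _)
    have q1 : (insert z' ((B i).erase z)).image π = (B i).image π := by
      rw [p1.2, hzz', insert_erase (mem_image_of_mem π hzB)]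
    have q2 : (insert z ((B j).erase z')).image π = (B j).image π := by
      rw [p2.2, ← hzz', insert_erase (mem_image_of_mem π hjB)]
    set B1 : Fin m → Finset α := Function.update (Function.update B i
      (insert z' ((B i).erase z))) j (insert z ((B j).erase z')) with hB1
    have e1 : B1 i = insert z' ((B i).erase z) := by rw [hB1, upd_self _ hij]
    have e2 : B1 j = insert z ((B j).erase z') := by rw [hB1, Function.update_self]
    have hse : SE base B B1 := by
      refine ⟨i, j, hij, z, mem_sdiff.mpr ⟨hzB, hzBj⟩, z', mem_sdiff.mpr ⟨hjB, hz'B⟩, hB1, ?_, ?_⟩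
      · rw [e1, hb, q1]; exact ⟨p1.1, ((hb _).mp (hB i)).2⟩
      · rw [e2, hb, q2]; exact ⟨p2.1, ((hb _).mp (hB j)).2⟩
    have him1 : ∀ k, (B1 k).image π = (D k).image π := by
      intro k
      by_cases hj : k = j
      · subst hj; rw [e2, q2]; exact him k
      · by_cases hi : k = i
        · subst hi; rw [e1, q1]; exact him k
        · rw [hB1, Function.update_of_ne hj, Function.update_of_ne hi]; exact him k
    have hsum := sum_two (fun k => (B1 k \ D k).card) (fun k => (B k \ D k).card) hij (by
      intro k hi hj
      simp only [hB1, Function.update_of_ne hj, Function.update_of_ne hi])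
    have c1 : (B1 i \ D i).card + 1 = (B i \ D i).card := by
      have : B1 i \ D i = (B i \ D i).erase z := by
        rw [e1]
        ext v
        simp only [mem_sdiff, mem_insert, mem_erase]
        by_cases hv : v = z'
        · subst hv; simp [hz'D]
        · simp [hv, and_assoc]
      rw [this, card_erase_of_mem (mem_sdiff.mpr ⟨hzB, hzD⟩)]
      have : 0 < (B i \ D i).card := card_pos.mpr ⟨z, mem_sdiff.mpr ⟨hzB, hzD⟩⟩
      omega
    have c2 : (B1 j \ D j).card ≤ (B j \ D j).card := by
      have : B1 j \ D j ⊆ insert z ((B j \ D j).erase z') := by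
        rw [e2]
        intro v
        simp only [mem_sdiff, mem_insert, mem_erase]
        tauto
      have h1 := card_le_card this
      have h2 := card_insert_le z ((B j \ D j).erase z')
      have h3 : ((B j \ D j).erase z').card = (B j \ D j).card - 1 :=
        card_erase_of_mem (mem_sdiff.mpr ⟨hjB, hjD⟩)
      have : 0 < (B j \ D j).card := card_pos.mpr ⟨z', mem_sdiff.mpr ⟨hjB, hjD⟩⟩
      omega
    have hlt : ∑ k, (B1 k \ D k).card < N := by
      rw [← hN]
      omega
    exact Relation.ReflTransGen.head hse (ih _ hlt B1 D (hse.bases hB) hD (by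
      intro v; rw [hse.content]; exact hc v) him1 rfl)

theorem WP_lift (π : α → α') {base : Finset α → Prop} {base' : Finset α' → Prop}
    (hb : ∀ S : Finset α, base S ↔ (Set.InjOn π (S : Set α) ∧ base' (S.image π)))
    (h : WP base') : WP base := by
  intro m B D hB hD hc
  have hBi := fun k => ((hb _).mp (hB k)).1
  have hDi := fun k => ((hb _).mp (hD k)).1
  obtain ⟨N, r1, r2⟩ := h m (fun k => (B k).image π) (fun k => (D k).image π)
    (fun k => ((hb _).mp (hB k)).2) (fun k => ((hb _).mp (hD k)).2) (content_proj hBi hDi hc)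
  have lift : ∀ (A : Fin m → Finset α), (∀ k, base (A k)) → ∀ N' : Fin m → Finset α',
      Relation.ReflTransGen (SE base') (fun k => (A k).image π) N' →
      ∃ A', Relation.ReflTransGen (SE base) A A' ∧ ∀ k, (A' k).image π = N' k := by
    intro A hA N' hN
    induction hN with
    | refl => exact ⟨A, Relation.ReflTransGen.refl, fun k => rfl⟩
    | @tail N1 N2 h1 h2 ih =>
      obtain ⟨A1, a1, a2⟩ := ih
      have hA1 := reach_bases a1 hA
      have hinj := fun k => ((hb _).mp (hA1 k)).1
      obtain ⟨i, j, hij, x', hx', y', hy', heq, e1, e2⟩ := h2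
      rw [← a2 i, ← a2 j, mem_sdiff] at hx' hy'
      obtain ⟨x, hx, rfl⟩ := mem_image.mp hx'.1
      obtain ⟨y, hy, rfl⟩ := mem_image.mp hy'.1
      have hxj : x ∉ A1 j := fun h => hx'.2 (mem_image_of_mem π h)
      have hyi : y ∉ A1 i := fun h => hy'.2 (mem_image_of_mem π h)
      have p1 := proj_insert_erase (hinj i) hx (y := y)
        (fun h => hy'.2 (mem_of_mem_erase h))
      have p2 := proj_insert_erase (hinj j) hy (y := x)
        (fun h => hx'.2 (mem_of_mem_erase h))
      have f1 : N2 i = insert (π y) (((A1 i).image π).erase (π x)) := by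
        rw [heq, upd_self _ hij, a2 i]
      have f2 : N2 j = insert (π x) (((A1 j).image π).erase (π y)) := by
        rw [heq, Function.update_self, a2 j]
      refine ⟨Function.update (Function.update A1 i (insert y ((A1 i).erase x))) j
        (insert x ((A1 j).erase y)), a1.tail ?_, ?_⟩
      · refine ⟨i, j, hij, x, mem_sdiff.mpr ⟨hx, hxj⟩, y, mem_sdiff.mpr ⟨hy, hyi⟩, rfl, ?_, ?_⟩
        · rw [upd_self _ hij, hb, p1.2]
          refine ⟨p1.1, ?_⟩
          rw [← f1]; exact e1
        · rw [Function.update_self, hb, p2.2]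
          refine ⟨p2.1, ?_⟩
          rw [← f2]; exact e2
      · intro k
        by_cases hj : k = j
        · subst hj; rw [Function.update_self, p2.2, f2]
        · by_cases hi : k = i
          · subst hi; rw [upd_self _ hj, p1.2, f1]
          · rw [Function.update_of_ne hj, Function.update_of_ne hi, heq,
              Function.update_of_ne hj, Function.update_of_ne hi, a2 k]
  obtain ⟨B', b1, b2⟩ := lift B hB N r1
  obtain ⟨D', d1, d2⟩ := lift D hD N r2
  have hB' := reach_bases b1 hB
  have hD' := reach_bases d1 hD
  refine ⟨D', b1.trans (fibre_conn hb _ B' D' hB' hD' ?_ ?_ rfl), d1⟩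
  · intro z; rw [reach_content b1, reach_content d1]; exact hc z
  · intro k; rw [b2, d2]

end Pool.Agent.H94
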