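import Pool.Agent.H94.MatPav

set_option autoImplicit false

namespace Pool.Agent.H94

open MvPolynomial

variable {α : Type*}

theorem closure_gen (M : Matroid α) (π : α → α)
    (hπ : ∀ e, M.IsNonloop e → M.IsNonloop (π e) ∧ M.closure {π e} = M.closure {e})
    {S : Set α} (hS : ∀ e ∈ S, M.IsNonloop e) :
    M.closure (π '' S) = M.closure S := by
  refine Set.Subset.antisymm ?_ ?_
  · refine M.closure_subset_closure_of_subset_closure ?_
    rintro _ ⟨e, he, rfl⟩
    have h1 := hπ e (hS e he)
    have h2 : π e ∈ M.closure {e} := by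
      rw [← h1.2]; exact M.mem_closure_self _ h1.1.mem_ground
    exact M.closure_subset_closure (Set.singleton_subset_iff.mpr he) h2
  · refine M.closure_subset_closure_of_subset_closure ?_
    intro e he
    have h1 := hπ e (hS e he)
    have h2 : e ∈ M.closure {π e} := by
      rw [h1.2]; exact M.mem_closure_self _ (hS e he).mem_ground
    exact M.closure_subset_closure (Set.singleton_subset_iff.mpr (Set.mem_image_of_mem _ he)) h2

theorem hb_gen [DecidableEq α] (M : Matroid α) (π : α → α)
    (hπ : ∀ e, M.IsNonloop e → M.IsNonloop (π e) ∧ M.closure {π e} = M.closure {e})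
    (hπ' : ∀ e, ¬ M.IsNonloop e → ¬ M.IsNonloop (π e)) (S : Finset α) :
    isB M S ↔ (Set.InjOn π (S : Set α) ∧ isB M (S.image π)) := by
  have h4 : ((S.image π : Finset α) : Set α) = π '' (S : Set α) := by
    push_cast; rfl
  constructor
  · intro h
    have h' : M.IsBase (S : Set α) := h
    have hnl : ∀ e ∈ S, M.IsNonloop e := fun e he =>
      h'.indep.isNonloop_of_mem (Finset.mem_coe.mpr he)
    have hinj : Set.InjOn π (S : Set α) := by
      intro e he f hf hef
      by_contra hne
      have h1 := hπ e (hnl e he)
      have h2 := hπ f (hnl f hf)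
      have hcl : M.closure {e} = M.closure {f} := by rw [← h1.2, ← h2.2, hef]
      have h3 : e ∈ M.closure {f} := by
        rw [← hcl]; exact M.mem_closure_self _ (hnl e he).mem_ground
      have h4 : e ∈ M.closure ((S : Set α) \ {e}) := by
        refine M.closure_subset_closure ?_ h3
        rw [Set.singleton_subset_iff]
        exact ⟨hf, fun h => hne h.symm⟩
      exact h'.indep.notMem_closure_sdiff_of_mem he h4
    refine ⟨hinj, ?_⟩
    rw [isB_iff]
    obtain ⟨_, h2, h3⟩ := (isB_iff M S).mp h
    refine ⟨?_, ?_, ?_⟩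
    · rw [h4]
      rintro _ ⟨e, he, rfl⟩
      exact (hπ e (hnl e he)).1.mem_ground
    · rw [h4, closure_gen M π hπ (S := (S : Set α)) (fun e he => hnl e he)]; exact h2
    · rw [Finset.card_image_of_injOn hinj]; exact h3
  · rintro ⟨hinj, hb⟩
    have hnl : ∀ e ∈ S, M.IsNonloop e := by
      intro e he
      by_contra hcon
      exact hπ' e hcon (Matroid.IsBase.indep (M := M) hb |>.isNonloop_of_mem
          (Finset.mem_coe.mpr (Finset.mem_image_of_mem _ he)))
    obtain ⟨_, h2, h3⟩ := (isB_iff M _).mp hb
    rw [isB_iff]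
    refine ⟨fun e he => (hnl e he).mem_ground, ?_, ?_⟩
    · rw [h4, closure_gen M π hπ (S := (S : Set α)) (fun e he => hnl e he)] at h2; exact h2
    · rw [Finset.card_image_of_injOn hinj] at h3; exact h3

theorem WP_parallel [DecidableEq α] (M : Matroid α) {e f : α} (hne : e ≠ f)
    (he : M.IsNonloop e) (hcl : M.closure {e} = M.closure {f}) (h : WP (isB (M.delete {e}))) :
    WP (isB M) := by
  have hf : M.IsNonloop f := by
    by_contra hcon
    rw [Matroid.not_isNonloop_iff_closure] at hcon
    rw [← hcl, ← Matroid.not_isNonloop_iff_closure] at hcon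
    exact hcon he
  have hco : M.Coindep {e} := by
    rw [Matroid.coindep_iff_compl_spanning (Set.singleton_subset_iff.mpr he.mem_ground)]
    rw [Matroid.spanning_iff_ground_subset_closure Set.sdiff_subset]
    have hsub : M.E \ {e} ⊆ M.closure (M.E \ {e}) := M.subset_closure _ Set.sdiff_subset
    intro x hx
    by_cases hxe : x = e
    · have h1 : x ∈ M.closure {f} := by
        rw [← hcl, hxe]; exact M.mem_closure_self e he.mem_ground
      refine M.closure_subset_closure ?_ h1
      rw [Set.singleton_subset_iff]
      exact ⟨hf.mem_ground, fun h => hne (Set.mem_singleton_iff.mp h).symm⟩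
    · exact hsub ⟨hx, hxe⟩
  have hdel : ∀ T : Finset α, isB (M.delete {e}) T ↔ isB M T ∧ e ∉ T := by
    intro T
    rw [isB, hco.delete_isBase_iff, isB, Set.disjoint_singleton_right, Finset.mem_coe]
  refine WP_lift (fun x => if x = e then f else x) (base' := isB (M.delete {e})) ?_ h
  intro S
  rw [hb_gen M (fun x => if x = e then f else x), hdel]
  · have : e ∉ S.image (fun x => if x = e then f else x) := by
      rw [Finset.mem_image]
      rintro ⟨x, _, hx⟩
      by_cases hxe : x = e
      · rw [if_pos hxe] at hx; exact hne hx.symm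
      · rw [if_neg hxe] at hx; exact hxe hx
    tauto
  · intro x hx
    by_cases hxe : x = e
    · rw [if_pos hxe, hxe]; exact ⟨hf, hcl.symm⟩
    · rw [if_neg hxe]; exact ⟨hx, rfl⟩
  · intro x hx
    by_cases hxe : x = e
    · rw [hxe] at hx; exact absurd he hx
    · rw [if_neg hxe]; exact hx

theorem PavClass.finite {M : Matroid α} (h : PavClass M) : M.Finite := by
  induction h with
  | base M hfin _ => exact hfin
  | dual M _ ih => haveI := ih; infer_instance
  | sum M N hd _ _ ih1 ih2 =>
    refine ⟨?_⟩
    rw [Matroid.disjointSum_ground_eq]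
    exact ih1.ground_finite.union ih2.ground_finite
  | parallel M e f hne he hcl _ ih =>
    refine ⟨?_⟩
    have := ih.ground_finite
    rw [Matroid.delete_ground] at this
    refine (this.insert e).subset ?_
    intro x hx
    by_cases hxe : x = e
    · exact Or.inl hxe
    · exact Or.inr ⟨hx, hxe⟩

theorem PavClass.wp [DecidableEq α] {M : Matroid α} (h : PavClass M) : WP (isB M) := by
  induction h with
  | base M hfin hC => haveI := hfin; exact WP_pav M hC
  | dual M h ih =>
    have hfin := h.finite
    have hE : ∀ S : Finset α, isB M S → S ⊆ hfin.ground_finite.toFinset := by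
      intro S hS x hx
      rw [Set.Finite.mem_toFinset]
      exact Matroid.IsBase.subset_ground (M := M) hS (Finset.mem_coe.mpr hx)
    have := WP_dual hE ih
    have heq : (fun S : Finset α => S ⊆ hfin.ground_finite.toFinset ∧
        isB M (hfin.ground_finite.toFinset \ S)) = isB M✶ := by
      funext S
      rw [isB, isB, Matroid.dual_isBase_iff', eq_iff_iff]
      have h1 : ((hfin.ground_finite.toFinset \ S : Finset α) : Set α) = M.E \ S := by
        push_cast; rw [Set.Finite.coe_toFinset]
      rw [h1, and_comm]
      have h2 : S ⊆ hfin.ground_finite.toFinset ↔ (S : Set α) ⊆ M.E := by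
        rw [← Finset.coe_subset, Set.Finite.coe_toFinset]
      rw [h2]
    rw [heq] at this
    exact this
  | sum M N hd hM hN ih1 ih2 =>
    have hfM := hM.finite
    have hfN := hN.finite
    refine WP_sum (E1 := hfM.ground_finite.toFinset) (E2 := hfN.ground_finite.toFinset)
      (base1 := isB M) (base2 := isB N) ?_ ?_ ?_ ?_ ih1 ih2
    · rw [← Finset.disjoint_coe, Set.Finite.coe_toFinset, Set.Finite.coe_toFinset]
      exact hd
    · intro S hS x hx
      rw [Set.Finite.mem_toFinset]
      exact Matroid.IsBase.subset_ground (M := M) hS (Finset.mem_coe.mpr hx)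
    · intro S hS x hx
      rw [Set.Finite.mem_toFinset]
      exact Matroid.IsBase.subset_ground (M := N) hS (Finset.mem_coe.mpr hx)
    · intro S
      rw [isB, Matroid.disjointSum_isBase_iff, isB, isB]
      push_cast
      rw [Set.Finite.coe_toFinset, Set.Finite.coe_toFinset, ← Finset.coe_subset]
      push_cast
      rw [Set.Finite.coe_toFinset, Set.Finite.coe_toFinset]
  | parallel M e f hne he hcl _ ih => exact WP_parallel M hne he hcl ih

theorem exch_mem_ker [DecidableEq α] (K : Type*) [Field K] (M : Matroid α)
    {f : MvPolynomial (Bases M) K} (hf : f ∈ exchBinomials K M) : f ∈ toricIdeal K M := by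
  obtain ⟨B1, B2, B3, B4, ⟨x, hx, y, hy, h3, h4⟩, rfl⟩ := hf
  change baseHom K M _ = 0
  rw [map_sub, map_mul, map_mul, baseHom, aeval_X, aeval_X, aeval_X, aeval_X, h3, h4,
    prod_exch hx hy, sub_self]

theorem PavClass.white [DecidableEq α] (K : Type*) [Field K] (M : Matroid α) [hpos : M.RankPos]
    (h : PavClass M) :
    toricIdeal K M = Ideal.span (exchBinomials K M) ∧
    toricIdeal K M = Ideal.span {f | f ∈ toricIdeal K M ∧ f.IsHomogeneous 2} := by
  haveI := h.finite
  have h1 : toricIdeal K M = Ideal.span (exchBinomials K M) := toric_of_WP M h.wp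
  refine ⟨h1, le_antisymm ?_ ?_⟩
  · conv_lhs => rw [h1]
    rw [Ideal.span_le]
    intro f hf
    refine Ideal.subset_span ⟨exch_mem_ker K M hf, ?_⟩
    obtain ⟨B1, B2, B3, B4, -, rfl⟩ := hf
    exact (((isHomogeneous_X K B1).mul (isHomogeneous_X K B2))).sub
      ((isHomogeneous_X K B3).mul (isHomogeneous_X K B4))
  · rw [Ideal.span_le]
    rintro f ⟨hf, -⟩
    exact hf

end Pool.Agent.H94
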