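import Pool.Agent.H94.Toric

set_option autoImplicit false

namespace Pool.Agent.H94

open Finset

variable {α : Type*} [DecidableEq α]

theorem upd_self {ι : Type*} [DecidableEq ι] {β : Type*} (f : ι → β) {i j : ι} (hij : i ≠ j)
    (a b : β) : Function.update (Function.update f i a) j b i = a := by
  rw [Function.update_of_ne hij, Function.update_self]

/-! ### Duality -/

theorem WP_dual {E : Finset α} {base : Finset α → Prop} (hE : ∀ S, base S → S ⊆ E)
    (h : WP base) : WP (fun S => S ⊆ E ∧ base (E \ S)) := by
  intro m B D hB hD hc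
  have hcompl : ∀ (B : Fin m → Finset α) (z : α), z ∈ E →
      (univ.filter (fun k => z ∈ E \ B k)).card + (univ.filter (fun k => z ∈ B k)).card = m := by
    intro B z hz
    have h1 := card_filter_add_card_filter_not (s := (univ : Finset (Fin m)))
      (fun k => z ∈ B k)
    rw [card_univ, Fintype.card_fin] at h1
    have h2 : univ.filter (fun k => z ∈ E \ B k) = univ.filter (fun k => ¬ z ∈ B k) := by
      ext k; simp [hz]
    rw [h2]; omega
  have hcompl' : ∀ (B : Fin m → Finset α) (z : α), z ∉ E →
      (univ.filter (fun k => z ∈ E \ B k)).card = 0 := by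
    intro B z hz
    rw [card_eq_zero, filter_eq_empty_iff]
    intro k _
    simp [hz]
  obtain ⟨N, h1, h2⟩ := h m (fun k => E \ B k) (fun k => E \ D k) (fun k => (hB k).2)
    (fun k => (hD k).2) (by
      intro z
      by_cases hz : z ∈ E
      · have := hcompl B z hz
        have := hcompl D z hz
        have := hc z
        omega
      · rw [hcompl' B z hz, hcompl' D z hz])
  have lift : ∀ (A A' : Fin m → Finset α), Relation.ReflTransGen (SE base) A A' →
      (∀ k, base (A k)) →
      Relation.ReflTransGen (SE (fun S => S ⊆ E ∧ base (E \ S))) (fun k => E \ A k)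
        (fun k => E \ A' k) := by
    intro A A' hA
    induction hA with
    | refl => intro _; exact Relation.ReflTransGen.refl
    | @tail A1 A2 h1 h2 ih =>
      intro hb
      refine (ih hb).tail ?_
      have hb1 := reach_bases h1 hb
      have hb2 := h2.bases hb1
      obtain ⟨i, j, hij, x, hx, y, hy, heq, e1, e2⟩ := h2
      rw [mem_sdiff] at hx hy
      have hxE : x ∈ E := hE _ (hb1 i) hx.1
      have hyE : y ∈ E := hE _ (hb1 j) hy.1
      refine ⟨i, j, hij, y, ?_, x, ?_, ?_, ?_, ?_⟩
      · simp only [mem_sdiff]; tauto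
      · simp only [mem_sdiff]; tauto
      · funext k
        by_cases hj : k = j
        · subst hj
          rw [Function.update_self, heq, Function.update_self]
          ext v
          simp only [mem_sdiff, mem_insert, mem_erase]
          by_cases hvx : v = x
          · subst hvx
            have : v ≠ y := by rintro rfl; exact hy.2 hx.1
            simp [this]
          · by_cases hvy : v = y
            · subst hvy; simp [hvx, hyE]
            · simp [hvx, hvy]
        · by_cases hi : k = i
          · subst hi
            rw [upd_self _ hj, heq, upd_self _ hj]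
            ext v
            simp only [mem_sdiff, mem_insert, mem_erase]
            by_cases hvx : v = x
            · subst hvx
              have : v ≠ y := by rintro rfl; exact hy.2 hx.1
              simp [this, hxE]
            · by_cases hvy : v = y
              · subst hvy; simp [hvx]
              · simp [hvx, hvy]
          · rw [Function.update_of_ne hj, Function.update_of_ne hi, heq,
              Function.update_of_ne hj, Function.update_of_ne hi]
      · refine ⟨sdiff_subset, ?_⟩
        rw [Finset.sdiff_sdiff_eq_self (hE _ (hb2 i))]; exact hb2 i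
      · refine ⟨sdiff_subset, ?_⟩
        rw [Finset.sdiff_sdiff_eq_self (hE _ (hb2 j))]; exact hb2 j
  have e1 := lift _ _ h1 (fun k => (hB k).2)
  have e2 := lift _ _ h2 (fun k => (hD k).2)
  have e3 : (fun k => E \ (E \ B k)) = B := by
    funext k; rw [Finset.sdiff_sdiff_eq_self (hB k).1]
  have e4 : (fun k => E \ (E \ D k)) = D := by
    funext k; rw [Finset.sdiff_sdiff_eq_self (hD k).1]
  rw [e3] at e1
  rw [e4] at e2
  exact ⟨_, e1, e2⟩

/-! ### Direct sums -/

theorem lift_sum {m : ℕ} {E1 E2 : Finset α} {base1 base2 : Finset α → Prop}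
    (hd : Disjoint E1 E2) (hE1 : ∀ S, base1 S → S ⊆ E1)
    {C : Fin m → Finset α} (hC : ∀ k, base2 (C k)) (hCE : ∀ k, C k ⊆ E2)
    {base : Finset α → Prop} (hbase : ∀ S T, base1 S → base2 T → base (S ∪ T))
    {A A' : Fin m → Finset α} (hA : Relation.ReflTransGen (SE base1) A A')
    (hb : ∀ k, base1 (A k)) :
    Relation.ReflTransGen (SE base) (fun k => A k ∪ C k) (fun k => A' k ∪ C k) := by
  induction hA with
  | refl => exact Relation.ReflTransGen.refl
  | @tail A1 A2 h1 h2 ih =>
    refine ih.tail ?_
    have hb1 := reach_bases h1 hb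
    have hb2 := h2.bases hb1
    obtain ⟨i, j, hij, x, hx, y, hy, heq, e1, e2⟩ := h2
    rw [mem_sdiff] at hx hy
    have hxE : x ∈ E1 := hE1 _ (hb1 i) hx.1
    have hyE : y ∈ E1 := hE1 _ (hb1 j) hy.1
    have hxC : ∀ k, x ∉ C k := fun k h => disjoint_left.mp hd hxE (hCE k h)
    have hyC : ∀ k, y ∉ C k := fun k h => disjoint_left.mp hd hyE (hCE k h)
    refine ⟨i, j, hij, x, ?_, y, ?_, ?_, ?_, ?_⟩
    · simp only [mem_sdiff, mem_union]; exact ⟨Or.inl hx.1, by rintro (h | h); exacts [hx.2 h, hxC _ h]⟩
    · simp only [mem_sdiff, mem_union]; exact ⟨Or.inl hy.1, by rintro (h | h); exacts [hy.2 h, hyC _ h]⟩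
    · funext k
      by_cases hj : k = j
      · subst hj
        rw [Function.update_self, heq, Function.update_self]
        ext v
        simp only [mem_union, mem_insert, mem_erase]
        by_cases hvy : v = y
        · subst hvy; have := hyC k; simp [this]
        · simp [hvy, or_assoc]
      · by_cases hi : k = i
        · subst hi
          rw [upd_self _ hj, heq, upd_self _ hj]
          ext v
          simp only [mem_union, mem_insert, mem_erase]
          by_cases hvx : v = x
          · subst hvx; have := hxC k; simp [this]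
          · simp [hvx, or_assoc]
        · rw [Function.update_of_ne hj, Function.update_of_ne hi, heq,
            Function.update_of_ne hj, Function.update_of_ne hi]
    · exact hbase _ _ (hb2 i) (hC i)
    · exact hbase _ _ (hb2 j) (hC j)

theorem WP_sum {E1 E2 : Finset α} {base1 base2 base : Finset α → Prop} (hd : Disjoint E1 E2)
    (hE1 : ∀ S, base1 S → S ⊆ E1) (hE2 : ∀ S, base2 S → S ⊆ E2)
    (hbase : ∀ S, base S ↔ (base1 (S ∩ E1) ∧ base2 (S ∩ E2) ∧ S ⊆ E1 ∪ E2))
    (h1 : WP base1) (h2 : WP base2) : WP base := by
  intro m B D hB hD hc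
  have hcap : ∀ (F : Finset α) (B : Fin m → Finset α) (z : α),
      (univ.filter (fun k => z ∈ B k ∩ F)).card =
      if z ∈ F then (univ.filter (fun k => z ∈ B k)).card else 0 := by
    intro F B z
    by_cases hz : z ∈ F
    · rw [if_pos hz]; congr 1; ext k; simp [hz]
    · rw [if_neg hz, card_eq_zero, filter_eq_empty_iff]; intro k _; simp [hz]
  have hB' := fun k => (hbase _).mp (hB k)
  have hD' := fun k => (hbase _).mp (hD k)
  obtain ⟨M1, a1, a2⟩ := h1 m (fun k => B k ∩ E1) (fun k => D k ∩ E1) (fun k => (hB' k).1)
    (fun k => (hD' k).1) (by intro z; rw [hcap, hcap, hc z])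
  obtain ⟨M2, b1, b2⟩ := h2 m (fun k => B k ∩ E2) (fun k => D k ∩ E2) (fun k => (hB' k).2.1)
    (fun k => (hD' k).2.1) (by intro z; rw [hcap, hcap, hc z])
  have hM1 := reach_bases a1 (fun k => (hB' k).1)
  have hb : ∀ S T, base1 S → base2 T → base (S ∪ T) := by
    intro S T hS hT
    rw [hbase]
    have hS' := hE1 _ hS
    have hT' := hE2 _ hT
    have e1 : (S ∪ T) ∩ E1 = S := by
      ext v
      rw [mem_inter, mem_union]
      constructor
      · rintro ⟨h | h, h'⟩
        · exact h
        · exact absurd (hT' h) (disjoint_left.mp hd h')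
      · intro h; exact ⟨Or.inl h, hS' h⟩
    have e2 : (S ∪ T) ∩ E2 = T := by
      ext v
      rw [mem_inter, mem_union]
      constructor
      · rintro ⟨h | h, h'⟩
        · exact absurd h' (disjoint_left.mp hd (hS' h))
        · exact h
      · intro h; exact ⟨Or.inr h, hT' h⟩
    rw [e1, e2]
    exact ⟨hS, hT, union_subset_union hS' hT'⟩
  have hb' : ∀ S T, base2 S → base1 T → base (S ∪ T) := by
    intro S T hS hT; rw [union_comm]; exact hb _ _ hT hS
  have hsplit : ∀ S, base S → S ∩ E1 ∪ S ∩ E2 = S := by
    intro S hS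
    rw [← inter_union_distrib_left]
    exact inter_eq_left.mpr ((hbase S).mp hS).2.2
  have main : ∀ B : Fin m → Finset α, (∀ k, base (B k)) →
      Relation.ReflTransGen (SE base1) (fun k => B k ∩ E1) M1 →
      Relation.ReflTransGen (SE base2) (fun k => B k ∩ E2) M2 →
      Relation.ReflTransGen (SE base) B (fun k => M2 k ∪ M1 k) := by
    intro B hB c1 c2
    have hB' := fun k => (hbase _).mp (hB k)
    have s1 := lift_sum (C := fun k => B k ∩ E2) hd hE1 (fun k => (hB' k).2.1)
      (fun k => inter_subset_right) hb c1 (fun k => (hB' k).1)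
    have s2 := lift_sum (C := M1) hd.symm hE2 hM1 (fun k => hE1 _ (hM1 k)) hb' c2
      (fun k => (hB' k).2.1)
    have e1 : (fun k => B k ∩ E1 ∪ B k ∩ E2) = B := by
      funext k; exact hsplit _ (hB k)
    have e2 : (fun k => M1 k ∪ B k ∩ E2) = (fun k => B k ∩ E2 ∪ M1 k) := by
      funext k; exact union_comm _ _
    simp only [e1, e2] at s1
    exact s1.trans s2
  exact ⟨fun k => M2 k ∪ M1 k, main B hB a1 b1, main D hD a2 b2⟩

end Pool.Agent.H94
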