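import Pool.Agent.H94.CtlE

set_option autoImplicit false

namespace Pool.Agent.H94

open Finset

variable {α : Type*} [DecidableEq α]
variable {n : ℕ} {U : Finset α} {b : Finset α → Prop}

/-- One good exchange. -/
def Step (n : ℕ) (U : Finset α) (b : Finset α → Prop) (A B : Finset α) : Prop :=
  Good n U b A ∧ Good n U b B ∧ ∃ x ∈ A, ∃ y ∈ U \ A, B = insert y (A.erase x)

theorem Step.symm {A B : Finset α} (h : Step n U b A B) : Step n U b B A := by
  obtain ⟨hA, hB, x, hx, y, hy, rfl⟩ := h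
  have hyA : y ∉ A := (mem_sdiff.mp hy).2
  have hxy : x ≠ y := by rintro rfl; exact hyA hx
  refine ⟨hB, hA, y, mem_insert_self _ _, x, ?_, ?_⟩
  · rw [mem_sdiff, mem_insert, mem_erase]
    exact ⟨hA.sub hx, by rintro (h | h); exacts [hxy h, h.1 rfl]⟩
  · rw [erase_insert (fun h => hyA (mem_of_mem_erase h)), insert_erase hx]

theorem step_of_card {A B : Finset α} (hA : Good n U b A) (hB : Good n U b B)
    (h : (A \ B).card ≤ 1) : Relation.ReflTransGen (Step n U b) A B := by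
  have hc : (A \ B).card = (B \ A).card := by
    have h1 := card_inter_add_card_sdiff A B
    have h2 := card_inter_add_card_sdiff B A
    rw [hA.card] at h1
    rw [hB.card, inter_comm] at h2
    omega
  rcases Nat.lt_or_ge (A \ B).card 1 with h0 | h1
  · have hsub : A ⊆ B := by
      rw [← sdiff_eq_empty_iff_subset, ← card_eq_zero]; omega
    have : A = B := eq_of_subset_of_card_le hsub (by rw [hA.card, hB.card])
    rw [this]
  · have h1' : (A \ B).card = 1 := by omega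
    obtain ⟨x, hx⟩ := card_eq_one.mp h1'
    obtain ⟨y, hy⟩ := card_eq_one.mp (hc ▸ h1')
    have hx' : x ∈ A \ B := by rw [hx]; simp
    have hy' : y ∈ B \ A := by rw [hy]; simp
    rw [mem_sdiff] at hx' hy'
    refine Relation.ReflTransGen.single ⟨hA, hB, x, hx'.1, y,
      mem_sdiff.mpr ⟨hB.sub hy'.1, hy'.2⟩, ?_⟩
    ext v
    rw [mem_insert, mem_erase]
    constructor
    · intro hv
      by_cases hvA : v ∈ A
      · exact Or.inr ⟨by rintro rfl; exact hx'.2 hv, hvA⟩
      · have : v ∈ B \ A := mem_sdiff.mpr ⟨hv, hvA⟩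
        rw [hy, mem_singleton] at this
        exact Or.inl this
    · rintro (rfl | ⟨h1, h2⟩)
      · exact hy'.1
      · by_contra hvB
        have : v ∈ A \ B := mem_sdiff.mpr ⟨h2, hvB⟩
        rw [hx, mem_singleton] at this
        exact h1 this

theorem conn_symm {A B : Finset α} (h : Relation.ReflTransGen (Step n U b) A B) :
    Relation.ReflTransGen (Step n U b) B A := by
  induction h with
  | refl => exact Relation.ReflTransGen.refl
  | tail _ hs ih => exact (Relation.ReflTransGen.single hs.symm).trans ih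

theorem sub_aux1 (Q : Finset α) (q a x1 x2 : α) :
    insert x1 (insert x2 Q) \ insert a (insert x1 (insert x2 (Q.erase q))) ⊆ {q} := by
  intro v
  simp only [mem_sdiff, mem_insert, mem_erase, mem_singleton]
  tauto

theorem sub_aux2 (Q : Finset α) (q c y1 y2 : α) :
    insert c (insert y1 (insert y2 (Q.erase q))) \ insert y1 (insert y2 Q) ⊆ {c} := by
  intro v
  simp only [mem_sdiff, mem_insert, mem_erase, mem_singleton]
  tauto

theorem sub_aux3 (E : Finset α) (a x1 x2 y1 y2 : α) (ha : a = y1 ∨ a = y2) :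
    insert a (insert x1 (insert x2 E)) \ insert x1 (insert y1 (insert y2 E)) ⊆ {x2} := by
  intro v
  simp only [mem_sdiff, mem_insert, mem_singleton]
  rcases ha with rfl | rfl <;> tauto

theorem sub_aux4 (E : Finset α) (a x1 x2 y1 y2 : α) (ha : a = y1 ∨ a = y2) :
    insert a (insert x1 (insert x2 E)) \ insert x2 (insert y1 (insert y2 E)) ⊆ {x1} := by
  intro v
  simp only [mem_sdiff, mem_insert, mem_singleton]
  rcases ha with rfl | rfl <;> tauto

theorem perm_aux1 {P1 P2 P3 P4 P5 P6 R : Prop} (h : R ↔ (P1 ∨ P2 ∨ P3 ∨ P4 ∨ P5 ∨ P6)) :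
    R ↔ (P4 ∨ P1 ∨ P2 ∨ P3 ∨ P5 ∨ P6) := by rw [h]; tauto
theorem perm_aux2 {P1 P2 P3 P4 P5 P6 R : Prop} (h : R ↔ (P1 ∨ P2 ∨ P3 ∨ P4 ∨ P5 ∨ P6)) :
    R ↔ (P3 ∨ P1 ∨ P2 ∨ P4 ∨ P5 ∨ P6) := by rw [h]; tauto
theorem perm_aux3 {P1 P2 P3 P4 P5 P6 R : Prop} (h : R ↔ (P1 ∨ P2 ∨ P3 ∨ P4 ∨ P5 ∨ P6)) :
    R ↔ (P1 ∨ P3 ∨ P4 ∨ P2 ∨ P5 ∨ P6) := by rw [h]; tauto
theorem perm_aux4 {P1 P2 P3 P4 P5 P6 R : Prop} (h : R ↔ (P1 ∨ P2 ∨ P3 ∨ P4 ∨ P5 ∨ P6)) :
    R ↔ (P2 ∨ P3 ∨ P4 ∨ P1 ∨ P5 ∨ P6) := by rw [h]; tauto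

theorem conn_compl (hU : U.card = 2 * n) {A B : Finset α}
    (h : Relation.ReflTransGen (Step n U b) A B) :
    Relation.ReflTransGen (Step n U b) (U \ A) (U \ B) := by
  induction h with
  | refl => exact Relation.ReflTransGen.refl
  | tail _ hs ih =>
    refine ih.tail ?_
    obtain ⟨hA, hB, x, hx, y, hy, rfl⟩ := hs
    refine ⟨hA.compl hU, hB.compl hU, y, hy, x, ?_, sdiff_swap hA.sub hx hy⟩
    rw [Finset.sdiff_sdiff_eq_self hA.sub]; exact hx

/-- path of length three through an element `q` of the intersection. -/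
theorem path_q (h : PF n U b) {Q S : Finset α} {x1 x2 y1 y2 q : α}
    (hX : Good n U b (insert x1 (insert x2 Q))) (hY : Good n U b (insert y1 (insert y2 Q)))
    (hXc : U \ insert x1 (insert x2 Q) = insert y1 (insert y2 S))
    (hYc : U \ insert y1 (insert y2 Q) = insert x1 (insert x2 S))
    (hx12 : x1 ≠ x2) (hy12 : y1 ≠ y2) (hx1Q : x1 ∉ Q) (hx2Q : x2 ∉ Q) (hy1Q : y1 ∉ Q)
    (hy2Q : y2 ∉ Q) (hx1S : x1 ∉ S) (hx2S : x2 ∉ S) (hy1S : y1 ∉ S) (hy2S : y2 ∉ S)
    (hxy11 : x1 ≠ y1) (hxy12 : x1 ≠ y2) (hxy21 : x2 ≠ y1) (hxy22 : x2 ≠ y2)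
    (hF : ¬ b (insert x2 (insert y1 Q)))
    (hq : q ∈ Q) (hqS : q ∉ S)
    (c1 : b (insert x1 (insert q S))) (c2 : b (insert x2 (insert q S)))
    (c3 : b (insert y1 (insert q S))) (c4 : b (insert y2 (insert q S))) :
    Relation.ReflTransGen (Step n U b) (insert x1 (insert x2 Q)) (insert y1 (insert y2 Q)) := by
  have hqx1 : q ≠ x1 := by rintro rfl; exact hx1Q hq
  have hqx2 : q ≠ x2 := by rintro rfl; exact hx2Q hq
  have hqy1 : q ≠ y1 := by rintro rfl; exact hy1Q hq
  have hqy2 : q ≠ y2 := by rintro rfl; exact hy2Q hq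
  have hXcard : Q.card + 2 = n := by
    have := hX.card
    rw [card_insert_of_notMem, card_insert_of_notMem hx2Q] at this
    · exact this
    · rw [mem_insert, not_or]; exact ⟨hx12, hx1Q⟩
  have hn : 1 ≤ n := by omega
  have hQc : (Q.erase q).card + 1 = Q.card := by
    rw [card_erase_of_mem hq]; have := card_pos.mpr ⟨q, hq⟩; omega
  have hQU : Q ⊆ U := fun v hv => hX.sub (mem_insert_of_mem (mem_insert_of_mem hv))
  have hx1U : x1 ∈ U := hX.sub (by simp)
  have hx2U : x2 ∈ U := hX.sub (by simp)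
  have hy1U : y1 ∈ U := hY.sub (by simp)
  have hy2U : y2 ∈ U := hY.sub (by simp)
  have memU : ∀ v, v ∈ U ↔ (v = x1 ∨ v = x2 ∨ v = y1 ∨ v = y2 ∨ v ∈ Q ∨ v ∈ S) := by
    intro v
    constructor
    · intro hv
      by_cases hvX : v ∈ insert x1 (insert x2 Q)
      · rw [mem_insert, mem_insert] at hvX
        rcases hvX with hv1 | hv1 | hv1
        · exact Or.inl hv1
        · exact Or.inr (Or.inl hv1)
        · exact Or.inr (Or.inr (Or.inr (Or.inr (Or.inl hv1))))
      · have : v ∈ insert y1 (insert y2 S) := by rw [← hXc]; exact mem_sdiff.mpr ⟨hv, hvX⟩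
        rw [mem_insert, mem_insert] at this
        rcases this with hv1 | hv1 | hv1
        · exact Or.inr (Or.inr (Or.inl hv1))
        · exact Or.inr (Or.inr (Or.inr (Or.inl hv1)))
        · exact Or.inr (Or.inr (Or.inr (Or.inr (Or.inr hv1))))
    · rintro (rfl | rfl | rfl | rfl | h | h)
      · exact hx1U
      · exact hx2U
      · exact hy1U
      · exact hy2U
      · exact hQU h
      · have : v ∈ U \ insert x1 (insert x2 Q) := by
          rw [hXc]; exact mem_insert_of_mem (mem_insert_of_mem h)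
        exact (mem_sdiff.mp this).1
  have hQS : ∀ v ∈ Q, v ∉ S := by
    intro v hv hvS
    have : v ∈ U \ insert x1 (insert x2 Q) := by
      rw [hXc]; exact mem_insert_of_mem (mem_insert_of_mem hvS)
    exact (mem_sdiff.mp this).2 (mem_insert_of_mem (mem_insert_of_mem hv))
  -- the hyperplane through Q + x2 + y1
  have hQ2c : ∀ a c : α, a ≠ c → a ∉ Q → c ∉ Q → (insert a (insert c Q)).card = n := by
    intro a c hac ha hc
    rw [card_insert_of_notMem, card_insert_of_notMem hc]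
    · exact hXcard
    · rw [mem_insert, not_or]; exact ⟨hac, ha⟩
  have hE2c : ∀ a c : α, a ≠ c → a ∉ Q → c ∉ Q →
      (insert a (insert c (Q.erase q))).card + 1 = n := by
    intro a c hac ha hc
    rw [card_insert_of_notMem, card_insert_of_notMem (fun h => hc (mem_of_mem_erase h))]
    · omega
    · rw [mem_insert]
      rintro (h | h)
      · exact hac h
      · exact ha (mem_of_mem_erase h)
  have hE3c : ∀ a c d : α, a ≠ c → a ≠ d → c ≠ d → a ∉ Q → c ∉ Q → d ∉ Q →
      (insert a (insert c (insert d (Q.erase q)))).card = n := by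
    intro a c d hac had hcd ha hc hd
    rw [card_insert_of_notMem, hE2c c d hcd hc hd]
    rw [mem_insert, mem_insert]
    rintro (h | h | h)
    · exact hac h
    · exact had h
    · exact ha (mem_of_mem_erase h)
  obtain ⟨Hc, hHc, hHcs⟩ := h.exists_fl_of_not hn
    (S := insert x2 (insert y1 Q)) (insert_subset hx2U (insert_subset hy1U hQU))
    (hQ2c x2 y1 hxy21 hx2Q hy1Q) hF
  -- a pair of nonbases containing E + two elements
  have key : ∀ K : Finset α, Fl n U b K → insert x2 (insert y1 (Q.erase q)) ⊆ K → K = Hc := by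
    intro K hK hKs
    refine hK.eq_of_sub hHc hn hKs ?_ (by rw [hE2c x2 y1 hxy21 hx2Q hy1Q])
    refine Subset.trans ?_ hHcs
    exact insert_subset_insert _ (insert_subset_insert _ (erase_subset _ _))
  have sub3 : ∀ a c d : α, a ∈ U → c ∈ U → d ∈ U → insert a (insert c (insert d (Q.erase q))) ⊆ U :=
    fun a c d ha hc hd => insert_subset ha (insert_subset hc (insert_subset hd
      ((erase_subset _ _).trans hQU)))
  have two : ∀ a c d e : α, a ∈ U → c ∈ U → d ∈ U → e ∈ U → a ≠ d → a ≠ e → c ≠ d → c ≠ e →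
      d ≠ e → a ≠ c →
      a ∉ Q → c ∉ Q → d ∉ Q → e ∉ Q →
      ¬ b (insert a (insert d (insert e (Q.erase q)))) →
      ¬ b (insert c (insert d (insert e (Q.erase q)))) →
      ∃ K, Fl n U b K ∧ a ∈ K ∧ c ∈ K ∧ d ∈ K ∧ e ∈ K ∧ Q.erase q ⊆ K := by
    intro a c d e ha hc hd he h1 h2 h3 h4 h5 h6 k1 k2 k3 k4 hb1 hb2
    obtain ⟨K, hK, hKs⟩ := h.exists_fl_of_not hn (sub3 a d e ha hd he)
      (hE3c a d e h1 h2 h5 k1 k3 k4) hb1
    obtain ⟨K', hK', hKs'⟩ := h.exists_fl_of_not hn (sub3 c d e hc hd he)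
      (hE3c c d e h3 h4 h5 k2 k3 k4) hb2
    have heq := hK.eq_of_sub hK' hn (K := insert d (insert e (Q.erase q)))
      ((subset_insert _ _).trans hKs) ((subset_insert _ _).trans hKs')
      (by rw [hE2c d e h5 k3 k4])
    refine ⟨K, hK, hKs (by simp), ?_, hKs (by simp), hKs (by simp), ?_⟩
    · rw [heq]; exact hKs' (by simp)
    · intro v hv
      exact hKs (mem_insert_of_mem (mem_insert_of_mem (mem_insert_of_mem hv)))
  -- one of the two sets containing x1, x2 is a basis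
  have hA : b (insert y2 (insert x1 (insert x2 (Q.erase q)))) ∨
      b (insert y1 (insert x1 (insert x2 (Q.erase q)))) := by
    by_contra hcc
    push Not at hcc
    obtain ⟨K, hK, m1, m2, m3, m4, m5⟩ := two y2 y1 x1 x2 hy2U hy1U hx1U hx2U (Ne.symm hxy12)
      (Ne.symm hxy22) (Ne.symm hxy11) (Ne.symm hxy21) hx12 (Ne.symm hy12) hy2Q hy1Q hx1Q hx2Q
      hcc.1 hcc.2
    have := key K hK (insert_subset m4 (insert_subset m2 m5))
    subst this
    refine hK.dep _ ?_ hX.card hX.base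
    refine insert_subset m3 (insert_subset m4 ?_)
    exact ((subset_insert _ _).trans (subset_insert _ _)).trans hHcs
  have hB : b (insert x1 (insert y1 (insert y2 (Q.erase q)))) ∨
      b (insert x2 (insert y1 (insert y2 (Q.erase q)))) := by
    by_contra hcc
    push Not at hcc
    obtain ⟨K, hK, m1, m2, m3, m4, m5⟩ := two x1 x2 y1 y2 hx1U hx2U hy1U hy2U hxy11
      hxy12 hxy21 hxy22 hy12 hx12 hx1Q hx2Q hy1Q hy2Q hcc.1 hcc.2
    have := key K hK (insert_subset m2 (insert_subset m3 m5))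
    subst this
    refine hK.dep _ ?_ hY.card hY.base
    refine insert_subset m3 (insert_subset m4 ?_)
    exact ((subset_insert _ _).trans (subset_insert _ _)).trans hHcs
  -- complements
  have cmpl : ∀ a c d e : α, (∀ v, v ∈ U ↔ (v = a ∨ v = c ∨ v = d ∨ v = e ∨ v ∈ Q ∨ v ∈ S)) →
      e ≠ a → e ≠ c → e ≠ d → e ∉ Q → a ∉ S → c ∉ S → d ∉ S → a ≠ q → c ≠ q → d ≠ q →
      U \ insert a (insert c (insert d (Q.erase q))) = insert e (insert q S) := by
    intro a c d e hmem h1 h2 h3 h4 k1 k2 k3 j1 j2 j3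
    ext v
    rw [mem_sdiff, mem_insert, mem_insert, mem_insert, mem_erase, mem_insert, mem_insert, hmem v]
    constructor
    · rintro ⟨m1, m2⟩
      push Not at m2
      obtain ⟨m2, m3, m4, m5⟩ := m2
      rcases m1 with m1 | m1 | m1 | m1 | m1 | m1
      · exact absurd m1 m2
      · exact absurd m1 m3
      · exact absurd m1 m4
      · exact Or.inl m1
      · by_cases hvq : v = q
        · exact Or.inr (Or.inl hvq)
        · exact absurd m1 (m5 hvq)
      · exact Or.inr (Or.inr m1)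
    · rintro (rfl | rfl | m1)
      · refine ⟨Or.inr (Or.inr (Or.inr (Or.inl rfl))), ?_⟩
        rintro (h | h | h | h)
        · exact h1 h
        · exact h2 h
        · exact h3 h
        · exact h4 h.2
      · refine ⟨Or.inr (Or.inr (Or.inr (Or.inr (Or.inl hq)))), ?_⟩
        rintro (h | h | h | h)
        · exact j1 h.symm
        · exact j2 h.symm
        · exact j3 h.symm
        · exact h.1 rfl
      · refine ⟨Or.inr (Or.inr (Or.inr (Or.inr (Or.inr m1)))), ?_⟩
        rintro (h | h | h | h)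
        · exact k1 (h ▸ m1)
        · exact k2 (h ▸ m1)
        · exact k3 (h ▸ m1)
        · exact hQS v h.2 m1
  have gZy1 : b (insert y2 (insert x1 (insert x2 (Q.erase q)))) →
      Good n U b (insert y2 (insert x1 (insert x2 (Q.erase q)))) := by
    intro hb
    refine ⟨sub3 _ _ _ hy2U hx1U hx2U, hE3c _ _ _ (Ne.symm hxy12) (Ne.symm hxy22) hx12 hy2Q
      hx1Q hx2Q, hb, ?_⟩
    rw [cmpl y2 x1 x2 y1 (fun v => perm_aux1 (memU v)) hy12 (Ne.symm hxy11) (Ne.symm hxy21)
      hy1Q hy2S hx1S hx2S (Ne.symm hqy2) (Ne.symm hqx1) (Ne.symm hqx2)]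
    exact c3
  have gZy2 : b (insert y1 (insert x1 (insert x2 (Q.erase q)))) →
      Good n U b (insert y1 (insert x1 (insert x2 (Q.erase q)))) := by
    intro hb
    refine ⟨sub3 _ _ _ hy1U hx1U hx2U, hE3c _ _ _ (Ne.symm hxy11) (Ne.symm hxy21) hx12 hy1Q
      hx1Q hx2Q, hb, ?_⟩
    rw [cmpl y1 x1 x2 y2 (fun v => perm_aux2 (memU v)) (Ne.symm hy12) (Ne.symm hxy12)
      (Ne.symm hxy22) hy2Q hy1S hx1S hx2S (Ne.symm hqy1) (Ne.symm hqx1) (Ne.symm hqx2)]
    exact c4
  have gZx2 : b (insert x1 (insert y1 (insert y2 (Q.erase q)))) →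
      Good n U b (insert x1 (insert y1 (insert y2 (Q.erase q)))) := by
    intro hb
    refine ⟨sub3 _ _ _ hx1U hy1U hy2U, hE3c _ _ _ hxy11 hxy12 hy12 hx1Q
      hy1Q hy2Q, hb, ?_⟩
    rw [cmpl x1 y1 y2 x2 (fun v => perm_aux3 (memU v)) (Ne.symm hx12) hxy21 hxy22
      hx2Q hx1S hy1S hy2S (Ne.symm hqx1) (Ne.symm hqy1) (Ne.symm hqy2)]
    exact c2
  have gZx1 : b (insert x2 (insert y1 (insert y2 (Q.erase q)))) →
      Good n U b (insert x2 (insert y1 (insert y2 (Q.erase q)))) := by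
    intro hb
    refine ⟨sub3 _ _ _ hx2U hy1U hy2U, hE3c _ _ _ hxy21 hxy22 hy12 hx2Q
      hy1Q hy2Q, hb, ?_⟩
    rw [cmpl x2 y1 y2 x1 (fun v => perm_aux4 (memU v)) hx12 hxy11 hxy12
      hx1Q hx2S hy1S hy2S (Ne.symm hqx2) (Ne.symm hqy1) (Ne.symm hqy2)]
    exact c1
  have le1 : ∀ (A B : Finset α) (z : α), A \ B ⊆ {z} → (A \ B).card ≤ 1 := by
    intro A B z hs
    have := card_le_card hs
    rwa [card_singleton] at this
  have fin : ∀ a c : α, (a = y1 ∨ a = y2) → (c = x1 ∨ c = x2) →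
      Good n U b (insert a (insert x1 (insert x2 (Q.erase q)))) →
      Good n U b (insert c (insert y1 (insert y2 (Q.erase q)))) →
      Relation.ReflTransGen (Step n U b) (insert x1 (insert x2 Q)) (insert y1 (insert y2 Q)) := by
    intro a c ha hc g1 g2
    refine (step_of_card hX g1 (le1 _ _ q (sub_aux1 _ _ _ _ _))).trans
      ((step_of_card g1 g2 ?_).trans (step_of_card g2 hY (le1 _ _ c (sub_aux2 _ _ _ _ _))))
    rcases hc with rfl | rfl
    · exact le1 _ _ x2 (sub_aux3 _ _ _ _ _ _ ha)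
    · exact le1 _ _ x1 (sub_aux4 _ _ _ _ _ _ ha)
  rcases hA with hA | hA <;> rcases hB with hB | hB
  · exact fin y2 x1 (Or.inr rfl) (Or.inl rfl) (gZy1 hA) (gZx2 hB)
  · exact fin y2 x2 (Or.inr rfl) (Or.inr rfl) (gZy1 hA) (gZx1 hB)
  · exact fin y1 x1 (Or.inl rfl) (Or.inl rfl) (gZy2 hA) (gZx2 hB)
  · exact fin y1 x2 (Or.inl rfl) (Or.inr rfl) (gZy2 hA) (gZx1 hB)

end Pool.Agent.H94
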