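import Pool.Agent.H94.Conn

set_option autoImplicit false

namespace Pool.Agent.H94

open Finset

variable {α : Type*} [DecidableEq α]
variable {n : ℕ} {U : Finset α} {b : Finset α → Prop}

theorem two_case (h : PF n U b) {Q S : Finset α} {x1 x2 y1 y2 : α}
    (hX : Good n U b (insert x1 (insert x2 Q))) (hY : Good n U b (insert y1 (insert y2 Q)))
    (hXc : U \ insert x1 (insert x2 Q) = insert y1 (insert y2 S))
    (hYc : U \ insert y1 (insert y2 Q) = insert x1 (insert x2 S))
    (hx12 : x1 ≠ x2) (hy12 : y1 ≠ y2) (hx1Q : x1 ∉ Q) (hx2Q : x2 ∉ Q) (hy1Q : y1 ∉ Q)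
    (hy2Q : y2 ∉ Q) (hx1S : x1 ∉ S) (hx2S : x2 ∉ S) (hy1S : y1 ∉ S) (hy2S : y2 ∉ S)
    (hxy11 : x1 ≠ y1) (hxy12 : x1 ≠ y2) (hxy21 : x2 ≠ y1) (hxy22 : x2 ≠ y2)
    (hF1 : ¬ b (insert x2 (insert y1 Q))) (hF2 : ¬ b (insert x1 (insert y2 Q)))
    (hG1 : ¬ b (insert x1 (insert y1 S))) (hG2 : ¬ b (insert x2 (insert y2 S))) :
    Relation.ReflTransGen (Step n U b) (insert x1 (insert x2 Q)) (insert y1 (insert y2 Q)) := by
  have hXcard : Q.card + 2 = n := by
    have := hX.card
    rw [card_insert_of_notMem, card_insert_of_notMem hx2Q] at this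
    · exact this
    · rw [mem_insert, not_or]; exact ⟨hx12, hx1Q⟩
  have hXcg := hX.compl h.card
  have hYcg := hY.compl h.card
  have hScard : S.card + 2 = n := by
    have := hXcg.card
    rw [hXc, card_insert_of_notMem, card_insert_of_notMem hy2S] at this
    · exact this
    · rw [mem_insert, not_or]; exact ⟨hy12, hy1S⟩
  have hn : 1 ≤ n := by omega
  have hQU : Q ⊆ U := fun v hv => hX.sub (mem_insert_of_mem (mem_insert_of_mem hv))
  have hSU : S ⊆ U := by
    intro v hv
    have : v ∈ U \ insert x1 (insert x2 Q) := by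
      rw [hXc]; exact mem_insert_of_mem (mem_insert_of_mem hv)
    exact (mem_sdiff.mp this).1
  have hx1U : x1 ∈ U := hX.sub (by simp)
  have hx2U : x2 ∈ U := hX.sub (by simp)
  have hy1U : y1 ∈ U := hY.sub (by simp)
  have hy2U : y2 ∈ U := hY.sub (by simp)
  have hQS : ∀ v ∈ Q, v ∉ S := by
    intro v hv hvS
    have : v ∈ U \ insert x1 (insert x2 Q) := by
      rw [hXc]; exact mem_insert_of_mem (mem_insert_of_mem hvS)
    exact (mem_sdiff.mp this).2 (mem_insert_of_mem (mem_insert_of_mem hv))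
  have hdQS : Disjoint Q S := by
    rw [disjoint_left]; exact hQS
  have cardQ : ∀ a c : α, a ≠ c → a ∉ Q → c ∉ Q → (insert a (insert c Q)).card = n := by
    intro a c hac ha hc
    rw [card_insert_of_notMem, card_insert_of_notMem hc]
    · exact hXcard
    · rw [mem_insert, not_or]; exact ⟨hac, ha⟩
  have cardS : ∀ a c : α, a ≠ c → a ∉ S → c ∉ S → (insert a (insert c S)).card = n := by
    intro a c hac ha hc
    rw [card_insert_of_notMem, card_insert_of_notMem hc]
    · exact hScard
    · rw [mem_insert, not_or]; exact ⟨hac, ha⟩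
  obtain ⟨Hc, hHc, sc⟩ := h.exists_fl_of_not hn
    (insert_subset hx2U (insert_subset hy1U hQU)) (cardQ x2 y1 hxy21 hx2Q hy1Q) hF1
  obtain ⟨Hd, hHd, sd⟩ := h.exists_fl_of_not hn
    (insert_subset hx1U (insert_subset hy2U hQU)) (cardQ x1 y2 hxy12 hx1Q hy2Q) hF2
  obtain ⟨Ha, hHa, sa⟩ := h.exists_fl_of_not hn
    (insert_subset hx1U (insert_subset hy1U hSU)) (cardS x1 y1 hxy11 hx1S hy1S) hG1
  obtain ⟨Hb, hHb, sb⟩ := h.exists_fl_of_not hn
    (insert_subset hx2U (insert_subset hy2U hSU)) (cardS x2 y2 hxy22 hx2S hy2S) hG2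
  have hQc : Q ⊆ Hc := ((subset_insert _ _).trans (subset_insert _ _)).trans sc
  have hQd : Q ⊆ Hd := ((subset_insert _ _).trans (subset_insert _ _)).trans sd
  have hSa : S ⊆ Ha := ((subset_insert _ _).trans (subset_insert _ _)).trans sa
  have hSb : S ⊆ Hb := ((subset_insert _ _).trans (subset_insert _ _)).trans sb
  have x2c : x2 ∈ Hc := sc (by simp)
  have y1c : y1 ∈ Hc := sc (by simp)
  have x1d : x1 ∈ Hd := sd (by simp)
  have y2d : y2 ∈ Hd := sd (by simp)
  have x1a : x1 ∈ Ha := sa (by simp)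
  have y1a : y1 ∈ Ha := sa (by simp)
  have x2b : x2 ∈ Hb := sb (by simp)
  have y2b : y2 ∈ Hb := sb (by simp)
  have big : ∀ (K : Finset α) (a c d : α), Fl n U b K → Q ⊆ K → S ⊆ K → a ∈ K → c ∈ K → d ∈ K →
      a ≠ c → a ≠ d → c ≠ d → a ∉ Q → c ∉ Q → d ∉ Q → a ∉ S → c ∉ S → d ∉ S → False := by
    intro K a c d hK hQ hS ma mc md n1 n2 n3 q1 q2 q3 s1 s2 s3
    have hsub : insert a (insert c (insert d (Q ∪ S))) ⊆ K :=
      insert_subset ma (insert_subset mc (insert_subset md (union_subset hQ hS)))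
    have hc := card_le_card hsub
    rw [card_insert_of_notMem, card_insert_of_notMem, card_insert_of_notMem,
      card_union_of_disjoint hdQS] at hc
    · have := hK.card_le h.card hX
      omega
    · rw [mem_union, not_or]; exact ⟨q3, s3⟩
    · rw [mem_insert, mem_union, not_or, not_or]; exact ⟨n3, q2, s2⟩
    · rw [mem_insert, mem_insert, mem_union, not_or, not_or, not_or]; exact ⟨n1, n2, q1, s1⟩
  have nac : Ha ≠ Hc := by
    intro he
    exact big Ha x1 x2 y1 hHa (he ▸ hQc) hSa x1a (he ▸ x2c) y1a hx12 hxy11 hxy21 hx1Q hx2Q hy1Q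
      hx1S hx2S hy1S
  have nbd : Hb ≠ Hd := by
    intro he
    exact big Hb x1 x2 y2 hHb (he ▸ hQd) hSb (he ▸ x1d) x2b y2b hx12 hxy12 hxy22 hx1Q hx2Q hy2Q
      hx1S hx2S hy2S
  have cap : ∀ (K L : Finset α) (z : α), Fl n U b K → Fl n U b L → K ≠ L → Q ⊆ L → S ⊆ K →
      z ∈ K → z ∈ L → z ∉ Q → z ∉ S → (Q ∩ K).card + (S ∩ L).card + 3 ≤ n := by
    intro K L z hK hL hne hQL hSK zK zL zQ zS
    have h1 : (K ∩ L).card + 2 ≤ n := by
      by_contra hcc
      exact hne (hK.eq_of_inter hL hn (by omega))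
    have hsub : insert z ((Q ∩ K) ∪ (S ∩ L)) ⊆ K ∩ L := by
      refine insert_subset (mem_inter.mpr ⟨zK, zL⟩) (union_subset ?_ ?_)
      · intro v hv; rw [mem_inter] at hv ⊢; exact ⟨hv.2, hQL hv.1⟩
      · intro v hv; rw [mem_inter] at hv ⊢; exact ⟨hSK hv.1, hv.2⟩
    have hc := card_le_card hsub
    rw [card_insert_of_notMem, card_union_of_disjoint] at hc
    · omega
    · exact disjoint_of_subset_left inter_subset_left
        (disjoint_of_subset_right inter_subset_left hdQS)
    · rw [mem_union, mem_inter, mem_inter, not_or]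
      exact ⟨fun hh => zQ hh.1, fun hh => zS hh.1⟩
  have k1 := cap Ha Hc y1 hHa hHc nac hQc hSa y1a y1c hy1Q hy1S
  have k2 := cap Hb Hd y2 hHb hHd nbd hQd hSb y2b y2d hy2Q hy2S
  by_cases hq : ∃ q ∈ Q, q ∉ Ha ∧ q ∉ Hb
  · obtain ⟨q, hqQ, hqa, hqb⟩ := hq
    have hqS := hQS q hqQ
    have oo : ∀ (K : Finset α) (z : α), Fl n U b K → S ⊆ K → z ∈ K → z ∉ S → q ∉ K →
        b (insert z (insert q S)) := by
      intro K z hK hSK zK zS qK
      have := hK.out (insert z S) (insert_subset zK hSK)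
        (by rw [card_insert_of_notMem zS]; omega) q (hQU hqQ) qK
      rwa [Finset.insert_comm] at this
    exact path_q h hX hY hXc hYc hx12 hy12 hx1Q hx2Q hy1Q hy2Q hx1S hx2S hy1S hy2S hxy11 hxy12
      hxy21 hxy22 hF1 hqQ hqS (oo Ha x1 hHa hSa x1a hx1S hqa) (oo Hb x2 hHb hSb x2b hx2S hqb)
      (oo Ha y1 hHa hSa y1a hy1S hqa) (oo Hb y2 hHb hSb y2b hy2S hqb)
  · by_cases hs : ∃ s ∈ S, s ∉ Hc ∧ s ∉ Hd
    · obtain ⟨s, hsS, hsc, hsd⟩ := hs
      have hsQ : s ∉ Q := fun hh => hQS s hh hsS
      have oo : ∀ (K : Finset α) (z : α), Fl n U b K → Q ⊆ K → z ∈ K → z ∉ Q → s ∉ K →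
          b (insert z (insert s Q)) := by
        intro K z hK hSK zK zS qK
        have := hK.out (insert z Q) (insert_subset zK hSK)
          (by rw [card_insert_of_notMem zS]; omega) s (hSU hsS) qK
        rwa [Finset.insert_comm] at this
      have e1 : insert x2 (insert x1 S) = U \ insert y1 (insert y2 Q) := by
        rw [hYc, Finset.insert_comm]
      have e2 : insert y1 (insert y2 S) = U \ insert x1 (insert x2 Q) := hXc.symm
      have hp := path_q h (Q := S) (S := Q) (x1 := x2) (x2 := x1) (y1 := y1) (y2 := y2) (q := s)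
        (by rw [e1]; exact hYcg) (by rw [e2]; exact hXcg)
        (by rw [e1, Finset.sdiff_sdiff_eq_self hY.sub])
        (by rw [e2, Finset.sdiff_sdiff_eq_self hX.sub, Finset.insert_comm])
        (Ne.symm hx12) hy12 hx2S hx1S hy1S hy2S hx2Q hx1Q hy1Q hy2Q hxy21 hxy22 hxy11 hxy12
        hG1 hsS hsQ (oo Hc x2 hHc hQc x2c hx2Q hsc) (oo Hd x1 hHd hQd x1d hx1Q hsd)
        (oo Hc y1 hHc hQc y1c hy1Q hsc) (oo Hd y2 hHd hQd y2d hy2Q hsd)
      rw [e1, e2] at hp
      have hp' := conn_compl h.card hp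
      rw [Finset.sdiff_sdiff_eq_self hY.sub, Finset.sdiff_sdiff_eq_self hX.sub] at hp'
      exact conn_symm hp'
    · exfalso
      push Not at hq hs
      have c1 : Q.card ≤ (Q ∩ Ha).card + (Q ∩ Hb).card := by
        have hsub : Q ⊆ (Q ∩ Ha) ∪ (Q ∩ Hb) := by
          intro v hv
          by_cases hva : v ∈ Ha
          · exact mem_union_left _ (mem_inter.mpr ⟨hv, hva⟩)
          · exact mem_union_right _ (mem_inter.mpr ⟨hv, hq v hv hva⟩)
        exact (card_le_card hsub).trans (card_union_le _ _)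
      have c2 : S.card ≤ (S ∩ Hc).card + (S ∩ Hd).card := by
        have hsub : S ⊆ (S ∩ Hc) ∪ (S ∩ Hd) := by
          intro v hv
          by_cases hva : v ∈ Hc
          · exact mem_union_left _ (mem_inter.mpr ⟨hv, hva⟩)
          · exact mem_union_right _ (mem_inter.mpr ⟨hv, hs v hv hva⟩)
        exact (card_le_card hsub).trans (card_union_le _ _)
      omega

theorem swap_conn_aux (h : PF n U b) : ∀ (m : ℕ) (X Y : Finset α), Good n U b X → Good n U b Y →
    (X \ Y).card = m → Relation.ReflTransGen (Step n U b) X Y := by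
  intro m
  induction m using Nat.strong_induction_on with
  | _ m ih =>
    intro X Y hX hY hm
    rcases Nat.lt_or_ge m 2 with h2 | h2
    · exact step_of_card hX hY (by omega)
    have hc : (Y \ X).card = m := by
      have h1 := card_inter_add_card_sdiff X Y
      have h2 := card_inter_add_card_sdiff Y X
      rw [hX.card] at h1
      rw [hY.card, inter_comm] at h2
      omega
    have hYX : Y \ X ⊆ U \ X := sdiff_subset_sdiff hY.sub (Subset.refl _)
    by_cases hex : ∃ x ∈ X \ Y, ∃ y ∈ Y \ X, Swap n U b X x y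
    · obtain ⟨x, hx, y, hy, hs⟩ := hex
      have hx' := mem_sdiff.mp hx
      have hy' := mem_sdiff.mp hy
      have hc' : (insert y (X.erase x) \ Y).card = m - 1 := by
        rw [insert_sdiff_of_mem _ hy'.1]
        have : X.erase x \ Y = (X \ Y).erase x := by
          ext w; simp only [mem_sdiff, mem_erase]; tauto
        rw [this, card_erase_of_mem hx, hm]
      refine Relation.ReflTransGen.head ⟨hX, hs, x, hx'.1, y, hYX hy, rfl⟩ ?_
      exact ih (m - 1) (by omega) _ _ hs hY hc'
    · have hm2 : m = 2 := by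
        by_contra hne
        obtain ⟨x, hx, y, hy, hs⟩ := h.rect hX (Q1 := X \ Y) (Q2 := Y \ X) sdiff_subset hYX
          (by omega) (by omega) (by omega)
        exact hex ⟨x, hx, y, hy, hs⟩
      subst hm2
      obtain ⟨x1, x2, hx12, hXY⟩ := card_eq_two.mp hm
      obtain ⟨y1, y2, hy12, hYXe⟩ := card_eq_two.mp hc
      have mx1 : x1 ∈ X \ Y := by rw [hXY]; simp
      have mx2 : x2 ∈ X \ Y := by rw [hXY]; simp
      have my1 : y1 ∈ Y \ X := by rw [hYXe]; simp
      have my2 : y2 ∈ Y \ X := by rw [hYXe]; simp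
      have ux1 := mem_sdiff.mp mx1
      have ux2 := mem_sdiff.mp mx2
      have uy1 := mem_sdiff.mp my1
      have uy2 := mem_sdiff.mp my2
      have memXY : ∀ v, (v ∈ X ∧ v ∉ Y) ↔ (v = x1 ∨ v = x2) := by
        intro v
        have : v ∈ X \ Y ↔ v ∈ ({x1, x2} : Finset α) := by rw [hXY]
        rw [mem_sdiff, mem_insert, mem_singleton] at this; exact this
      have memYX : ∀ v, (v ∈ Y ∧ v ∉ X) ↔ (v = y1 ∨ v = y2) := by
        intro v
        have : v ∈ Y \ X ↔ v ∈ ({y1, y2} : Finset α) := by rw [hYXe]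
        rw [mem_sdiff, mem_insert, mem_singleton] at this; exact this
      have eX : insert x1 (insert x2 (X ∩ Y)) = X := by
        ext v
        rw [mem_insert, mem_insert, mem_inter]
        have := memXY v
        by_cases h1 : v ∈ X
        · by_cases h2 : v ∈ Y
          · simp [h1, h2]
          · simp only [h1, h2, not_false_eq_true, and_self, true_iff] at this
            simp only [h1, h2, and_false, or_false, iff_true]; exact this
        · have h3 : v ≠ x1 := by rintro rfl; exact h1 ux1.1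
          have h4 : v ≠ x2 := by rintro rfl; exact h1 ux2.1
          simp [h1, h3, h4]
      have eY : insert y1 (insert y2 (X ∩ Y)) = Y := by
        ext v
        rw [mem_insert, mem_insert, mem_inter]
        have := memYX v
        by_cases h1 : v ∈ Y
        · by_cases h2 : v ∈ X
          · simp [h1, h2]
          · simp only [h1, h2, not_false_eq_true, and_self, true_iff] at this
            simp only [h1, h2, and_true, or_false, iff_true]; exact this
        · have h3 : v ≠ y1 := by rintro rfl; exact h1 uy1.1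
          have h4 : v ≠ y2 := by rintro rfl; exact h1 uy2.1
          simp [h1, h3, h4]
      set S := U \ (X ∪ Y) with hS
      have eXc : U \ X = insert y1 (insert y2 S) := by
        ext v
        rw [mem_insert, mem_insert, hS, mem_sdiff, mem_sdiff, mem_union, not_or]
        have := memYX v
        constructor
        · rintro ⟨h1, h2⟩
          by_cases h3 : v ∈ Y
          · rcases this.mp ⟨h3, h2⟩ with h4 | h4
            · exact Or.inl h4
            · exact Or.inr (Or.inl h4)
          · exact Or.inr (Or.inr ⟨h1, h2, h3⟩)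
        · rintro (rfl | rfl | h1)
          · exact ⟨hY.sub uy1.1, uy1.2⟩
          · exact ⟨hY.sub uy2.1, uy2.2⟩
          · exact ⟨h1.1, h1.2.1⟩
      have eYc : U \ Y = insert x1 (insert x2 S) := by
        ext v
        rw [mem_insert, mem_insert, hS, mem_sdiff, mem_sdiff, mem_union, not_or]
        have := memXY v
        constructor
        · rintro ⟨h1, h2⟩
          by_cases h3 : v ∈ X
          · rcases this.mp ⟨h3, h2⟩ with h4 | h4
            · exact Or.inl h4
            · exact Or.inr (Or.inl h4)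
          · exact Or.inr (Or.inr ⟨h1, h3, h2⟩)
        · rintro (rfl | rfl | h1)
          · exact ⟨hX.sub ux1.1, ux1.2⟩
          · exact ⟨hX.sub ux2.1, ux2.2⟩
          · exact ⟨h1.1, h1.2.2⟩
      have n11 : x1 ≠ y1 := by rintro rfl; exact ux1.2 uy1.1
      have n12 : x1 ≠ y2 := by rintro rfl; exact ux1.2 uy2.1
      have n21 : x2 ≠ y1 := by rintro rfl; exact ux2.2 uy1.1
      have n22 : x2 ≠ y2 := by rintro rfl; exact ux2.2 uy2.1
      have q1 : x1 ∉ X ∩ Y := fun hh => ux1.2 (mem_inter.mp hh).2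
      have q2 : x2 ∉ X ∩ Y := fun hh => ux2.2 (mem_inter.mp hh).2
      have q3 : y1 ∉ X ∩ Y := fun hh => uy1.2 (mem_inter.mp hh).1
      have q4 : y2 ∉ X ∩ Y := fun hh => uy2.2 (mem_inter.mp hh).1
      have s1 : x1 ∉ S := fun hh => (mem_sdiff.mp hh).2 (mem_union_left _ ux1.1)
      have s2 : x2 ∉ S := fun hh => (mem_sdiff.mp hh).2 (mem_union_left _ ux2.1)
      have s3 : y1 ∉ S := fun hh => (mem_sdiff.mp hh).2 (mem_union_right _ uy1.1)
      have s4 : y2 ∉ S := fun hh => (mem_sdiff.mp hh).2 (mem_union_right _ uy2.1)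
      have ex1 : X.erase x1 = insert x2 (X ∩ Y) := by
        conv_lhs => rw [← eX]
        rw [erase_insert]
        rw [mem_insert, not_or]; exact ⟨hx12, q1⟩
      have ex2 : X.erase x2 = insert x1 (X ∩ Y) := by
        conv_lhs => rw [← eX]
        rw [Finset.insert_comm, erase_insert]
        rw [mem_insert, not_or]; exact ⟨Ne.symm hx12, q2⟩
      have ey1 : (U \ X).erase y1 = insert y2 S := by
        rw [eXc, erase_insert]
        rw [mem_insert, not_or]; exact ⟨hy12, s3⟩
      have ey2 : (U \ X).erase y2 = insert y1 S := by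
        rw [eXc, Finset.insert_comm, erase_insert]
        rw [mem_insert, not_or]; exact ⟨Ne.symm hy12, s4⟩
      have bad : ∀ x ∈ X \ Y, ∀ y ∈ Y \ X, ¬ b (insert y (X.erase x)) ∨
          ¬ b (insert x ((U \ X).erase y)) := by
        intro x hx y hy
        by_contra hcc
        push Not at hcc
        exact hex ⟨x, hx, y, hy, (swap_iff hX (mem_sdiff.mp hx).1 (hYX hy)).mpr hcc⟩
      have b11 := bad x1 mx1 y1 my1
      have b12 := bad x1 mx1 y2 my2
      have b21 := bad x2 mx2 y1 my1
      have b22 := bad x2 mx2 y2 my2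
      have fu1 : ¬ (¬ b (insert y1 (X.erase x1)) ∧ ¬ b (insert y1 (X.erase x2))) := fun hh =>
        hx12 (h.F_unique' hX ux1.1 ux2.1 (hYX my1) hh.1 hh.2)
      have fu2 : ¬ (¬ b (insert y2 (X.erase x1)) ∧ ¬ b (insert y2 (X.erase x2))) := fun hh =>
        hx12 (h.F_unique' hX ux1.1 ux2.1 (hYX my2) hh.1 hh.2)
      have gu1 : ¬ (¬ b (insert x1 ((U \ X).erase y1)) ∧ ¬ b (insert x1 ((U \ X).erase y2))) :=
        fun hh => hy12 (h.G_unique hX ux1.1 (hYX my1) (hYX my2) hh.1 hh.2)
      have gu2 : ¬ (¬ b (insert x2 ((U \ X).erase y1)) ∧ ¬ b (insert x2 ((U \ X).erase y2))) :=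
        fun hh => hy12 (h.G_unique hX ux2.1 (hYX my1) (hYX my2) hh.1 hh.2)
      rw [ex1, ex2] at fu1 fu2
      rw [ey1, ey2] at gu1 gu2
      rw [ex1, ey1] at b11
      rw [ex1, ey2] at b12
      rw [ex2, ey1] at b21
      rw [ex2, ey2] at b22
      have hXg : Good n U b (insert x1 (insert x2 (X ∩ Y))) := by rw [eX]; exact hX
      have hYg : Good n U b (insert y1 (insert y2 (X ∩ Y))) := by rw [eY]; exact hY
      have split : (¬ b (insert y1 (insert x2 (X ∩ Y))) ∧ ¬ b (insert y2 (insert x1 (X ∩ Y))) ∧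
          ¬ b (insert x1 (insert y1 S)) ∧ ¬ b (insert x2 (insert y2 S))) ∨
          (¬ b (insert y2 (insert x2 (X ∩ Y))) ∧ ¬ b (insert y1 (insert x1 (X ∩ Y))) ∧
          ¬ b (insert x1 (insert y2 S)) ∧ ¬ b (insert x2 (insert y1 S))) := by
        clear * - b11 b12 b21 b22 fu1 fu2 gu1 gu2
        tauto
      rcases split with ⟨t1, t2, t3, t4⟩ | ⟨t1, t2, t3, t4⟩
      · have := two_case h hXg hYg (by rw [eX]; exact eXc) (by rw [eY]; exact eYc) hx12 hy12 q1 q2
          q3 q4 s1 s2 s3 s4 n11 n12 n21 n22 (by rw [Finset.insert_comm]; exact t1)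
          (by rw [Finset.insert_comm]; exact t2) t3 t4
        rw [eX, eY] at this; exact this
      · have hYg' : Good n U b (insert y2 (insert y1 (X ∩ Y))) := by rw [Finset.insert_comm]; exact hYg
        have := two_case h hXg hYg' (by rw [eX, eXc, Finset.insert_comm])
          (by rw [Finset.insert_comm y2 y1, eY]; exact eYc) hx12 (Ne.symm hy12) q1 q2
          q4 q3 s1 s2 s4 s3 n12 n11 n22 n21 (by rw [Finset.insert_comm]; exact t1)
          (by rw [Finset.insert_comm]; exact t2) t3 t4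
        rw [eX, Finset.insert_comm y2 y1, eY] at this; exact this

/-- Any two good sets are connected by single exchanges through good sets. -/
theorem swap_conn (h : PF n U b) {X Y : Finset α} (hX : Good n U b X) (hY : Good n U b Y) :
    Relation.ReflTransGen (Step n U b) X Y :=
  swap_conn_aux h _ X Y hX hY rfl

end Pool.Agent.H94
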