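import Pool.Agent.H94.Pav

set_option autoImplicit false

namespace Pool.Agent.H94

open Finset

variable {α : Type*} [DecidableEq α]
variable {n : ℕ} {U : Finset α} {b b1 b2 : Finset α → Prop}

/-- every pair of distinct elements is separated by a good set -/
theorem PF.exists_sep (h : PF n U b) {y1 y2 : α} (h1 : y1 ∈ U) (hne : y1 ≠ y2)
    (h2 : y2 ∈ U) : ∃ X, Good n U b X ∧ y1 ∈ X ∧ y2 ∉ X := by
  obtain ⟨X0, hX0⟩ := h.exists_good
  -- choose the side containing y2
  have : ∃ X, Good n U b X ∧ y2 ∈ X := by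
    by_cases h3 : y2 ∈ X0
    · exact ⟨X0, hX0, h3⟩
    · exact ⟨U \ X0, hX0.compl h.card, mem_sdiff.mpr ⟨h2, h3⟩⟩
  obtain ⟨X, hX, hy2⟩ := this
  by_cases hy1 : y1 ∈ X
  · obtain ⟨z, hz, hs⟩ := h.symm_exch hX hy2
    refine ⟨_, hs, ?_, ?_⟩
    · exact mem_insert_of_mem (mem_erase.mpr ⟨hne, hy1⟩)
    · rw [mem_insert, mem_erase]
      rintro (h3 | h3)
      · exact (mem_sdiff.mp hz).2 (h3 ▸ hy2)
      · exact h3.1 rfl
  · exact ⟨U \ X, hX.compl h.card, mem_sdiff.mpr ⟨h1, hy1⟩, fun hc => (mem_sdiff.mp hc).2 hy2⟩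

/-- The case of a big hyperplane in the first structure. -/
theorem ctl_big (h1 : PF n U b1) (h2 : PF n U b2) {H : Finset α} (hH : Fl n U b1 H)
    (hc : 2 * n ≤ H.card + 2) : ∃ X, Good n U b1 X ∧ Good n U b2 X := by
  obtain ⟨X0, hX0⟩ := h1.exists_good
  have hle := hH.card_le h1.card hX0
  have hUH : (U \ H).card = 2 := by
    rw [card_sdiff_of_subset hH.sub, h1.card]; omega
  obtain ⟨y1, y2, hne, hUH⟩ := card_eq_two.mp hUH
  have hy1 : y1 ∈ U \ H := by rw [hUH]; simp
  have hy2 : y2 ∈ U \ H := by rw [hUH]; simp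
  rw [mem_sdiff] at hy1 hy2
  obtain ⟨X, hX, hx1, hx2⟩ := h2.exists_sep hy1.1 hne hy2.1
  refine ⟨X, ?_, hX⟩
  refine hH.big_good h1.card (y1 := y1) (y2 := y2) ?_ hX.sub hX.card hx1 hy1.2 hy2.1 hx2 hy2.2
  intro w hw hwH
  have : w ∈ U \ H := mem_sdiff.mpr ⟨hw, hwH⟩
  rw [hUH] at this
  simpa using this

/-- rank three, no four point lines: contradiction from covering by three matchings -/
theorem three_aux {Q1 Q2 : Finset α} (hQ1 : Q1.card = 3) (hQ2 : Q2.card = 3)
    (F G G' : α → α → Prop)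
    (hF : ∀ x ∈ Q1, ∀ x' ∈ Q1, ∀ y ∈ Q2, F x y → F x' y → x = x')
    (hF' : ∀ x ∈ Q1, ∀ y ∈ Q2, ∀ y' ∈ Q2, F x y → F x y' → y = y')
    (hG : ∀ x ∈ Q1, ∀ y ∈ Q2, ∀ y' ∈ Q2, G x y → G x y' → y = y')
    (hG' : ∀ x ∈ Q1, ∀ y ∈ Q2, ∀ y' ∈ Q2, G' x y → G' x y' → y = y')
    (hFG : ∀ x ∈ Q1, ∀ y ∈ Q2, ∀ x' ∈ Q1, ∀ y' ∈ Q2, F x y → G x' y' → x = x' ∨ y = y')
    (hcov : ∀ x ∈ Q1, ∀ y ∈ Q2, F x y ∨ G x y ∨ G' x y) : False := by
  classical
  set SF := (Q1 ×ˢ Q2).filter (fun p => F p.1 p.2) with hSF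
  set SG := (Q1 ×ˢ Q2).filter (fun p => G p.1 p.2) with hSG
  set SG' := (Q1 ×ˢ Q2).filter (fun p => G' p.1 p.2) with hSG'
  have h1 : SF.card ≤ Q2.card := card_le_of_fst F hF
  have h2 : SG.card ≤ Q1.card := card_le_of_snd G hG
  have h3 : SG'.card ≤ Q1.card := card_le_of_snd G' hG'
  have hsub : Q1 ×ˢ Q2 ⊆ SF ∪ (SG ∪ SG') := by
    intro p hp
    have hp' := mem_product.mp hp
    rcases hcov _ hp'.1 _ hp'.2 with h | h | h
    · exact mem_union_left _ (mem_filter.mpr ⟨hp, h⟩)
    · exact mem_union_right _ (mem_union_left _ (mem_filter.mpr ⟨hp, h⟩))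
    · exact mem_union_right _ (mem_union_right _ (mem_filter.mpr ⟨hp, h⟩))
  have h4 := card_le_card hsub
  rw [card_product] at h4
  have h5 := card_union_le SF (SG ∪ SG')
  have h6 := card_union_le SG SG'
  have h7 : 3 ≤ SF.card := by rw [hQ1, hQ2] at *; omega
  have h8 : 0 < SG.card := by rw [hQ1, hQ2] at *; omega
  obtain ⟨⟨x0, y0⟩, hp0⟩ := card_pos.mp h8
  have hp0' := mem_filter.mp hp0
  have hp0'' := mem_product.mp hp0'.1
  have hA : (SF.filter (fun p => p.1 = x0)).card ≤ 1 := by
    rw [card_le_one]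
    intro p hp q hq
    have h1 := mem_filter.mp hp
    have h2 := mem_filter.mp hq
    have h1' := mem_filter.mp h1.1
    have h2' := mem_filter.mp h2.1
    have h1'' := mem_product.mp h1'.1
    have h2'' := mem_product.mp h2'.1
    have he : p.1 = q.1 := h1.2.trans h2.2.symm
    refine Prod.ext he ?_
    refine hF' _ h1''.1 _ h1''.2 _ h2''.2 h1'.2 ?_
    rw [he]; exact h2'.2
  have hB : (SF.filter (fun p => p.2 = y0)).card ≤ 1 := by
    rw [card_le_one]
    intro p hp q hq
    have h1 := mem_filter.mp hp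
    have h2 := mem_filter.mp hq
    have h1' := mem_filter.mp h1.1
    have h2' := mem_filter.mp h2.1
    have h1'' := mem_product.mp h1'.1
    have h2'' := mem_product.mp h2'.1
    have he : p.2 = q.2 := h1.2.trans h2.2.symm
    refine Prod.ext ?_ he
    refine hF _ h1''.1 _ h2''.1 _ h1''.2 h1'.2 ?_
    rw [he]; exact h2'.2
  have hsub2 : SF ⊆ SF.filter (fun p => p.1 = x0) ∪ SF.filter (fun p => p.2 = y0) := by
    intro p hp
    have h1' := mem_filter.mp hp
    have h1'' := mem_product.mp h1'.1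
    rcases hFG _ h1''.1 _ h1''.2 _ hp0''.1 _ hp0''.2 h1'.2 hp0'.2 with h | h
    · exact mem_union_left _ (mem_filter.mpr ⟨hp, h⟩)
    · exact mem_union_right _ (mem_filter.mpr ⟨hp, h⟩)
  have h9 := card_le_card hsub2
  have h10 := card_union_le (SF.filter (fun p => p.1 = x0)) (SF.filter (fun p => p.2 = y0))
  omega

theorem ctl_eq_aux (h1 : PF n U b1) (h2 : PF n U b2)
    (hno1 : ∀ H, Fl n U b1 H → H.card + 3 ≤ 2 * n)
    (hno2 : ∀ H, Fl n U b2 H → H.card + 3 ≤ 2 * n)
    {X : Finset α} (hX : Good n U b1 X) {H : Finset α} (hH : Fl n U b2 H) (hXH : X ⊆ H) :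
    ∃ X, Good n U b1 X ∧ Good n U b2 X := by
  by_contra hcon
  push Not at hcon
  have hHc := hno2 H hH
  have hXc := card_le_card hXH
  rw [hX.card] at hXc
  have hn : 3 ≤ n := by omega
  have hX' := hX.compl h1.card
  have hUH : (U \ H).card + H.card = 2 * n := by
    rw [card_sdiff_of_subset hH.sub, h1.card]; have := card_le_card hH.sub; rw [h1.card] at this
    omega
  have hsub : U \ H ⊆ U \ X := sdiff_subset_sdiff (Subset.refl _) hXH
  -- b2 holds for every swap (x, y), y outside H
  have hb2 : ∀ x ∈ X, ∀ y ∈ U \ H, b2 (insert y (X.erase x)) := by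
    intro x hx y hy
    exact hH.out _ ((erase_subset _ _).trans hXH) (by rw [card_erase_of_mem hx, hX.card]; omega)
      y (mem_sdiff.mp hy).1 (mem_sdiff.mp hy).2
  by_cases hA : b2 (U \ X)
  · -- complement is a basis in the second structure
    have hcov : ∀ x ∈ X, ∀ y ∈ U \ H, ¬ b1 (insert y (X.erase x)) ∨
        ¬ b1 (insert x ((U \ X).erase y)) ∨ ¬ b2 (insert x ((U \ X).erase y)) := by
      intro x hx y hy
      by_contra hcc
      push Not at hcc
      have hyX := hsub hy
      have hg1 : Swap n U b1 X x y := (swap_iff hX hx hyX).mpr ⟨hcc.1, hcc.2.1⟩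
      refine hcon _ hg1 ⟨hg1.sub, hg1.card, hb2 x hx y hy, ?_⟩
      rw [sdiff_swap hX.sub hx hyX]; exact hcc.2.2
    have hF : ∀ x ∈ X, ∀ x' ∈ X, ∀ y ∈ U \ H, ¬ b1 (insert y (X.erase x)) →
        ¬ b1 (insert y (X.erase x')) → x = x' := fun x hx x' hx' y hy =>
      h1.F_unique' hX hx hx' (hsub hy)
    have hG : ∀ x ∈ X, ∀ y ∈ U \ H, ∀ y' ∈ U \ H, ¬ b1 (insert x ((U \ X).erase y)) →
        ¬ b1 (insert x ((U \ X).erase y')) → y = y' := fun x hx y hy y' hy' =>
      h1.G_unique hX hx (hsub hy) (hsub hy')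
    have hG' : ∀ x ∈ X, ∀ y ∈ U \ H, ∀ y' ∈ U \ H, ¬ b2 (insert x ((U \ X).erase y)) →
        ¬ b2 (insert x ((U \ X).erase y')) → y = y' := fun x hx y hy y' hy' =>
      h2.F_unique hX'.sub hX'.card hA (hsub hy) (hsub hy') (hX.sub hx)
        (fun hc => (mem_sdiff.mp hc).2 hx)
    rcases Nat.lt_or_ge n 4 with hn4 | hn4
    · have hn3 : n = 3 := by omega
      subst hn3
      have hUXH : U \ H = U \ X := by
        refine eq_of_subset_of_card_le hsub ?_
        rw [hX'.card]; omega
      refine three_aux (Q1 := X) (Q2 := U \ H) hX.card (by omega)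
        (fun x y => ¬ b1 (insert y (X.erase x))) (fun x y => ¬ b1 (insert x ((U \ X).erase y)))
        (fun x y => ¬ b2 (insert x ((U \ X).erase y))) hF ?_ hG hG' ?_ hcov
      · intro x hx y hy y' hy' e1 e2
        by_contra hne
        have hyX := hsub hy
        have hyX' := hsub hy'
        have c : ∀ z, z ∈ U \ X → (insert z (X.erase x)).card = 3 := by
          intro z hz
          rw [card_insert_of_notMem (fun hc => (mem_sdiff.mp hz).2 (mem_of_mem_erase hc)),
            card_erase_of_mem hx, hX.card]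
        obtain ⟨K, hK, hKs⟩ := h1.exists_fl_of_not (by omega)
          (insert_subset (mem_sdiff.mp hyX).1 ((erase_subset _ _).trans hX.sub)) (c y hyX) e1
        obtain ⟨K', hK', hKs'⟩ := h1.exists_fl_of_not (by omega)
          (insert_subset (mem_sdiff.mp hyX').1 ((erase_subset _ _).trans hX.sub)) (c y' hyX') e2
        have heq := hK.eq_of_sub hK' (by omega) (K := X.erase x)
          ((subset_insert _ _).trans hKs) ((subset_insert _ _).trans hKs')
          (by rw [card_erase_of_mem hx, hX.card])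
        have : (insert y (insert y' (X.erase x))).card ≤ K.card := by
          refine card_le_card (insert_subset (hKs (mem_insert_self _ _)) ?_)
          rw [heq]; exact hKs'
        rw [card_insert_of_notMem, c y' hyX'] at this
        · have := hno1 K hK; omega
        · rw [mem_insert, mem_erase]
          rintro (h | h)
          · exact hne h
          · exact (mem_sdiff.mp hyX).2 h.2
      · intro x hx y hy x' hx' y' hy' e1 e2
        by_contra hne
        push Not at hne
        have hyX := hsub hy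
        have hyX' := hsub hy'
        obtain ⟨K, hK, hKs⟩ := h1.exists_fl_of_not (by omega)
          (insert_subset (mem_sdiff.mp hyX).1 ((erase_subset _ _).trans hX.sub))
          (by
            rw [card_insert_of_notMem (fun hc => (mem_sdiff.mp hyX).2 (mem_of_mem_erase hc)),
              card_erase_of_mem hx, hX.card]) e1
        have hx'X : x' ∉ (U \ X).erase y' := fun hc =>
          (mem_sdiff.mp (mem_of_mem_erase hc)).2 hx'
        obtain ⟨K', hK', hKs'⟩ := h1.exists_fl_of_not (by omega)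
          (insert_subset (hX.sub hx') ((erase_subset _ _).trans sdiff_subset))
          (by
            rw [card_insert_of_notMem hx'X, card_erase_of_mem hyX', hX'.card]) e2
        have hxy' : x' ≠ y := by rintro rfl; exact (mem_sdiff.mp hyX).2 hx'
        have heq := hK.eq_of_sub hK' (by omega) (K := {x', y})
          (by
            intro w hw
            rw [mem_insert, mem_singleton] at hw
            rcases hw with rfl | rfl
            · exact hKs (mem_insert_of_mem (mem_erase.mpr ⟨Ne.symm hne.1, hx'⟩))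
            · exact hKs (mem_insert_self _ _))
          (by
            intro w hw
            rw [mem_insert, mem_singleton] at hw
            rcases hw with rfl | rfl
            · exact hKs' (mem_insert_self _ _)
            · exact hKs' (mem_insert_of_mem (mem_erase.mpr ⟨hne.2, hyX⟩)))
          (by rw [card_pair hxy'])
        have hbig : insert y (X.erase x) ∪ insert x' ((U \ X).erase y') ⊆ K :=
          union_subset hKs (heq ▸ hKs')
        have hb := card_le_card hbig
        have hsub4 : X.erase x ∪ (U \ X).erase y' ⊆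
            insert y (X.erase x) ∪ insert x' ((U \ X).erase y') :=
          union_subset_union (subset_insert _ _) (subset_insert _ _)
        have hb2 := card_le_card hsub4
        have hdisj : Disjoint (X.erase x) ((U \ X).erase y') := by
          refine disjoint_of_subset_left (erase_subset _ _)
            (disjoint_of_subset_right (erase_subset _ _) disjoint_sdiff)
        rw [card_union_of_disjoint hdisj, card_erase_of_mem hx, card_erase_of_mem hyX', hX.card,
          hX'.card] at hb2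
        have := hno1 K hK
        omega
    · obtain ⟨Q, hQ, hQc⟩ := exists_subset_card_eq (show 3 ≤ (U \ H).card by omega)
      have := cover3 (Q1 := X) (Q2 := Q) _ _ _ (fun x hx x' hx' y hy => hF x hx x' hx' y (hQ hy))
        (fun x hx y hy y' hy' => hG x hx y (hQ hy) y' (hQ hy'))
        (fun x hx y hy y' hy' => hG' x hx y (hQ hy) y' (hQ hy'))
        (fun x hx y hy => hcov x hx y (hQ hy))
      rw [hX.card, hQc] at this
      omega
  · obtain ⟨H', hH', hs'⟩ := h2.exists_fl_of_not (by omega) hX'.sub hX'.card hA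
    have hno' := hno2 H' hH'
    have hc' : 3 ≤ (X \ H').card := by
      have : U \ H' ⊆ X \ H' := by
        intro w hw
        rw [mem_sdiff] at hw ⊢
        refine ⟨?_, hw.2⟩
        by_contra hwX
        exact hw.2 (hs' (mem_sdiff.mpr ⟨hw.1, hwX⟩))
      have h3 := card_le_card this
      rw [card_sdiff_of_subset hH'.sub, h1.card] at h3
      omega
    obtain ⟨x, hx, y, hy, hs⟩ := h1.rect hX (Q1 := X \ H') (Q2 := U \ H) sdiff_subset hsub
      (by omega) (by omega) (by omega)
    rw [mem_sdiff] at hx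
    have hyX := hsub hy
    refine hcon _ hs ⟨hs.sub, hs.card, hb2 x hx.1 y hy, ?_⟩
    rw [sdiff_swap hX.sub hx.1 hyX]
    exact hH'.out _ ((erase_subset _ _).trans hs')
      (by rw [card_erase_of_mem hyX, hX'.card]; omega) x (hX.sub hx.1) hx.2

/-- Common trace lemma for two structures of equal rank on the same set. -/
theorem ctl_eq (h1 : PF n U b1) (h2 : PF n U b2) : ∃ X, Good n U b1 X ∧ Good n U b2 X := by
  by_contra hcon
  have hno1 : ∀ H, Fl n U b1 H → H.card + 3 ≤ 2 * n := by
    intro H hH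
    by_contra hc
    exact hcon (ctl_big h1 h2 hH (by omega))
  have hno2 : ∀ H, Fl n U b2 H → H.card + 3 ≤ 2 * n := by
    intro H hH
    by_contra hc
    obtain ⟨X, hX, hX'⟩ := ctl_big h2 h1 hH (by omega)
    exact hcon ⟨X, hX', hX⟩
  obtain ⟨X, hX⟩ := h1.exists_good
  have hX' := hX.compl h1.card
  rcases Nat.eq_zero_or_pos n with h0 | hn
  · subst h0
    obtain ⟨Z, hZ⟩ := h2.exists_good
    have e1 : X = ∅ := card_eq_zero.mp hX.card
    have e2 : Z = ∅ := card_eq_zero.mp hZ.card
    exact hcon ⟨X, hX, by rw [e1, ← e2]; exact hZ⟩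
  by_cases hb : b2 X
  · by_cases hb' : b2 (U \ X)
    · exact hcon ⟨X, hX, hX.sub, hX.card, hb, hb'⟩
    · obtain ⟨H, hH, hs⟩ := h2.exists_fl_of_not hn hX'.sub hX'.card hb'
      exact hcon (ctl_eq_aux h1 h2 hno1 hno2 hX' hH hs)
  · obtain ⟨H, hH, hs⟩ := h2.exists_fl_of_not hn hX.sub hX.card hb
    exact hcon (ctl_eq_aux h1 h2 hno1 hno2 hX hH hs)

end Pool.Agent.H94
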