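import Pool.Agent.H94.CtlA

set_option autoImplicit false

namespace Pool.Agent.H94

open Finset

variable {α : Type*} [DecidableEq α]
variable {n u w p : ℕ} {U W : Finset α} {b b1 b2 : Finset α → Prop}

theorem Good.side (hU : U.card = 2 * n) {X : Finset α} (hX : Good n U b X) (y : α) (hy : y ∈ U) :
    ∃ X, Good n U b X ∧ y ∈ X := by
  by_cases h : y ∈ X
  · exact ⟨X, hX, h⟩
  · exact ⟨U \ X, hX.compl hU, mem_sdiff.mpr ⟨hy, h⟩⟩

theorem ctl_sub_big (h1 : PF u U b1) (h2 : PF w W b2) (hWU : W ⊆ U) (hwu : w < u)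
    {H : Finset α} (hH : Fl u U b1 H) (hc : 2 * u ≤ H.card + 2) :
    ∃ X, Good u U b1 X ∧ Good w W b2 (X ∩ W) := by
  obtain ⟨X0, hX0⟩ := h1.exists_good
  have hle := hH.card_le h1.card hX0
  have hUH : (U \ H).card = 2 := by
    rw [card_sdiff_of_subset hH.sub, h1.card]; omega
  obtain ⟨y1, y2, hne, hUH⟩ := card_eq_two.mp hUH
  have hy1 : y1 ∈ U \ H := by rw [hUH]; simp
  have hy2 : y2 ∈ U \ H := by rw [hUH]; simp
  rw [mem_sdiff] at hy1 hy2
  have hA : ∃ A, Good w W b2 A ∧ (y1 ∈ W → y1 ∈ A) ∧ (y2 ∈ W → y2 ∉ A) := by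
    obtain ⟨X, hX⟩ := h2.exists_good
    by_cases c1 : y1 ∈ W
    · by_cases c2 : y2 ∈ W
      · obtain ⟨A, hA, e1, e2⟩ := h2.exists_sep c1 hne c2
        exact ⟨A, hA, fun _ => e1, fun _ => e2⟩
      · obtain ⟨A, hA, e1⟩ := hX.side h2.card y1 c1
        exact ⟨A, hA, fun _ => e1, fun h => absurd h c2⟩
    · by_cases c2 : y2 ∈ W
      · obtain ⟨A, hA, e1⟩ := hX.side h2.card y2 c2
        exact ⟨W \ A, hA.compl h2.card, fun h => absurd h c1,
          fun _ hc => (mem_sdiff.mp hc).2 e1⟩
      · exact ⟨X, hX, fun h => absurd h c1, fun h => absurd h c2⟩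
  obtain ⟨A, hA, hA1, hA2⟩ := hA
  have hRc : (U \ W).card + 2 * w = 2 * u := by
    have := card_sdiff_add_card_eq_card hWU
    rw [h1.card, h2.card] at this; exact this
  have hP : ∃ P, {y1} ∩ (U \ W) ⊆ P ∧ P ⊆ (U \ W).erase y2 ∧ P.card = u - w := by
    refine exists_subsuperset_card_eq ?_ ?_ ?_
    · intro z hz
      rw [mem_inter, mem_singleton] at hz
      rw [mem_erase]
      exact ⟨by rw [hz.1]; exact hne, hz.2⟩
    · have := card_le_card (inter_subset_left : {y1} ∩ (U \ W) ⊆ {y1})
      rw [card_singleton] at this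
      omega
    · have := pred_card_le_card_erase (a := y2) (s := U \ W)
      omega
  obtain ⟨P, hP1, hP2, hPc⟩ := hP
  have hPR : P ⊆ U \ W := hP2.trans (erase_subset _ _)
  have hdisj : Disjoint A P := by
    rw [disjoint_left]
    intro z hz hz'
    exact (mem_sdiff.mp (hPR hz')).2 (hA.sub hz)
  have hcap : (A ∪ P) ∩ W = A := by
    ext z
    simp only [mem_inter, mem_union]
    constructor
    · rintro ⟨h | h, h'⟩
      · exact h
      · exact absurd h' (mem_sdiff.mp (hPR h)).2
    · intro h; exact ⟨Or.inl h, hA.sub h⟩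
  refine ⟨A ∪ P, ?_, by rw [hcap]; exact hA⟩
  refine hH.big_good h1.card (y1 := y1) (y2 := y2) ?_ ?_ ?_ ?_ hy1.2 hy2.1 ?_ hy2.2
  · intro z hz hzH
    have : z ∈ U \ H := mem_sdiff.mpr ⟨hz, hzH⟩
    rw [hUH] at this
    simpa using this
  · exact union_subset (hA.sub.trans hWU) (hPR.trans sdiff_subset)
  · rw [card_union_of_disjoint hdisj, hA.card, hPc]; omega
  · rw [mem_union]
    by_cases c1 : y1 ∈ W
    · exact Or.inl (hA1 c1)
    · exact Or.inr (hP1 (mem_inter.mpr ⟨mem_singleton_self _, mem_sdiff.mpr ⟨hy1.1, c1⟩⟩))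
  · rw [mem_union]
    rintro (h | h)
    · by_cases c1 : y2 ∈ W
      · exact hA2 c1 h
      · exact c1 (hA.sub h)
    · exact (mem_erase.mp (hP2 h)).1 rfl

/-- Lemma E: description of the traces that do not extend. -/
theorem lemE (h1 : PF u U b1) (hWU : W ⊆ U) (hW : W.card = 2 * w) (hu : u = w + p) (hp : 1 ≤ p)
    {A : Finset α} (hA : A ⊆ W) (hAc : A.card = w)
    (hmiss : ∀ P ⊆ U \ W, P.card = p → ¬ Good u U b1 (A ∪ P)) :
    (∃ H, Fl u U b1 H ∧ A ∪ (U \ W) ⊆ H) ∨ (∃ H, Fl u U b1 H ∧ (W \ A) ∪ (U \ W) ⊆ H) ∨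
    (∃ s ∈ U \ W, ∃ H H', Fl u U b1 H ∧ Fl u U b1 H' ∧ A ∪ (U \ W).erase s ⊆ H ∧
      (W \ A) ∪ (U \ W).erase s ⊆ H') := by
  by_cases hno1 : ∃ H, Fl u U b1 H ∧ A ∪ (U \ W) ⊆ H
  · exact Or.inl hno1
  by_cases hno2 : ∃ H, Fl u U b1 H ∧ (W \ A) ∪ (U \ W) ⊆ H
  · exact Or.inr (Or.inl hno2)
  refine Or.inr (Or.inr ?_)
  set R := U \ W with hR
  have hRU : R ⊆ U := sdiff_subset
  have hRW : ∀ z ∈ R, z ∉ W := fun z hz => (mem_sdiff.mp hz).2
  have hRc : R.card = 2 * p := by
    have := card_sdiff_add_card_eq_card hWU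
    rw [h1.card, hW] at this; rw [hR]; omega
  set A' := W \ A with hA'
  have hA'W : A' ⊆ W := sdiff_subset
  have hA'c : A'.card = w := by
    rw [hA', card_sdiff_of_subset hA, hW, hAc]; omega
  have hAR : ∀ P ⊆ R, Disjoint A P := by
    intro P hP
    rw [disjoint_left]; intro z hz hz'
    exact hRW z (hP hz') (hA hz)
  have hA'R : ∀ P ⊆ R, Disjoint A' P := by
    intro P hP
    rw [disjoint_left]; intro z hz hz'
    exact hRW z (hP hz') (hA'W hz)
  have hmiss' : ∀ P ⊆ R, P.card = p → ¬ b1 (A ∪ P) ∨ ¬ b1 (A' ∪ (R \ P)) := by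
    intro P hP hPc
    by_contra hcc
    push Not at hcc
    refine hmiss P hP hPc ⟨union_subset (hA.trans hWU) (hP.trans hRU), ?_, hcc.1, ?_⟩
    · rw [card_union_of_disjoint (hAR P hP)]; omega
    · have : U \ (A ∪ P) = A' ∪ (R \ P) := by
        ext z
        simp only [mem_sdiff, mem_union, hA', hR]
        constructor
        · rintro ⟨h, h'⟩
          push Not at h'
          by_cases hz : z ∈ W
          · exact Or.inl ⟨hz, h'.1⟩
          · exact Or.inr ⟨⟨h, hz⟩, h'.2⟩
        · rintro (⟨h, h'⟩ | ⟨⟨h, h'⟩, h''⟩)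
          · refine ⟨hWU h, ?_⟩
            rintro (h3 | h3)
            · exact h' h3
            · exact hRW z (hP h3) h
          · refine ⟨h, ?_⟩
            rintro (h3 | h3)
            · exact h' (hA h3)
            · exact h'' h3
      rw [this]; exact hcc.2
  -- some P with A ∪ P nonbasis
  have hex : ∃ P ⊆ R, P.card = p ∧ ¬ b1 (A ∪ P) := by
    by_contra hall
    push Not at hall
    refine hno2 ?_
    have hall' : ∀ P ⊆ R, P.card = p → ¬ b1 (A' ∪ P) := by
      intro P hP hPc
      have hc : (R \ P).card = p := by rw [card_sdiff_of_subset hP, hRc, hPc]; omega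
      rcases hmiss' (R \ P) sdiff_subset hc with h | h
      · exact absurd (hall _ sdiff_subset hc) h
      · rwa [Finset.sdiff_sdiff_eq_self hP] at h
    obtain ⟨P0, hP0, hP0c⟩ := exists_subset_card_eq (show p ≤ R.card by omega)
    obtain ⟨H0, hH0, hs0⟩ := h1.exists_fl_of_not (S := A' ∪ P0) (by omega)
      (union_subset (hA'W.trans hWU) (hP0.trans hRU))
      (by rw [card_union_of_disjoint (hA'R P0 hP0)]; omega) (hall' P0 hP0 hP0c)
    refine ⟨H0, hH0, union_subset (subset_union_left.trans hs0) ?_⟩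
    intro r hr
    by_contra hrH
    have hrP : r ∉ P0 := fun hc => hrH (hs0 (mem_union_right _ hc))
    obtain ⟨q, hq⟩ := card_pos.mp (show 0 < P0.card by omega)
    have hsub : P0.erase q ⊆ R := (erase_subset _ _).trans hP0
    have hb := hH0.out (A' ∪ P0.erase q)
      ((union_subset_union_right (erase_subset _ _)).trans hs0)
      (by rw [card_union_of_disjoint (hA'R _ hsub), card_erase_of_mem hq]; omega) r (hRU hr) hrH
    have heq : insert r (A' ∪ P0.erase q) = A' ∪ insert r (P0.erase q) := by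
      rw [union_insert]
    rw [heq] at hb
    refine hall' (insert r (P0.erase q)) (insert_subset hr hsub) ?_ hb
    rw [card_insert_of_notMem (fun hc => hrP (mem_of_mem_erase hc)), card_erase_of_mem hq]
    omega
  obtain ⟨P, hP, hPc, hPb⟩ := hex
  obtain ⟨H1, hH1, hs1⟩ := h1.exists_fl_of_not (S := A ∪ P) (by omega)
      (union_subset (hA.trans hWU) (hP.trans hRU))
      (by rw [card_union_of_disjoint (hAR P hP)]; omega) hPb
  have hAH : A ⊆ H1 := subset_union_left.trans hs1
  have hPH : P ⊆ H1 := subset_union_right.trans hs1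
  obtain ⟨q0, hq0⟩ := card_pos.mp (show 0 < P.card by omega)
  -- key claim
  have key : ∀ s ∈ R, s ∉ H1 → ∃ H', Fl u U b1 H' ∧ A' ∪ R.erase s ⊆ H' := by
    intro s hs hsH
    have hsP : s ∉ P := fun hc => hsH (hPH hc)
    have hnb : ∀ q ∈ P, ¬ b1 (insert q (A' ∪ (R \ P).erase s)) := by
      intro q hq
      have hsub : insert s (P.erase q) ⊆ R := insert_subset hs ((erase_subset _ _).trans hP)
      have hc : (insert s (P.erase q)).card = p := by
        rw [card_insert_of_notMem (fun hc => hsP (mem_of_mem_erase hc)), card_erase_of_mem hq]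
        omega
      rcases hmiss' _ hsub hc with h | h
      · exfalso
        apply h
        rw [union_insert]
        refine hH1.out _ ?_ ?_ s (hRU hs) hsH
        · exact (union_subset_union_right (erase_subset _ _)).trans hs1
        · rw [card_union_of_disjoint (hAR _ ((erase_subset _ _).trans hP)), card_erase_of_mem hq]
          omega
      · have heq : R \ insert s (P.erase q) = insert q ((R \ P).erase s) := by
          ext z
          simp only [mem_sdiff, mem_insert, mem_erase]
          constructor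
          · rintro ⟨h1, h2⟩
            push Not at h2
            by_cases hzq : z = q
            · exact Or.inl hzq
            · exact Or.inr ⟨h2.1, h1, h2.2 hzq⟩
          · rintro (rfl | ⟨h1, h2, h3⟩)
            · refine ⟨hP hq, ?_⟩
              rintro (h | h)
              · exact hsP (h ▸ hq)
              · exact h.1 rfl
            · refine ⟨h2, ?_⟩
              rintro (h | h)
              · exact h1 h
              · exact h3 h.2
        rw [heq, union_insert] at h
        exact h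
    have hsubI : A' ∪ (R \ P).erase s ⊆ U :=
      union_subset (hA'W.trans hWU) (((erase_subset _ _).trans sdiff_subset).trans hRU)
    have hsRP : s ∈ R \ P := mem_sdiff.mpr ⟨hs, hsP⟩
    have hcI : (A' ∪ (R \ P).erase s).card + 1 = u := by
      rw [card_union_of_disjoint (hA'R _ ((erase_subset _ _).trans sdiff_subset)),
        card_erase_of_mem hsRP, card_sdiff_of_subset hP]
      omega
    obtain ⟨H', hH', hs'⟩ := h1.exists_fl hsubI hcI
    refine ⟨H', hH', ?_⟩
    have hPH' : P ⊆ H' := by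
      intro q hq
      by_contra hqH
      exact hnb q hq (hH'.out _ hs' hcI q (hRU (hP hq)) hqH)
    intro z hz
    rw [mem_union, mem_erase] at hz
    rcases hz with hz | hz
    · exact hs' (mem_union_left _ hz)
    · by_cases hzP : z ∈ P
      · exact hPH' hzP
      · exact hs' (mem_union_right _ (mem_erase.mpr ⟨hz.1, mem_sdiff.mpr ⟨hz.2, hzP⟩⟩))
  have hexs : ∃ s ∈ R, s ∉ H1 := by
    by_contra hall
    push Not at hall
    exact hno1 ⟨H1, hH1, union_subset hAH hall⟩
  obtain ⟨s, hs, hsH⟩ := hexs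
  obtain ⟨H', hH', hs'⟩ := key s hs hsH
  refine ⟨s, hs, H1, H', hH1, hH', union_subset hAH ?_, hs'⟩
  intro r hr
  rw [mem_erase] at hr
  by_contra hrH
  obtain ⟨H'', hH'', hs''⟩ := key r hr.2 hrH
  have heq := hH'.eq_of_sub hH'' (by omega) (K := A' ∪ (R.erase s).erase r)
    ((union_subset_union_right (erase_subset _ _)).trans hs')
    (by rw [erase_right_comm]; exact (union_subset_union_right (erase_subset _ _)).trans hs'')
    (by
      rw [card_union_of_disjoint (hA'R _ ((erase_subset _ _).trans (erase_subset _ _))),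
        card_erase_of_mem (mem_erase.mpr ⟨hr.1, hr.2⟩), card_erase_of_mem hs]
      omega)
  refine hno2 ⟨H', hH', ?_⟩
  intro z hz
  rw [mem_union] at hz
  rcases hz with hz | hz
  · exact hs' (mem_union_left _ hz)
  · by_cases hzs : z = s
    · rw [heq]; exact hs'' (mem_union_right _ (mem_erase.mpr ⟨by rw [hzs]; exact Ne.symm hr.1, hz⟩))
    · exact hs' (mem_union_right _ (mem_erase.mpr ⟨hzs, hz⟩))

end Pool.Agent.H94
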