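import Pool.Agent.H94.CtlB

set_option autoImplicit false

namespace Pool.Agent.H94

open Finset

variable {α : Type*} [DecidableEq α]
variable {n u w p : ℕ} {U W : Finset α} {b b1 b2 : Finset α → Prop}

theorem union_inter_eq_left {A P : Finset α} (hA : A ⊆ W) (hP : P ⊆ U \ W) :
    (A ∪ P) ∩ W = A := by
  ext z
  simp only [mem_inter, mem_union]
  constructor
  · rintro ⟨h | h, h'⟩
    · exact h
    · exact absurd h' (mem_sdiff.mp (hP h)).2
  · intro h; exact ⟨Or.inl h, hA h⟩

theorem disj_of {A P : Finset α} (hA : A ⊆ W) (hP : P ⊆ U \ W) : Disjoint A P := by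
  rw [disjoint_left]
  intro z hz hz'
  exact (mem_sdiff.mp (hP hz')).2 (hA hz)

/-- the description of missing traces for all good sets of the second structure -/
def MissE (u : ℕ) (U W : Finset α) (b1 : Finset α → Prop) (A : Finset α) : Prop :=
    (∃ H, Fl u U b1 H ∧ A ∪ (U \ W) ⊆ H) ∨ (∃ H, Fl u U b1 H ∧ (W \ A) ∪ (U \ W) ⊆ H) ∨
    (∃ s ∈ U \ W, ∃ H H', Fl u U b1 H ∧ Fl u U b1 H' ∧ A ∪ (U \ W).erase s ⊆ H ∧
      (W \ A) ∪ (U \ W).erase s ⊆ H')

theorem missE_of_not (h1 : PF u U b1) (h2 : PF w W b2) (hWU : W ⊆ U) (hwu : w < u)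
    (hcon : ¬ ∃ X, Good u U b1 X ∧ Good w W b2 (X ∩ W)) {A : Finset α} (hA : Good w W b2 A) :
    MissE u U W b1 A := by
  refine lemE h1 hWU h2.card (p := u - w) (by omega) (by omega) hA.sub hA.card ?_
  intro P hP _ hg
  exact hcon ⟨_, hg, by rw [union_inter_eq_left hA.sub hP]; exact hA⟩

/-- if `A` is in type (1) with hyperplane `H`, a good swap with `y ∉ H` leads to type (2). -/
theorem s1_aux (h1 : PF u U b1) (h2 : PF w W b2) (hWU : W ⊆ U) (hwu : w < u)
    (hE : ∀ A, Good w W b2 A → MissE u U W b1 A) {A H : Finset α} (hA : Good w W b2 A)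
    (hH : Fl u U b1 H) (hs : A ∪ (U \ W) ⊆ H) {x y : α} (hx : x ∈ A) (hyW : y ∈ W \ A)
    (hyH : y ∉ H) (hsw : Swap w W b2 A x y) :
    ∃ K, Fl u U b1 K ∧ insert x ((W \ A).erase y) ∪ (U \ W) ⊆ K := by
  have hRc : (U \ W).card + 2 * w = 2 * u := by
    have := card_sdiff_add_card_eq_card hWU
    rw [h1.card, h2.card] at this; exact this
  have hwx : 1 ≤ w := by have := card_pos.mpr ⟨x, hx⟩; rw [hA.card] at this; omega
  have hAx : (A.erase x).card + 1 = w := by rw [card_erase_of_mem hx, hA.card]; omega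
  rcases hE _ hsw with ⟨K, hK, hKs⟩ | ⟨K, hK, hKs⟩ | ⟨s, hs', K, K', hK, hK', hKs, hKs'⟩
  · exfalso
    have heq := hK.eq_of_sub hH (by omega) (K := A.erase x ∪ (U \ W))
      ((union_subset_union_left (subset_insert _ _)).trans hKs)
      ((union_subset_union_left (erase_subset _ _)).trans hs)
      (by
        rw [card_union_of_disjoint (disj_of ((erase_subset _ _).trans hA.sub) (Subset.refl _))]
        omega)
    exact hyH (heq ▸ hKs (mem_union_left _ (mem_insert_self _ _)))
  · refine ⟨K, hK, ?_⟩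
    rw [sdiff_swap hA.sub hx hyW] at hKs
    exact hKs
  · exfalso
    have heq := hK.eq_of_sub hH (by omega) (K := A.erase x ∪ (U \ W).erase s)
      ((union_subset_union_left (subset_insert _ _)).trans hKs)
      ((union_subset_union (erase_subset _ _) (erase_subset _ _)).trans hs)
      (by
        rw [card_union_of_disjoint (disj_of ((erase_subset _ _).trans hA.sub) (erase_subset _ _)),
          card_erase_of_mem hs']
        omega)
    exact hyH (heq ▸ hKs (mem_union_left _ (mem_insert_self _ _)))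

theorem sdiff_card_ge {H : Finset α} (hU : U.card = 2 * u) (hH : H ⊆ U)
    (hc : H.card + 3 ≤ 2 * u) {Q : Finset α} (hQ : U \ H ⊆ Q) : 3 ≤ Q.card := by
  have h3 := card_le_card hQ
  rw [card_sdiff_of_subset hH, hU] at h3
  omega

theorem c1_aux (h1 : PF u U b1) (h2 : PF w W b2) (hWU : W ⊆ U) (hw : 3 ≤ w) (hwu : w < u)
    (hno : ∀ H, Fl u U b1 H → H.card + 3 ≤ 2 * u)
    (hE : ∀ A, Good w W b2 A → MissE u U W b1 A) {A H : Finset α} (hA : Good w W b2 A)
    (hH : Fl u U b1 H) (hs : A ∪ (U \ W) ⊆ H) : False := by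
  have hRc : (U \ W).card + 2 * w = 2 * u := by
    have := card_sdiff_add_card_eq_card hWU
    rw [h1.card, h2.card] at this; exact this
  have hA' := hA.compl h2.card
  have hUH : U \ H ⊆ (W \ A) \ H := by
    intro z hz
    rw [mem_sdiff] at hz
    rw [mem_sdiff, mem_sdiff]
    refine ⟨⟨?_, ?_⟩, hz.2⟩
    · by_contra hzW
      exact hz.2 (hs (mem_union_right _ (mem_sdiff.mpr ⟨hz.1, hzW⟩)))
    · intro hzA
      exact hz.2 (hs (mem_union_left _ hzA))
  have hYc := sdiff_card_ge h1.card hH.sub (hno H hH) hUH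
  by_cases h22 : ∃ H'', Fl u U b1 H'' ∧ (W \ A) ∪ (U \ W) ⊆ H''
  · obtain ⟨H'', hH'', hs''⟩ := h22
    have hUH'' : U \ H'' ⊆ A \ H'' := by
      intro z hz
      rw [mem_sdiff] at hz
      rw [mem_sdiff]
      refine ⟨?_, hz.2⟩
      by_contra hzA
      by_cases hzW : z ∈ W
      · exact hz.2 (hs'' (mem_union_left _ (mem_sdiff.mpr ⟨hzW, hzA⟩)))
      · exact hz.2 (hs'' (mem_union_right _ (mem_sdiff.mpr ⟨hz.1, hzW⟩)))
    have hXc := sdiff_card_ge h1.card hH''.sub (hno H'' hH'') hUH''
    obtain ⟨x, hx, y, hy, hsw⟩ := h2.rect hA (Q1 := A \ H'') (Q2 := (W \ A) \ H) sdiff_subset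
      sdiff_subset (by omega) (by omega) (by omega)
    rw [mem_sdiff] at hx hy
    obtain ⟨K, hK, hKs⟩ := s1_aux h1 h2 hWU hwu hE hA hH hs hx.1 hy.1 hy.2 hsw
    have heq := hK.eq_of_sub hH'' (by omega) (K := (W \ A).erase y ∪ (U \ W))
      ((union_subset_union_left (subset_insert _ _)).trans hKs)
      ((union_subset_union_left (erase_subset _ _)).trans hs'')
      (by
        rw [card_union_of_disjoint (disj_of ((erase_subset _ _).trans hA'.sub) (Subset.refl _)),
          card_erase_of_mem hy.1, hA'.card]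
        omega)
    exact hx.2 (heq ▸ hKs (mem_union_left _ (mem_insert_self _ _)))
  · -- at most one bad y
    have huniq : ∀ y ∈ (W \ A) \ H, ∀ y' ∈ (W \ A) \ H,
        (∃ K, Fl u U b1 K ∧ (W \ A).erase y ∪ (U \ W) ⊆ K) →
        (∃ K, Fl u U b1 K ∧ (W \ A).erase y' ∪ (U \ W) ⊆ K) → y = y' := by
      rintro y hy y' hy' ⟨K, hK, hKs⟩ ⟨K', hK', hKs'⟩
      by_contra hne
      rw [mem_sdiff] at hy hy'
      have heq := hK.eq_of_sub hK' (by omega) (K := ((W \ A).erase y).erase y' ∪ (U \ W))
        ((union_subset_union_left (erase_subset _ _)).trans hKs)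
        (by rw [erase_right_comm]; exact (union_subset_union_left (erase_subset _ _)).trans hKs')
        (by
          rw [card_union_of_disjoint (disj_of
              (((erase_subset _ _).trans (erase_subset _ _)).trans hA'.sub) (Subset.refl _)),
            card_erase_of_mem (mem_erase.mpr ⟨Ne.symm hne, hy'.1⟩), card_erase_of_mem hy.1,
            hA'.card]
          omega)
      refine h22 ⟨K, hK, ?_⟩
      intro z hz
      rw [mem_union] at hz
      rcases hz with hz | hz
      · by_cases hzy : z = y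
        · rw [heq]
          exact hKs' (mem_union_left _ (mem_erase.mpr ⟨by rw [hzy]; exact hne, hz⟩))
        · exact hKs (mem_union_left _ (mem_erase.mpr ⟨hzy, hz⟩))
      · exact hKs (mem_union_right _ hz)
    have hexY : ∃ Y', Y' ⊆ (W \ A) \ H ∧ 2 ≤ Y'.card ∧
        ∀ y ∈ Y', ¬ ∃ K, Fl u U b1 K ∧ (W \ A).erase y ∪ (U \ W) ⊆ K := by
      by_cases hb : ∃ y0 ∈ (W \ A) \ H, ∃ K, Fl u U b1 K ∧ (W \ A).erase y0 ∪ (U \ W) ⊆ K
      · obtain ⟨y0, hy0, hb0⟩ := hb
        refine ⟨((W \ A) \ H).erase y0, erase_subset _ _, ?_, ?_⟩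
        · rw [card_erase_of_mem hy0]; omega
        · intro y hy hby
          rw [mem_erase] at hy
          exact hy.1 (huniq y hy.2 y0 hy0 hby hb0)
      · push Not at hb
        refine ⟨(W \ A) \ H, Subset.refl _, by omega, ?_⟩
        rintro y hy ⟨K, hK, hKs⟩
        exact hb y hy K hK hKs
    obtain ⟨Y', hY', hY'c, hY'b⟩ := hexY
    obtain ⟨x, hx, y, hy, hsw⟩ := h2.rect hA (Q1 := A) (Q2 := Y') (Subset.refl _)
      (hY'.trans sdiff_subset) (by rw [hA.card]; omega) hY'c (by rw [hA.card]; omega)
    have hy' := mem_sdiff.mp (hY' hy)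
    obtain ⟨K, hK, hKs⟩ := s1_aux h1 h2 hWU hwu hE hA hH hs hx hy'.1 hy'.2 hsw
    exact hY'b y hy ⟨K, hK, (union_subset_union_left (subset_insert _ _)).trans hKs⟩

/-- Type (3) -/
theorem c3_aux (h1 : PF u U b1) (h2 : PF w W b2) (hWU : W ⊆ U) (hw : 3 ≤ w) (hwu : w < u)
    (hno : ∀ H, Fl u U b1 H → H.card + 3 ≤ 2 * u)
    (hE : ∀ A, Good w W b2 A → ∃ s ∈ U \ W, ∃ H H', Fl u U b1 H ∧ Fl u U b1 H' ∧
      A ∪ (U \ W).erase s ⊆ H ∧ (W \ A) ∪ (U \ W).erase s ⊆ H')
    (hE1 : ∀ A, Good w W b2 A → ∀ H, Fl u U b1 H → ¬ A ∪ (U \ W) ⊆ H) : False := by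
  have hRc : (U \ W).card + 2 * w = 2 * u := by
    have := card_sdiff_add_card_eq_card hWU
    rw [h1.card, h2.card] at this; exact this
  obtain ⟨A, hA⟩ := h2.exists_good
  have hA' := hA.compl h2.card
  obtain ⟨s, hs, H1, H1', hH1, hH1', hs1, hs1'⟩ := hE A hA
  have hsU : s ∈ U := (mem_sdiff.mp hs).1
  have hsW : s ∉ W := (mem_sdiff.mp hs).2
  have hAH1 : A ⊆ H1 := subset_union_left.trans hs1
  have hA'H1' : W \ A ⊆ H1' := subset_union_left.trans hs1'
  have hsH1 : s ∉ H1 := by
    intro hc
    refine hE1 A hA H1 hH1 (union_subset hAH1 ?_)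
    intro z hz
    by_cases hzs : z = s
    · rw [hzs]; exact hc
    · exact hs1 (mem_union_right _ (mem_erase.mpr ⟨hzs, hz⟩))
  have hsH1' : s ∉ H1' := by
    intro hc
    refine hE1 (W \ A) hA' H1' hH1' (union_subset hA'H1' ?_)
    intro z hz
    by_cases hzs : z = s
    · rw [hzs]; exact hc
    · exact hs1' (mem_union_right _ (mem_erase.mpr ⟨hzs, hz⟩))
  have hRs : ((U \ W).erase s).card + 1 = (U \ W).card := by
    rw [card_erase_of_mem hs]; have := card_pos.mpr ⟨s, hs⟩; omega
  -- consequences of a good swap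
  have hsw : ∀ x ∈ A, ∀ y ∈ W \ A, Swap w W b2 A x y →
      (y ∈ H1 ∧ x ∈ H1') ∨ (u = w + 1 ∧ ¬ b1 (insert s (insert y (A.erase x))) ∧
        ¬ b1 (insert s (insert x ((W \ A).erase y)))) := by
    intro x hx y hy hsw
    have hAx : (A.erase x).card + 1 = w := by rw [card_erase_of_mem hx, hA.card]; omega
    have hAy : ((W \ A).erase y).card + 1 = w := by rw [card_erase_of_mem hy, hA'.card]; omega
    obtain ⟨s2, hs2, K, K', hK, hK', hKs, hKs'⟩ := hE _ hsw
    rw [sdiff_swap hA.sub hx hy] at hKs'
    by_cases hss : s2 = s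
    · left
      subst hss
      have heq := hK.eq_of_sub hH1 (by omega) (K := A.erase x ∪ (U \ W).erase s2)
        ((union_subset_union_left (subset_insert _ _)).trans hKs)
        ((union_subset_union_left (erase_subset _ _)).trans hs1)
        (by
          rw [card_union_of_disjoint (disj_of ((erase_subset _ _).trans hA.sub)
            (erase_subset _ _))]
          omega)
      have heq' := hK'.eq_of_sub hH1' (by omega) (K := (W \ A).erase y ∪ (U \ W).erase s2)
        ((union_subset_union_left (subset_insert _ _)).trans hKs')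
        ((union_subset_union_left (erase_subset _ _)).trans hs1')
        (by
          rw [card_union_of_disjoint (disj_of ((erase_subset _ _).trans hA'.sub)
            (erase_subset _ _))]
          omega)
      exact ⟨heq ▸ hKs (mem_union_left _ (mem_insert_self _ _)),
        heq' ▸ hKs' (mem_union_left _ (mem_insert_self _ _))⟩
    · right
      have hsK : s ∈ K := hKs (mem_union_right _ (mem_erase.mpr ⟨Ne.symm hss, hs⟩))
      have hsK' : s ∈ K' := hKs' (mem_union_right _ (mem_erase.mpr ⟨Ne.symm hss, hs⟩))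
      by_cases hu2 : w + 2 ≤ u
      · exfalso
        have heq := hK.eq_of_sub hH1 (by omega) (K := A.erase x ∪ ((U \ W).erase s).erase s2)
          (by
            rw [erase_right_comm]
            exact (union_subset_union (subset_insert _ _) (erase_subset _ _)).trans hKs)
          ((union_subset_union (erase_subset _ _) (erase_subset _ _)).trans hs1)
          (by
            rw [card_union_of_disjoint (disj_of ((erase_subset _ _).trans hA.sub)
              ((erase_subset _ _).trans (erase_subset _ _))),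
              card_erase_of_mem (mem_erase.mpr ⟨hss, hs2⟩)]
            omega)
        exact hsH1 (heq ▸ hsK)
      · refine ⟨by omega, ?_, ?_⟩
        · refine hK.dep _ (insert_subset hsK (subset_union_left.trans hKs)) ?_
          rw [card_insert_of_notMem, hsw.card]
          · omega
          · intro hc; exact hsW (hsw.sub hc)
        · refine hK'.dep _ (insert_subset hsK' (subset_union_left.trans hKs')) ?_
          have hxA : x ∉ (W \ A).erase y := fun hc =>
            (mem_sdiff.mp (mem_of_mem_erase hc)).2 hx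
          rw [card_insert_of_notMem, card_insert_of_notMem hxA]
          · omega
          · rw [mem_insert]
            rintro (h | h)
            · exact hsW (h ▸ hA.sub hx)
            · exact hsW (mem_sdiff.mp (mem_of_mem_erase h)).1
  -- both hyperplanes different
  have hneH : H1 ≠ H1' := by
    intro heq
    have hsub : W ∪ (U \ W).erase s ⊆ H1 := by
      intro z hz
      rw [mem_union] at hz
      rcases hz with hz | hz
      · by_cases hzA : z ∈ A
        · exact hAH1 hzA
        · rw [heq]; exact hA'H1' (mem_sdiff.mpr ⟨hz, hzA⟩)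
      · exact hs1 (mem_union_right _ hz)
    have hc := card_le_card hsub
    rw [card_union_of_disjoint (disj_of (Subset.refl _) (erase_subset _ _)), h2.card] at hc
    have := hno H1 hH1
    omega
  have hcapc : (H1 ∩ H1').card + 2 ≤ u := by
    by_contra hcc
    exact hneH (hH1.eq_of_inter hH1' (by omega) (by omega))
  by_cases hu2 : w + 2 ≤ u
  · have hex : ∃ x ∈ A, x ∉ H1' := by
      by_contra hall
      push Not at hall
      have hsub : A ∪ (U \ W).erase s ⊆ H1 ∩ H1' := by
        intro z hz
        refine mem_inter.mpr ⟨hs1 hz, ?_⟩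
        rw [mem_union] at hz
        rcases hz with hz | hz
        · exact hall z hz
        · exact hs1' (mem_union_right _ hz)
      have hc := card_le_card hsub
      rw [card_union_of_disjoint (disj_of hA.sub (erase_subset _ _)), hA.card] at hc
      omega
    obtain ⟨x, hx, hxH⟩ := hex
    obtain ⟨y, hy, hsw'⟩ := h2.symm_exch hA hx
    rcases hsw x hx y hy hsw' with h | h
    · exact hxH h.2
    · omega
  · -- u = w + 1
    have hu : u = w + 1 := by omega
    have hsum : (A ∩ H1').card + ((W \ A) ∩ H1).card + 2 ≤ w := by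
      have hsub : (A ∩ H1') ∪ ((W \ A) ∩ H1) ∪ (U \ W).erase s ⊆ H1 ∩ H1' := by
        intro z hz
        rw [mem_union, mem_union, mem_inter, mem_inter] at hz
        rw [mem_inter]
        rcases hz with (hz | hz) | hz
        · exact ⟨hAH1 hz.1, hz.2⟩
        · exact ⟨hz.2, hA'H1' hz.1⟩
        · exact ⟨hs1 (mem_union_right _ hz), hs1' (mem_union_right _ hz)⟩
      have hc := card_le_card hsub
      have hd1 : Disjoint ((A ∩ H1') ∪ ((W \ A) ∩ H1)) ((U \ W).erase s) :=
        disj_of (union_subset (inter_subset_left.trans hA.sub)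
          (inter_subset_left.trans sdiff_subset)) (erase_subset _ _)
      have hd2 : Disjoint (A ∩ H1') ((W \ A) ∩ H1) :=
        disjoint_of_subset_left inter_subset_left
          (disjoint_of_subset_right inter_subset_left disjoint_sdiff)
      rw [card_union_of_disjoint hd1, card_union_of_disjoint hd2] at hc
      omega
    have hsa : (A \ H1').card + (A ∩ H1').card = w := by
      rw [add_comm, card_inter_add_card_sdiff, hA.card]
    have hsa' : ((W \ A) \ H1).card + ((W \ A) ∩ H1).card = w := by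
      rw [add_comm, card_inter_add_card_sdiff, hA'.card]
    have hcov0 : ∀ x ∈ A, ∀ y ∈ W \ A, ¬ (y ∈ H1 ∧ x ∈ H1') →
        ¬ b2 (insert y (A.erase x)) ∨ ¬ b2 (insert x ((W \ A).erase y)) ∨
        (¬ b1 (insert s (insert y (A.erase x))) ∧
        ¬ b1 (insert s (insert x ((W \ A).erase y)))) := by
      intro x hx y hy hnn
      by_contra hcc
      push Not at hcc
      have hsw' : Swap w W b2 A x y := (swap_iff hA hx hy).mpr ⟨hcc.1, hcc.2.1⟩
      rcases hsw x hx y hy hsw' with h | h
      · exact hnn h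
      · exact h.2.2 (hcc.2.2 h.2.1)
    have hF : ∀ x ∈ A, ∀ x' ∈ A, ∀ y ∈ W \ A, ¬ b2 (insert y (A.erase x)) →
        ¬ b2 (insert y (A.erase x')) → x = x' := fun x hx x' hx' y hy =>
      h2.F_unique' hA hx hx' hy
    have hG : ∀ x ∈ A, ∀ y ∈ W \ A, ∀ y' ∈ W \ A, ¬ b2 (insert x ((W \ A).erase y)) →
        ¬ b2 (insert x ((W \ A).erase y')) → y = y' := fun x hx y hy y' hy' =>
      h2.G_unique hA hx hy hy'
    -- cardinalities and memberships
    have hc1 : ∀ x ∈ A, ∀ y ∈ W \ A, insert s (insert y (A.erase x)) ⊆ U ∧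
        (insert s (insert y (A.erase x))).card = u := by
      intro x hx y hy
      have hyA : y ∉ A.erase x := fun hc => (mem_sdiff.mp hy).2 (mem_of_mem_erase hc)
      refine ⟨insert_subset hsU (insert_subset (hWU (mem_sdiff.mp hy).1)
        ((erase_subset _ _).trans (hA.sub.trans hWU))), ?_⟩
      rw [card_insert_of_notMem, card_insert_of_notMem hyA, card_erase_of_mem hx, hA.card]
      · omega
      · rw [mem_insert]
        rintro (h | h)
        · exact hsW (h ▸ (mem_sdiff.mp hy).1)
        · exact hsW (hA.sub (mem_of_mem_erase h))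
    have hc2 : ∀ x ∈ A, ∀ y ∈ W \ A, insert s (insert x ((W \ A).erase y)) ⊆ U ∧
        (insert s (insert x ((W \ A).erase y))).card = u := by
      intro x hx y hy
      have hxA : x ∉ (W \ A).erase y := fun hc => (mem_sdiff.mp (mem_of_mem_erase hc)).2 hx
      refine ⟨insert_subset hsU (insert_subset (hWU (hA.sub hx))
        ((erase_subset _ _).trans (hA'.sub.trans hWU))), ?_⟩
      rw [card_insert_of_notMem, card_insert_of_notMem hxA, card_erase_of_mem hy, hA'.card]
      · omega
      · rw [mem_insert]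
        rintro (h | h)
        · exact hsW (h ▸ hA.sub hx)
        · exact hsW (hA'.sub (mem_of_mem_erase h))
    have hMx : ∀ x ∈ A, ∀ y ∈ W \ A, ∀ y' ∈ W \ A,
        (¬ b1 (insert s (insert y (A.erase x))) ∧ ¬ b1 (insert s (insert x ((W \ A).erase y)))) →
        (¬ b1 (insert s (insert y' (A.erase x))) ∧ ¬ b1 (insert s (insert x ((W \ A).erase y')))) →
        y = y' := by
      intro x hx y hy y' hy' e1 e2
      by_contra hne
      obtain ⟨K, hK, hKs⟩ := h1.exists_fl_of_not (by omega) (hc2 x hx y hy).1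
        (hc2 x hx y hy).2 e1.2
      obtain ⟨K', hK', hKs'⟩ := h1.exists_fl_of_not (by omega) (hc2 x hx y' hy').1
        (hc2 x hx y' hy').2 e2.2
      have hxA : x ∉ ((W \ A).erase y).erase y' := fun hc =>
        (mem_sdiff.mp (mem_of_mem_erase (mem_of_mem_erase hc))).2 hx
      have hsA : s ∉ insert x (((W \ A).erase y).erase y') := by
        rw [mem_insert]
        rintro (h | h)
        · exact hsW (h ▸ hA.sub hx)
        · exact hsW (hA'.sub (mem_of_mem_erase (mem_of_mem_erase h)))
      have heq := hK.eq_of_sub hK' (by omega)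
        (K := insert s (insert x (((W \ A).erase y).erase y')))
        ((insert_subset_insert _ (insert_subset_insert _ (erase_subset _ _))).trans hKs)
        (by
          rw [erase_right_comm]
          exact (insert_subset_insert _ (insert_subset_insert _ (erase_subset _ _))).trans hKs')
        (by
          rw [card_insert_of_notMem hsA, card_insert_of_notMem hxA,
            card_erase_of_mem (mem_erase.mpr ⟨Ne.symm hne, hy'⟩), card_erase_of_mem hy,
            hA'.card]
          omega)
      have hsubK : W \ A ⊆ K := by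
        intro z hz
        by_cases hzy : z = y
        · rw [heq]
          exact hKs' (mem_insert_of_mem (mem_insert_of_mem
            (mem_erase.mpr ⟨by rw [hzy]; exact hne, hz⟩)))
        · exact hKs (mem_insert_of_mem (mem_insert_of_mem (mem_erase.mpr ⟨hzy, hz⟩)))
      have heq2 := hK.eq_of_sub hH1' (by omega) (K := W \ A) hsubK hA'H1'
        (by rw [hA'.card]; omega)
      exact hsH1' (heq2 ▸ hKs (mem_insert_self _ _))
    have hMy : ∀ x ∈ A, ∀ x' ∈ A, ∀ y ∈ W \ A,
        (¬ b1 (insert s (insert y (A.erase x))) ∧ ¬ b1 (insert s (insert x ((W \ A).erase y)))) →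
        (¬ b1 (insert s (insert y (A.erase x'))) ∧ ¬ b1 (insert s (insert x' ((W \ A).erase y)))) →
        x = x' := by
      intro x hx x' hx' y hy e1 e2
      by_contra hne
      obtain ⟨K, hK, hKs⟩ := h1.exists_fl_of_not (by omega) (hc1 x hx y hy).1
        (hc1 x hx y hy).2 e1.1
      obtain ⟨K', hK', hKs'⟩ := h1.exists_fl_of_not (by omega) (hc1 x' hx' y hy).1
        (hc1 x' hx' y hy).2 e2.1
      have hyA : y ∉ (A.erase x).erase x' := fun hc =>
        (mem_sdiff.mp hy).2 (mem_of_mem_erase (mem_of_mem_erase hc))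
      have hsA : s ∉ insert y ((A.erase x).erase x') := by
        rw [mem_insert]
        rintro (h | h)
        · exact hsW (h ▸ (mem_sdiff.mp hy).1)
        · exact hsW (hA.sub (mem_of_mem_erase (mem_of_mem_erase h)))
      have heq := hK.eq_of_sub hK' (by omega)
        (K := insert s (insert y ((A.erase x).erase x')))
        ((insert_subset_insert _ (insert_subset_insert _ (erase_subset _ _))).trans hKs)
        (by
          rw [erase_right_comm]
          exact (insert_subset_insert _ (insert_subset_insert _ (erase_subset _ _))).trans hKs')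
        (by
          rw [card_insert_of_notMem hsA, card_insert_of_notMem hyA,
            card_erase_of_mem (mem_erase.mpr ⟨Ne.symm hne, hx'⟩), card_erase_of_mem hx,
            hA.card]
          omega)
      have hsubK : A ⊆ K := by
        intro z hz
        by_cases hzy : z = x
        · rw [heq]
          exact hKs' (mem_insert_of_mem (mem_insert_of_mem
            (mem_erase.mpr ⟨by rw [hzy]; exact hne, hz⟩)))
        · exact hKs (mem_insert_of_mem (mem_insert_of_mem (mem_erase.mpr ⟨hzy, hz⟩)))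
      have heq2 := hK.eq_of_sub hH1 (by omega) (K := A) hsubK hAH1
        (by rw [hA.card]; omega)
      exact hsH1 (heq2 ▸ hKs (mem_insert_self _ _))
    rcases Nat.lt_or_ge w 4 with hw4 | hw4
    · have hw3 : w = 3 := by omega
      subst hw3
      have hu4 : u = 4 := by omega
      subst hu4
      have hcov : ∀ x ∈ A, ∀ y ∈ W \ A, ¬ b2 (insert y (A.erase x)) ∨
          ¬ b2 (insert x ((W \ A).erase y)) ∨
          (¬ b1 (insert s (insert y (A.erase x))) ∧
          ¬ b1 (insert s (insert x ((W \ A).erase y)))) := by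
        intro x hx y hy
        refine hcov0 x hx y hy ?_
        rintro ⟨h, h'⟩
        have c1 := card_pos.mpr ⟨x, mem_inter.mpr ⟨hx, h'⟩⟩
        have c2 := card_pos.mpr ⟨y, mem_inter.mpr ⟨hy, h⟩⟩
        omega
      classical
      set SF := (A ×ˢ (W \ A)).filter (fun p => ¬ b2 (insert p.2 (A.erase p.1))) with hSF
      set SG := (A ×ˢ (W \ A)).filter (fun p => ¬ b2 (insert p.1 ((W \ A).erase p.2))) with hSG
      set SM := (A ×ˢ (W \ A)).filter (fun p => (¬ b1 (insert s (insert p.2 (A.erase p.1))) ∧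
          ¬ b1 (insert s (insert p.1 ((W \ A).erase p.2))))) with hSM
      have k1 : SF.card ≤ (W \ A).card :=
        card_le_of_fst (fun x y => ¬ b2 (insert y (A.erase x))) hF
      have k2 : SG.card ≤ A.card :=
        card_le_of_snd (fun x y => ¬ b2 (insert x ((W \ A).erase y))) hG
      have hsub : A ×ˢ (W \ A) ⊆ SF ∪ (SG ∪ SM) := by
        intro p hp
        have hp' := mem_product.mp hp
        rcases hcov _ hp'.1 _ hp'.2 with h | h | h
        · exact mem_union_left _ (mem_filter.mpr ⟨hp, h⟩)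
        · exact mem_union_right _ (mem_union_left _ (mem_filter.mpr ⟨hp, h⟩))
        · exact mem_union_right _ (mem_union_right _ (mem_filter.mpr ⟨hp, h⟩))
      have k3 := card_le_card hsub
      rw [card_product, hA.card, hA'.card] at k3
      rw [hA'.card] at k1
      rw [hA.card] at k2
      have k4 := card_union_le SF (SG ∪ SM)
      have k5 := card_union_le SG SM
      have k6 : 1 < SM.card := by omega
      obtain ⟨p, hp, q, hq, hpq⟩ := one_lt_card.mp k6
      have hp1 := mem_filter.mp hp
      have hq1 := mem_filter.mp hq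
      have hp2 := mem_product.mp hp1.1
      have hq2 := mem_product.mp hq1.1
      obtain ⟨x1, y1⟩ := p
      obtain ⟨x2, y2⟩ := q
      simp only at hp1 hq1 hp2 hq2
      have hyne : y1 ≠ y2 := by
        intro h
        apply hpq
        subst h
        rw [hMy x1 hp2.1 x2 hq2.1 y1 hp2.2 hp1.2 hq1.2]
      have hxne : x1 ≠ x2 := by
        intro h
        apply hpq
        subst h
        rw [hMx x1 hp2.1 y1 hp2.2 y2 hq2.2 hp1.2 hq1.2]
      obtain ⟨K1, hK1, hK1s⟩ := h1.exists_fl_of_not (by omega) (hc1 x1 hp2.1 y1 hp2.2).1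
        (hc1 x1 hp2.1 y1 hp2.2).2 hp1.2.1
      obtain ⟨K2, hK2, hK2s⟩ := h1.exists_fl_of_not (by omega) (hc1 x2 hq2.1 y2 hq2.2).1
        (hc1 x2 hq2.1 y2 hq2.2).2 hq1.2.1
      obtain ⟨K1', hK1', hK1s'⟩ := h1.exists_fl_of_not (by omega) (hc2 x1 hp2.1 y1 hp2.2).1
        (hc2 x1 hp2.1 y1 hp2.2).2 hp1.2.2
      obtain ⟨K2', hK2', hK2s'⟩ := h1.exists_fl_of_not (by omega) (hc2 x2 hq2.1 y2 hq2.2).1
        (hc2 x2 hq2.1 y2 hq2.2).2 hq1.2.2
      have hxy : ∀ x ∈ A, ∀ y ∈ W \ A, x ≠ y := by
        rintro x hx y hy rfl; exact (mem_sdiff.mp hy).2 hx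
      have hsx : ∀ x ∈ W, s ≠ x := by rintro x hx rfl; exact hsW hx
      have e12 : K1 = K2' := by
        refine hK1.eq_of_sub hK2' (by omega) (K := {s, y1, x2}) ?_ ?_ ?_
        · intro z hz
          simp only [mem_insert, mem_singleton] at hz
          rcases hz with rfl | rfl | rfl
          · exact hK1s (by simp)
          · exact hK1s (by simp)
          · exact hK1s (by simp [hq2.1, Ne.symm hxne])
        · intro z hz
          simp only [mem_insert, mem_singleton] at hz
          rcases hz with rfl | rfl | rfl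
          · exact hK2s' (by simp)
          · exact hK2s' (mem_insert_of_mem (mem_insert_of_mem (mem_erase.mpr ⟨hyne, hp2.2⟩)))
          · exact hK2s' (by simp)
        · rw [card_insert_of_notMem, card_pair (hxy _ hq2.1 _ hp2.2).symm]
          simp only [mem_insert, mem_singleton, not_or]
          exact ⟨hsx _ (mem_sdiff.mp hp2.2).1, hsx _ (hA.sub hq2.1)⟩
      have e21 : K2 = K1' := by
        refine hK2.eq_of_sub hK1' (by omega) (K := {s, y2, x1}) ?_ ?_ ?_
        · intro z hz
          simp only [mem_insert, mem_singleton] at hz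
          rcases hz with rfl | rfl | rfl
          · exact hK2s (by simp)
          · exact hK2s (by simp)
          · exact hK2s (by simp [hp2.1, hxne])
        · intro z hz
          simp only [mem_insert, mem_singleton] at hz
          rcases hz with rfl | rfl | rfl
          · exact hK1s' (by simp)
          · exact hK1s' (mem_insert_of_mem (mem_insert_of_mem
              (mem_erase.mpr ⟨Ne.symm hyne, hq2.2⟩)))
          · exact hK1s' (by simp)
        · rw [card_insert_of_notMem, card_pair (hxy _ hp2.1 _ hq2.2).symm]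
          simp only [mem_insert, mem_singleton, not_or]
          exact ⟨hsx _ (mem_sdiff.mp hq2.2).1, hsx _ (hA.sub hp2.1)⟩
      have hin1 : ∀ z ∈ A, z ≠ x1 → z ∈ K1 := fun z hz hz' =>
        hK1s (mem_insert_of_mem (mem_insert_of_mem (mem_erase.mpr ⟨hz', hz⟩)))
      have hin2 : ∀ z ∈ A, z ≠ x2 → z ∈ K2 := fun z hz hz' =>
        hK2s (mem_insert_of_mem (mem_insert_of_mem (mem_erase.mpr ⟨hz', hz⟩)))
      have hin1' : ∀ z ∈ W \ A, z ≠ y2 → z ∈ K1 := fun z hz hz' =>
        e12 ▸ hK2s' (mem_insert_of_mem (mem_insert_of_mem (mem_erase.mpr ⟨hz', hz⟩)))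
      have hin2' : ∀ z ∈ W \ A, z ≠ y1 → z ∈ K2 := fun z hz hz' =>
        e21 ▸ hK1s' (mem_insert_of_mem (mem_insert_of_mem (mem_erase.mpr ⟨hz', hz⟩)))
      -- a third element on each side
      obtain ⟨x3, hx3⟩ : ((A.erase x1).erase x2).Nonempty := by
        apply card_pos.mp
        rw [card_erase_of_mem (mem_erase.mpr ⟨Ne.symm hxne, hq2.1⟩), card_erase_of_mem hp2.1,
          hA.card]
        norm_num
      obtain ⟨y3, hy3⟩ : (((W \ A).erase y1).erase y2).Nonempty := by
        apply card_pos.mp
        rw [card_erase_of_mem (mem_erase.mpr ⟨Ne.symm hyne, hq2.2⟩), card_erase_of_mem hp2.2,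
          hA'.card]
        norm_num
      rw [mem_erase, mem_erase] at hx3 hy3
      have e : K1 = K2 := by
        refine hK1.eq_of_sub hK2 (by omega) (K := {s, y3, x3}) ?_ ?_ ?_
        · intro z hz
          simp only [mem_insert, mem_singleton] at hz
          rcases hz with rfl | rfl | rfl
          · exact hK1s (by simp)
          · exact hin1' _ hy3.2.2 hy3.1
          · exact hin1 _ hx3.2.2 hx3.2.1
        · intro z hz
          simp only [mem_insert, mem_singleton] at hz
          rcases hz with rfl | rfl | rfl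
          · exact hK2s (by simp)
          · exact hin2' _ hy3.2.2 hy3.2.1
          · exact hin2 _ hx3.2.2 hx3.1
        · rw [card_insert_of_notMem, card_pair (hxy _ hx3.2.2 _ hy3.2.2).symm]
          simp only [mem_insert, mem_singleton, not_or]
          exact ⟨hsx _ (mem_sdiff.mp hy3.2.2).1, hsx _ (hA.sub hx3.2.2)⟩
      have hWK : W ⊆ K1 := by
        intro z hz
        by_cases hzA : z ∈ A
        · by_cases hzx : z = x1
          · rw [e]; exact hin2 z hzA (by rw [hzx]; exact hxne)
          · exact hin1 z hzA hzx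
        · have hz' : z ∈ W \ A := mem_sdiff.mpr ⟨hz, hzA⟩
          by_cases hzy : z = y2
          · rw [e]; exact hin2' z hz' (by rw [hzy]; exact Ne.symm hyne)
          · exact hin1' z hz' hzy
      have := card_le_card hWK
      rw [h2.card] at this
      have := hno K1 hK1
      omega
    · rcases Nat.lt_or_ge (A \ H1').card 3 with hc3 | hc3
      · obtain ⟨Q1, hQ1, hQ1c⟩ := exists_subset_card_eq (show 4 ≤ A.card by rw [hA.card]; exact hw4)
        obtain ⟨Q2, hQ2, hQ2c⟩ := exists_subset_card_eq
          (show 3 ≤ ((W \ A) \ H1).card by omega)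
        have hQ2' : Q2 ⊆ W \ A := hQ2.trans sdiff_subset
        have := cover3' (Q1 := Q1) (Q2 := Q2) _ _ _
          (fun x hx x' hx' y hy => hF x (hQ1 hx) x' (hQ1 hx') y (hQ2' hy))
          (fun x hx y hy y' hy' => hG x (hQ1 hx) y (hQ2' hy) y' (hQ2' hy'))
          (fun x hx x' hx' y hy => hMy x (hQ1 hx) x' (hQ1 hx') y (hQ2' hy))
          (fun x hx y hy => hcov0 x (hQ1 hx) y (hQ2' hy)
            (fun hc => (mem_sdiff.mp (hQ2 hy)).2 hc.1))
        rw [hQ1c, hQ2c] at this
        omega
      · obtain ⟨Q1, hQ1, hQ1c⟩ := exists_subset_card_eq hc3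
        obtain ⟨Q2, hQ2, hQ2c⟩ := exists_subset_card_eq
          (show 4 ≤ (W \ A).card by rw [hA'.card]; exact hw4)
        have hQ1' : Q1 ⊆ A := hQ1.trans sdiff_subset
        have := cover3 (Q1 := Q1) (Q2 := Q2) _ _ _
          (fun x hx x' hx' y hy => hF x (hQ1' hx) x' (hQ1' hx') y (hQ2 hy))
          (fun x hx y hy y' hy' => hG x (hQ1' hx) y (hQ2 hy) y' (hQ2 hy'))
          (fun x hx y hy y' hy' => hMx x (hQ1' hx) y (hQ2 hy) y' (hQ2 hy'))
          (fun x hx y hy => hcov0 x (hQ1' hx) y (hQ2 hy)
            (fun hc => (mem_sdiff.mp (hQ1 hx)).2 hc.2))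
        rw [hQ1c, hQ2c] at this
        omega

/-- Common trace lemma, `W ⊆ U`, ranks `3 ≤ w < u`. -/
theorem ctl_three (h1 : PF u U b1) (h2 : PF w W b2) (hWU : W ⊆ U) (hw : 3 ≤ w) (hwu : w < u) :
    ∃ X, Good u U b1 X ∧ Good w W b2 (X ∩ W) := by
  by_contra hcon
  have hno : ∀ H, Fl u U b1 H → H.card + 3 ≤ 2 * u := by
    intro H hH
    by_contra hc
    exact hcon (ctl_sub_big h1 h2 hWU hwu hH (by omega))
  have hE : ∀ A, Good w W b2 A → MissE u U W b1 A := fun A hA =>
    missE_of_not h1 h2 hWU hwu hcon hA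
  have hE1 : ∀ A, Good w W b2 A → ∀ H, Fl u U b1 H → ¬ A ∪ (U \ W) ⊆ H :=
    fun A hA H hH hs => c1_aux h1 h2 hWU hw hwu hno hE hA hH hs
  refine c3_aux h1 h2 hWU hw hwu hno ?_ hE1
  intro A hA
  rcases hE A hA with ⟨H, hH, hs⟩ | ⟨H, hH, hs⟩ | h
  · exact absurd hs (hE1 A hA H hH)
  · exact absurd hs (hE1 (W \ A) (hA.compl h2.card) H hH)
  · exact h

end Pool.Agent.H94
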