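import Pool.Agent.H94.CtlC

set_option autoImplicit false

namespace Pool.Agent.H94

open Finset

variable {α : Type*} [DecidableEq α]
variable {n u w p : ℕ} {U W : Finset α} {b b1 b2 : Finset α → Prop}

/-- The exceptional configuration: the first structure is of rank three (a complete graph on
four vertices), the second of rank two on a four cycle of it. -/
structure Exc (U W : Finset α) (b1 b2 : Finset α → Prop) : Prop where
  hWU : W ⊆ U
  cU : U.card = 6
  cW : W.card = 4
  cyc : ∃ x y p q : α, W = {x, y, p, q} ∧ x ≠ y ∧ x ≠ p ∧ x ≠ q ∧ y ≠ p ∧ y ≠ q ∧ p ≠ q ∧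
    Good 2 W b2 {x, p} ∧ Good 2 W b2 {p, y} ∧ Good 2 W b2 {y, q} ∧ Good 2 W b2 {q, x}
  good1 : ∀ z ∈ W, Good 3 U b1 (W.erase z)
  bad1 : ∀ z ∈ W, ∀ c ∈ U \ W, ∃ z' ∈ W, z' ≠ z ∧ ¬ Good 3 U b1 {z, z', c}

theorem ctl_one (h1 : PF u U b1) (h2 : PF 1 W b2) (hWU : W ⊆ U) :
    ∃ X, Good u U b1 X ∧ Good 1 W b2 (X ∩ W) := by
  obtain ⟨Z, hZ⟩ := h2.exists_good
  obtain ⟨a, c, hac, hW⟩ := card_eq_two.mp (show W.card = 2 by rw [h2.card])
  have haW : a ∈ W := by rw [hW]; simp
  have hcW : c ∈ W := by rw [hW]; simp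
  obtain ⟨X, hX, h3, h4⟩ := h1.exists_sep (hWU haW) hac (hWU hcW)
  refine ⟨X, hX, ?_⟩
  have hXW : X ∩ W = {a} := by
    ext z
    rw [mem_inter, hW]
    simp only [mem_insert, mem_singleton]
    constructor
    · rintro ⟨h, rfl | rfl⟩
      · rfl
      · exact absurd h h4
    · rintro rfl; exact ⟨h3, Or.inl rfl⟩
  rw [hXW]
  by_cases haZ : a ∈ Z
  · have : Z = {a} := by
      refine (eq_of_subset_of_card_le (singleton_subset_iff.mpr haZ) ?_).symm
      rw [hZ.card, card_singleton]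
    rw [← this]; exact hZ
  · have hZ' := hZ.compl h2.card
    have : W \ Z = {a} := by
      refine (eq_of_subset_of_card_le (singleton_subset_iff.mpr (mem_sdiff.mpr ⟨haW, haZ⟩)) ?_).symm
      rw [hZ'.card, card_singleton]
    rw [← this]; exact hZ'

theorem ctl_two_ge (h1 : PF u U b1) (h2 : PF 2 W b2) (hWU : W ⊆ U) (hu : 4 ≤ u) :
    ∃ X, Good u U b1 X ∧ Good 2 W b2 (X ∩ W) := by
  by_contra hcon
  have hno : ∀ H, Fl u U b1 H → H.card + 3 ≤ 2 * u := by
    intro H hH
    by_contra hc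
    exact hcon (ctl_sub_big h1 h2 hWU (by omega) hH (by omega))
  have hRc : (U \ W).card + 2 * 2 = 2 * u := by
    have := card_sdiff_add_card_eq_card hWU
    rw [h1.card, h2.card] at this; exact this
  obtain ⟨A, hA⟩ := h2.exists_good
  have hA' := hA.compl h2.card
  rcases missE_of_not h1 h2 hWU (by omega) hcon hA with ⟨H, hH, hs⟩ | ⟨H, hH, hs⟩ |
    ⟨s, hs', K, K', hK, hK', hKs, hKs'⟩
  · have := card_le_card hs
    rw [card_union_of_disjoint (disj_of hA.sub (Subset.refl _)), hA.card] at this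
    have := hno H hH
    omega
  · have := card_le_card hs
    rw [card_union_of_disjoint (disj_of hA'.sub (Subset.refl _)), hA'.card] at this
    have := hno H hH
    omega
  · have heq := hK.eq_of_sub hK' (by omega) (K := (U \ W).erase s)
      (subset_union_right.trans hKs) (subset_union_right.trans hKs')
      (by rw [card_erase_of_mem hs']; omega)
    have hsub : W ∪ (U \ W).erase s ⊆ K := by
      intro z hz
      rw [mem_union] at hz
      rcases hz with hz | hz
      · by_cases hzA : z ∈ A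
        · exact hKs (mem_union_left _ hzA)
        · rw [heq]; exact hKs' (mem_union_left _ (mem_sdiff.mpr ⟨hz, hzA⟩))
      · exact hKs (mem_union_right _ hz)
    have hc := card_le_card hsub
    rw [card_union_of_disjoint (disj_of (Subset.refl _) (erase_subset _ _)), h2.card,
      card_erase_of_mem hs'] at hc
    have := hno K hK
    omega

private theorem CtlD_p (a b' c' : α) : ({a, b', c'} : Finset α) = {c', a, b'} := by
  ext v
  simp only [mem_insert, mem_singleton]
  constructor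
  · rintro (h | h | h)
    exacts [Or.inr (Or.inl h), Or.inr (Or.inr h), Or.inl h]
  · rintro (h | h | h)
    exacts [Or.inr (Or.inr h), Or.inl h, Or.inr (Or.inl h)]

private theorem CtlD_q (a b' c' : α) : ({a, b', c'} : Finset α) = {c', b', a} := by
  ext v
  simp only [mem_insert, mem_singleton]
  constructor
  · rintro (h | h | h)
    exacts [Or.inr (Or.inr h), Or.inr (Or.inl h), Or.inl h]
  · rintro (h | h | h)
    exacts [Or.inr (Or.inr h), Or.inr (Or.inl h), Or.inl h]

private theorem CtlD_a {x p y : α} (hxp : x ≠ p) : insert y (({x, p} : Finset α).erase x) = {p, y} := by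
  rw [erase_insert (by rw [mem_singleton]; exact hxp), Finset.pair_comm]

private theorem CtlD_b {x y p q : α} (hpq : p ≠ q) (hqy : q ≠ y) (hxp : x ≠ p) (hxy : x ≠ y) :
    ({x, y, p, q} : Finset α) \ {p, y} = {q, x} := by
  ext z
  simp only [mem_insert, mem_sdiff, mem_singleton, not_or]
  constructor
  · rintro ⟨h | h | h | h, h1, h2⟩
    exacts [Or.inr h, absurd h h2, absurd h h1, Or.inl h]
  · rintro (rfl | rfl)
    · exact ⟨Or.inr (Or.inr (Or.inr rfl)), Ne.symm hpq, hqy⟩
    · exact ⟨Or.inl rfl, hxp, hxy⟩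

theorem ctl_two_three (h1 : PF 3 U b1) (h2 : PF 2 W b2) (hWU : W ⊆ U) :
    (∃ X, Good 3 U b1 X ∧ Good 2 W b2 (X ∩ W)) ∨ Exc U W b1 b2 := by
  by_cases hcon : ∃ X, Good 3 U b1 X ∧ Good 2 W b2 (X ∩ W)
  · exact Or.inl hcon
  refine Or.inr ?_
  have hno : ∀ H, Fl 3 U b1 H → H.card + 3 ≤ 2 * 3 := by
    intro H hH
    by_contra hc
    exact hcon (ctl_sub_big h1 h2 hWU (by omega) hH (by omega))
  have hU6 : U.card = 6 := h1.card
  have hW4 : W.card = 4 := h2.card
  have hRc : (U \ W).card = 2 := by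
    rw [card_sdiff_of_subset hWU, hU6, hW4]
  -- two nonbases sharing two elements are equal
  have hline : ∀ S S' : Finset α, S ⊆ U → S' ⊆ U → S.card = 3 → S'.card = 3 → ¬ b1 S → ¬ b1 S' →
      ∀ z1 z2, z1 ≠ z2 → z1 ∈ S → z1 ∈ S' → z2 ∈ S → z2 ∈ S' → ∀ z ∈ S, z ∈ S' := by
    intro S S' hS hS' hc hc' hb hb' z1 z2 hne m1 m1' m2 m2' z hz
    obtain ⟨K, hK, hKs⟩ := h1.exists_fl_of_not (by omega) hS hc hb
    obtain ⟨K', hK', hKs'⟩ := h1.exists_fl_of_not (by omega) hS' hc' hb'
    have heq := hK.eq_of_sub hK' (by omega) (K := {z1, z2})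
      (by
        intro v hv; rw [mem_insert, mem_singleton] at hv
        rcases hv with rfl | rfl
        · exact hKs m1
        · exact hKs m2)
      (by
        intro v hv; rw [mem_insert, mem_singleton] at hv
        rcases hv with rfl | rfl
        · exact hKs' m1'
        · exact hKs' m2')
      (by rw [card_pair hne])
    have h3 := hno K hK
    have e1 : S' = K := eq_of_subset_of_card_le (heq ▸ hKs') (by omega)
    rw [e1]; exact hKs hz
  -- lines from good sets
  have hL : ∀ A, Good 2 W b2 A → ∃ c ∈ U \ W, ¬ b1 (insert c A) ∧ ¬ b1 (insert c (W \ A)) := by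
    intro A hA
    have hA' := hA.compl h2.card
    rcases missE_of_not h1 h2 hWU (by omega) hcon hA with ⟨H, hH, hs⟩ | ⟨H, hH, hs⟩ |
      ⟨s, hs', K, K', hK, hK', hKs, hKs'⟩
    · have := card_le_card hs
      rw [card_union_of_disjoint (disj_of hA.sub (Subset.refl _)), hA.card] at this
      have := hno H hH
      omega
    · have := card_le_card hs
      rw [card_union_of_disjoint (disj_of hA'.sub (Subset.refl _)), hA'.card] at this
      have := hno H hH
      omega
    · have hc1 : ((U \ W).erase s).card = 1 := by rw [card_erase_of_mem hs', hRc]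
      obtain ⟨c, hc⟩ := card_eq_one.mp hc1
      have hcR : c ∈ U \ W := by
        have : c ∈ (U \ W).erase s := by rw [hc]; simp
        exact (mem_erase.mp this).2
      have hcW : c ∉ W := (mem_sdiff.mp hcR).2
      rw [hc] at hKs hKs'
      refine ⟨c, hcR, ?_, ?_⟩
      · refine hK.dep _ ?_ ?_
        · intro z hz
          rw [mem_insert] at hz
          rcases hz with rfl | hz
          · exact hKs (mem_union_right _ (mem_singleton_self _))
          · exact hKs (mem_union_left _ hz)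
        · rw [card_insert_of_notMem (fun h => hcW (hA.sub h)), hA.card]
      · refine hK'.dep _ ?_ ?_
        · intro z hz
          rw [mem_insert] at hz
          rcases hz with rfl | hz
          · exact hKs' (mem_union_right _ (mem_singleton_self _))
          · exact hKs' (mem_union_left _ hz)
        · rw [card_insert_of_notMem (fun h => hcW (hA'.sub h)), hA'.card]
  obtain ⟨A, hA⟩ := h2.exists_good
  have hA' := hA.compl h2.card
  obtain ⟨x, p, hxp, hAe⟩ := card_eq_two.mp hA.card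
  have hxA : x ∈ A := by rw [hAe]; simp
  have hpA : p ∈ A := by rw [hAe]; simp
  obtain ⟨y, hy, hsw⟩ := h2.symm_exch hA hxA
  have hqc : ((W \ A).erase y).card = 1 := by rw [card_erase_of_mem hy, hA'.card]
  obtain ⟨q, hq⟩ := card_eq_one.mp hqc
  have hqm : q ∈ (W \ A).erase y := by rw [hq]; simp
  have hqy : q ≠ y := (mem_erase.mp hqm).1
  have hqA : q ∈ W \ A := (mem_erase.mp hqm).2
  have hWA : W \ A = {y, q} := by
    rw [← insert_erase hy, hq]
  have hxW : x ∈ W := hA.sub hxA
  have hpW : p ∈ W := hA.sub hpA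
  have hyW : y ∈ W := (mem_sdiff.mp hy).1
  have hqW : q ∈ W := (mem_sdiff.mp hqA).1
  have hyA : y ∉ A := (mem_sdiff.mp hy).2
  have hqA' : q ∉ A := (mem_sdiff.mp hqA).2
  have hxy : x ≠ y := by rintro rfl; exact hyA hxA
  have hpy : p ≠ y := by rintro rfl; exact hyA hpA
  have hxq : x ≠ q := by rintro rfl; exact hqA' hxA
  have hpq : p ≠ q := by rintro rfl; exact hqA' hpA
  have hWe : W = {x, y, p, q} := by
    ext z
    simp only [mem_insert, mem_singleton]
    constructor
    · intro hz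
      by_cases hzA : z ∈ A
      · rw [hAe] at hzA; simp only [mem_insert, mem_singleton] at hzA
        rcases hzA with h | h
        · exact Or.inl h
        · exact Or.inr (Or.inr (Or.inl h))
      · have : z ∈ W \ A := mem_sdiff.mpr ⟨hz, hzA⟩
        rw [hWA] at this; simp only [mem_insert, mem_singleton] at this
        rcases this with h | h
        · exact Or.inr (Or.inl h)
        · exact Or.inr (Or.inr (Or.inr h))
    · rintro (rfl | rfl | rfl | rfl) <;> assumption
  have hA1 : insert y (A.erase x) = {p, y} := by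
    rw [hAe]; exact CtlD_a hxp
  have g1 : Good 2 W b2 {x, p} := hAe ▸ hA
  have g2 : Good 2 W b2 {p, y} := hA1 ▸ hsw
  have g3 : Good 2 W b2 {y, q} := hWA ▸ hA'
  have hA1c : W \ {p, y} = {q, x} := by
    rw [hWe]; exact CtlD_b hpq hqy hxp hxy
  have g4 : Good 2 W b2 {q, x} := hA1c ▸ g2.compl h2.card
  obtain ⟨c0, hc0, l1, l2⟩ := hL _ g1
  obtain ⟨c1, hc1, l3, l4⟩ := hL _ g2
  rw [← hAe, hWA] at l2
  rw [hA1c] at l4
  have hc0W : c0 ∉ W := (mem_sdiff.mp hc0).2
  have hc1W : c1 ∉ W := (mem_sdiff.mp hc1).2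
  have hc0U : c0 ∈ U := (mem_sdiff.mp hc0).1
  have hc1U : c1 ∈ U := (mem_sdiff.mp hc1).1
  have nc0 : ∀ z ∈ W, c0 ≠ z := by rintro z hz rfl; exact hc0W hz
  have nc1 : ∀ z ∈ W, c1 ≠ z := by rintro z hz rfl; exact hc1W hz
  -- subsets and cards
  have ctri : ∀ c v v' : α, c ∈ U → v ∈ W → v' ∈ W → v ≠ v' → c ∉ W →
      ({c, v, v'} : Finset α) ⊆ U ∧ ({c, v, v'} : Finset α).card = 3 := by
    intro c v v' hc hv hv' hne hcW
    refine ⟨?_, ?_⟩
    · intro z hz
      simp only [mem_insert, mem_singleton] at hz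
      rcases hz with rfl | rfl | rfl
      · exact hc
      · exact hWU hv
      · exact hWU hv'
    · rw [card_insert_of_notMem, card_pair hne]
      simp only [mem_insert, mem_singleton, not_or]
      exact ⟨by rintro rfl; exact hcW hv, by rintro rfl; exact hcW hv'⟩
  have hcc : c0 ≠ c1 := by
    rintro rfl
    have := hline {c0, x, p} {c0, p, y} (ctri _ _ _ hc0U hxW hpW hxp hc0W).1
      (ctri _ _ _ hc0U hpW hyW hpy hc0W).1 (ctri _ _ _ hc0U hxW hpW hxp hc0W).2
      (ctri _ _ _ hc0U hpW hyW hpy hc0W).2 l1 l3 c0 p (nc0 p hpW) (by simp) (by simp) (by simp)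
      (by simp) x (by simp)
    simp only [mem_insert, mem_singleton] at this
    rcases this with h | h | h
    · exact nc0 x hxW h.symm
    · exact hxp h
    · exact hxy h
  have hR : U \ W = {c0, c1} := by
    refine (eq_of_subset_of_card_le ?_ ?_).symm
    · intro z hz
      simp only [mem_insert, mem_singleton] at hz
      rcases hz with rfl | rfl
      · exact hc0
      · exact hc1
    · rw [hRc, card_pair hcc]
  -- base facts: every set not among the four lines but sharing two points with one of them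
  have hbase : ∀ c v v', c ∈ U → c ∉ W → v ∈ W → v' ∈ W → v ≠ v' → ¬ b1 {c, v, v'} →
      ∀ S : Finset α, S ⊆ U → S.card = 3 → ∀ z1 z2 z3, z1 ≠ z2 → z1 ∈ S → z2 ∈ S → z3 ∈ S →
      z1 ∈ ({c, v, v'} : Finset α) → z2 ∈ ({c, v, v'} : Finset α) →
      z3 ∉ ({c, v, v'} : Finset α) → b1 S := by
    intro c v v' hcU hcW hv hv' hne hb S hS hSc z1 z2 z3 h12 m1 m2 m3 k1 k2 k3
    by_contra hbS
    obtain ⟨t1, t2⟩ := ctri c v v' hcU hv hv' hne hcW
    exact k3 (hline S _ hS t1 hSc t2 hbS hb z1 z2 h12 m1 k1 m2 k2 z3 m3)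
  -- the sets W.erase z
  have hWec : ∀ z ∈ W, (W.erase z).card = 3 := fun z hz => by
    rw [card_erase_of_mem hz, hW4]
  have hWeU : ∀ z ∈ W, W.erase z ⊆ U := fun z _ => (erase_subset _ _).trans hWU
  have hco : ∀ z ∈ W, U \ W.erase z = {c0, c1, z} := by
    intro z hz
    ext v
    have hv : v ∈ U \ W ↔ v ∈ ({c0, c1} : Finset α) := by rw [hR]
    simp only [mem_sdiff, mem_insert, mem_singleton, mem_erase] at hv ⊢
    constructor
    · rintro ⟨h, h'⟩
      by_cases hvz : v = z
      · exact Or.inr (Or.inr hvz)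
      · have : v ∉ W := fun hc => h' ⟨hvz, hc⟩
        rcases hv.mp ⟨h, this⟩ with h | h
        · exact Or.inl h
        · exact Or.inr (Or.inl h)
    · rintro (rfl | rfl | rfl)
      · exact ⟨hc0U, fun h => hc0W h.2⟩
      · exact ⟨hc1U, fun h => hc1W h.2⟩
      · exact ⟨hWU hz, fun h => h.1 rfl⟩
  have hg1 : ∀ z ∈ W, b1 (W.erase z) → b1 {c0, c1, z} → Good 3 U b1 (W.erase z) := by
    intro z hz e1 e2
    exact ⟨hWeU z hz, hWec z hz, e1, by rw [hco z hz]; exact e2⟩
  have hctri : ∀ z ∈ W, ({c0, c1, z} : Finset α) ⊆ U ∧ ({c0, c1, z} : Finset α).card = 3 := by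
    intro z hz
    refine ⟨?_, ?_⟩
    · rw [← hco z hz]; exact sdiff_subset
    · rw [← hco z hz, card_sdiff_of_subset (hWeU z hz), hU6, hWec z hz]
  refine ⟨hWU, hU6, hW4, ⟨x, y, p, q, hWe, hxy, hxp, hxq, Ne.symm hpy, Ne.symm hqy, hpq, g1, g2,
    g3, g4⟩, ?_, ?_⟩
  · intro z hz
    have hz' := hz
    rw [hWe] at hz'
    simp only [mem_insert, mem_singleton] at hz'
    rcases hz' with rfl | rfl | rfl | rfl
    · -- z = x : W.erase x = {y, p, q}, use line {c1, p, y}
      refine hg1 _ hz (hbase c1 p y hc1U hc1W hpW hyW hpy l3 _ (hWeU _ hz) (hWec _ hz) p y q hpy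
        ?_ ?_ ?_ ?_ ?_ ?_) (hbase c0 z p hc0U hc0W hxW hpW hxp l1 _ (hctri _ hz).1 (hctri _ hz).2
        c0 z c1 (nc0 _ hxW) ?_ ?_ ?_ ?_ ?_ ?_)
      · exact mem_erase.mpr ⟨Ne.symm hxp, hpW⟩
      · exact mem_erase.mpr ⟨Ne.symm hxy, hyW⟩
      · exact mem_erase.mpr ⟨Ne.symm hxq, hqW⟩
      · simp
      · simp
      · simp only [mem_insert, mem_singleton, not_or]
        exact ⟨(nc1 _ hqW).symm, Ne.symm hpq, hqy⟩
      · simp
      · simp
      · simp
      · simp
      · simp
      · simp only [mem_insert, mem_singleton, not_or]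
        exact ⟨Ne.symm hcc, nc1 _ hxW, nc1 _ hpW⟩
    · -- z = y : W.erase y = {x, p, q}, line {c0, x, p}
      refine hg1 _ hz (hbase c0 x p hc0U hc0W hxW hpW hxp l1 _ (hWeU _ hz) (hWec _ hz) x p q hxp
        ?_ ?_ ?_ ?_ ?_ ?_) (hbase c0 z q hc0U hc0W hyW hqW (Ne.symm hqy) l2 _ (hctri _ hz).1
        (hctri _ hz).2 c0 z c1 (nc0 _ hyW) ?_ ?_ ?_ ?_ ?_ ?_)
      · exact mem_erase.mpr ⟨hxy, hxW⟩
      · exact mem_erase.mpr ⟨hpy, hpW⟩
      · exact mem_erase.mpr ⟨hqy, hqW⟩
      · simp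
      · simp
      · simp only [mem_insert, mem_singleton, not_or]
        exact ⟨(nc0 _ hqW).symm, Ne.symm hxq, Ne.symm hpq⟩
      · simp
      · simp
      · simp
      · simp
      · simp
      · simp only [mem_insert, mem_singleton, not_or]
        exact ⟨Ne.symm hcc, nc1 _ hyW, nc1 _ hqW⟩
    · -- z = p : W.erase p = {x, y, q}, line {c0, y, q}
      refine hg1 _ hz (hbase c0 y q hc0U hc0W hyW hqW (Ne.symm hqy) l2 _ (hWeU _ hz) (hWec _ hz)
        y q x (Ne.symm hqy) ?_ ?_ ?_ ?_ ?_ ?_) (hbase c0 x z hc0U hc0W hxW hpW hxp l1 _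
        (hctri _ hz).1 (hctri _ hz).2 c0 z c1 (nc0 _ hpW) ?_ ?_ ?_ ?_ ?_ ?_)
      · exact mem_erase.mpr ⟨Ne.symm hpy, hyW⟩
      · exact mem_erase.mpr ⟨Ne.symm hpq, hqW⟩
      · exact mem_erase.mpr ⟨hxp, hxW⟩
      · simp
      · simp
      · simp only [mem_insert, mem_singleton, not_or]
        exact ⟨(nc0 _ hxW).symm, hxy, hxq⟩
      · simp
      · simp
      · simp
      · simp
      · simp
      · simp only [mem_insert, mem_singleton, not_or]
        exact ⟨Ne.symm hcc, nc1 _ hxW, nc1 _ hpW⟩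
    · -- z = q : W.erase q = {x, y, p}, line {c0, x, p}
      refine hg1 _ hz (hbase c0 x p hc0U hc0W hxW hpW hxp l1 _ (hWeU _ hz) (hWec _ hz) x p y hxp
        ?_ ?_ ?_ ?_ ?_ ?_) (hbase c0 y z hc0U hc0W hyW hqW (Ne.symm hqy) l2 _ (hctri _ hz).1
        (hctri _ hz).2 c0 z c1 (nc0 _ hqW) ?_ ?_ ?_ ?_ ?_ ?_)
      · exact mem_erase.mpr ⟨hxq, hxW⟩
      · exact mem_erase.mpr ⟨hpq, hpW⟩
      · exact mem_erase.mpr ⟨Ne.symm hqy, hyW⟩
      · simp
      · simp
      · simp only [mem_insert, mem_singleton, not_or]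
        exact ⟨(nc0 _ hyW).symm, Ne.symm hxy, Ne.symm hpy⟩
      · simp
      · simp
      · simp
      · simp
      · simp
      · simp only [mem_insert, mem_singleton, not_or]
        exact ⟨Ne.symm hcc, nc1 _ hyW, nc1 _ hqW⟩
  · intro z hz c hc
    rw [hR] at hc
    have hz' := hz
    rw [hWe] at hz'
    simp only [mem_insert, mem_singleton] at hz' hc
    have hperm : ∀ a b' c' : α, ({a, b', c'} : Finset α) = {c', a, b'} := CtlD_p
    have hperm2 : ∀ a b' c' : α, ({a, b', c'} : Finset α) = {c', b', a} := CtlD_q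
    rcases hz' with rfl | rfl | rfl | rfl <;> rcases hc with rfl | rfl
    · exact ⟨p, hpW, Ne.symm hxp, fun hg => l1 (by rw [← hperm]; exact hg.base)⟩
    · exact ⟨q, hqW, Ne.symm hxq, fun hg => l4 (by rw [← hperm2]; exact hg.base)⟩
    · exact ⟨q, hqW, hqy, fun hg => l2 (by rw [← hperm]; exact hg.base)⟩
    · exact ⟨p, hpW, hpy, fun hg => l3 (by rw [← hperm2]; exact hg.base)⟩
    · exact ⟨x, hxW, hxp, fun hg => l1 (by rw [← hperm2]; exact hg.base)⟩
    · exact ⟨y, hyW, Ne.symm hpy, fun hg => l3 (by rw [← hperm]; exact hg.base)⟩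
    · exact ⟨y, hyW, Ne.symm hqy, fun hg => l2 (by rw [← hperm2]; exact hg.base)⟩
    · exact ⟨x, hxW, hxq, fun hg => l4 (by rw [← hperm]; exact hg.base)⟩

/-- Common trace lemma for `W ⊆ U`. -/
theorem ctl_sub (h1 : PF u U b1) (h2 : PF w W b2) (hWU : W ⊆ U) :
    (∃ X, Good u U b1 X ∧ Good w W b2 (X ∩ W)) ∨ (u = 3 ∧ w = 2 ∧ Exc U W b1 b2) := by
  have hle : w ≤ u := by
    have := card_le_card hWU
    rw [h1.card, h2.card] at this; omega
  rcases Nat.lt_or_ge w u with hlt | hge
  · rcases Nat.lt_or_ge w 3 with hw | hw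
    · interval_cases w
      · left
        obtain ⟨X, hX⟩ := h1.exists_good
        obtain ⟨Z, hZ⟩ := h2.exists_good
        have hW0 : W = ∅ := card_eq_zero.mp h2.card
        have hZ0 : Z = ∅ := card_eq_zero.mp hZ.card
        refine ⟨X, hX, ?_⟩
        have : X ∩ W = Z := by rw [hW0, hZ0, inter_empty]
        rw [this]; exact hZ
      · left; exact ctl_one h1 h2 hWU
      · rcases Nat.lt_or_ge u 4 with hu | hu
        · have hu3 : u = 3 := by omega
          subst hu3
          rcases ctl_two_three h1 h2 hWU with h | h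
          · exact Or.inl h
          · exact Or.inr ⟨rfl, rfl, h⟩
        · left; exact ctl_two_ge h1 h2 hWU hu
    · left; exact ctl_three h1 h2 hWU hw hlt
  · left
    have huw : w = u := by omega
    subst huw
    have hWU' : W = U := eq_of_subset_of_card_le hWU (by rw [h1.card, h2.card])
    subst hWU'
    obtain ⟨X, hX, hX'⟩ := ctl_eq h1 h2
    refine ⟨X, hX, ?_⟩
    rw [inter_eq_left.mpr hX.sub]; exact hX'

end Pool.Agent.H94
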