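import Pool.Agent.H94.CtlD

set_option autoImplicit false

namespace Pool.Agent.H94

open Finset

variable {α : Type*} [DecidableEq α]
variable {n u w p : ℕ} {U W W' W'' : Finset α} {b b1 b2 b3 : Finset α → Prop}

theorem Exc.clash (h1 : PF 3 U b1) (e1 : Exc U W' b1 b2) (e2 : Exc U W'' b1 b3) {c r : α}
    (hc : c ∈ U) (hc' : c ∉ W') (hc'' : c ∉ W'') (hr : r ∈ W') (hr'' : r ∉ W'')
    (hsub : W'.erase r ⊆ W'') : False := by
  obtain ⟨z, hz, hzr, hbad⟩ := e1.bad1 r hr c (mem_sdiff.mpr ⟨hc, hc'⟩)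
  have hzW : z ∈ W'' := hsub (mem_erase.mpr ⟨hzr, hz⟩)
  have hg := (e2.good1 z hzW).compl h1.card
  have hrU : r ∈ U := e1.hWU hr
  have hcr : c ≠ r := by rintro rfl; exact hc' hr
  have hUW : U \ W'' = {c, r} := by
    refine (eq_of_subset_of_card_le ?_ ?_).symm
    · intro v hv
      simp only [mem_insert, mem_singleton] at hv
      rcases hv with rfl | rfl
      · exact mem_sdiff.mpr ⟨hc, hc''⟩
      · exact mem_sdiff.mpr ⟨hrU, hr''⟩
    · rw [card_sdiff_of_subset e2.hWU, e2.cU, e2.cW, card_pair hcr]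
  have heq : U \ W''.erase z = {r, z, c} := by
    ext v
    have hv : v ∈ U \ W'' ↔ v ∈ ({c, r} : Finset α) := by rw [hUW]
    simp only [mem_sdiff, mem_insert, mem_singleton, mem_erase] at hv ⊢
    constructor
    · rintro ⟨h, h'⟩
      by_cases hvz : v = z
      · exact Or.inr (Or.inl hvz)
      · have : v ∉ W'' := fun hcc => h' ⟨hvz, hcc⟩
        rcases hv.mp ⟨h, this⟩ with h | h
        · exact Or.inr (Or.inr h)
        · exact Or.inl h
    · rintro (rfl | rfl | rfl)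
      · exact ⟨hrU, fun h => hr'' h.2⟩
      · exact ⟨e2.hWU hzW, fun h => h.1 rfl⟩
      · exact ⟨hc, fun h => hc'' h.2⟩
  rw [heq] at hg
  exact hbad hg

/-- transport along a map injective on `W`. -/
def pull (W : Finset α) (ψ : α → α) (S : Finset α) : Finset α := W.filter (fun v => ψ v ∈ S)

theorem mem_pull {ψ : α → α} {S : Finset α} {v : α} : v ∈ pull W ψ S ↔ v ∈ W ∧ ψ v ∈ S := by
  rw [pull, mem_filter]

theorem pull_insert {ψ : α → α} (hinj : Set.InjOn ψ (W : Set α)) {S : Finset α} {v : α}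
    (hv : v ∈ W) : pull W ψ (insert (ψ v) S) = insert v (pull W ψ S) := by
  ext z
  simp only [mem_pull, mem_insert]
  constructor
  · rintro ⟨h, h' | h'⟩
    · exact Or.inl (hinj (mem_coe.mpr h) (mem_coe.mpr hv) h')
    · exact Or.inr ⟨h, h'⟩
  · rintro (rfl | h)
    · exact ⟨hv, Or.inl rfl⟩
    · exact ⟨h.1, Or.inr h.2⟩

theorem image_pull {ψ : α → α} {S : Finset α} (hS : S ⊆ W.image ψ) :
    (pull W ψ S).image ψ = S := by
  ext z
  simp only [mem_image, mem_pull]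
  constructor
  · rintro ⟨v, h, rfl⟩; exact h.2
  · intro hz
    obtain ⟨v, hv, rfl⟩ := mem_image.mp (hS hz)
    exact ⟨v, ⟨hv, hz⟩, rfl⟩

theorem card_pull {ψ : α → α} (hinj : Set.InjOn ψ (W : Set α)) {S : Finset α}
    (hS : S ⊆ W.image ψ) : (pull W ψ S).card = S.card := by
  conv_rhs => rw [← image_pull hS]
  rw [card_image_of_injOn]
  exact hinj.mono (by intro v hv; exact mem_coe.mpr (mem_pull.mp (mem_coe.mp hv)).1)

theorem pull_sdiff {ψ : α → α} {S : Finset α} :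
    pull W ψ (W.image ψ \ S) = W \ pull W ψ S := by
  ext z
  simp only [mem_pull, mem_sdiff, mem_image]
  constructor
  · rintro ⟨h, _, h'⟩; exact ⟨h, fun hc => h' hc.2⟩
  · rintro ⟨h, h'⟩; exact ⟨h, ⟨z, h, rfl⟩, fun hc => h' ⟨h, hc⟩⟩

theorem Good.pull {ψ : α → α} (hinj : Set.InjOn ψ (W : Set α)) {S : Finset α}
    (h : Good w (W.image ψ) (fun S => b2 (pull W ψ S)) S) : Good w W b2 (pull W ψ S) := by
  refine ⟨filter_subset _ _, ?_, h.base, ?_⟩
  · rw [card_pull hinj h.sub]; exact h.card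
  · have := h.cobase
    rw [pull_sdiff] at this; exact this

theorem PF.pull {ψ : α → α} (hinj : Set.InjOn ψ (W : Set α)) (h : PF w W b2) :
    PF w (W.image ψ) (fun S => b2 (Pool.Agent.H94.pull W ψ S)) := by
  refine ⟨by rw [card_image_of_injOn hinj]; exact h.card, ?_, ?_⟩
  · intro I y z hI hy hz hyI hzI hyz hc hb1 hb2 S hS hSc
    obtain ⟨y0, hy0, rfl⟩ := mem_image.mp hy
    obtain ⟨z0, hz0, rfl⟩ := mem_image.mp hz
    rw [pull_insert hinj hy0] at hb1
    rw [pull_insert hinj hz0] at hb2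
    refine h.pav (Pool.Agent.H94.pull W ψ I) y0 z0 (filter_subset _ _) hy0 hz0
      (fun hcc => hyI (mem_pull.mp hcc).2) (fun hcc => hzI (mem_pull.mp hcc).2)
      (fun hcc => hyz (by rw [hcc])) (by rw [card_pull hinj hI]; exact hc) hb1 hb2 _ ?_ ?_
    · rw [← pull_insert hinj hz0, ← pull_insert hinj hy0]
      intro v hv
      rw [mem_pull] at hv ⊢
      exact ⟨hv.1, hS hv.2⟩
    · rw [card_pull hinj, hSc]
      exact hS.trans (insert_subset hy (insert_subset hz hI))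
  · obtain ⟨X, hX⟩ := h.exists_good
    have e1 : Pool.Agent.H94.pull W ψ (X.image ψ) = X := by
      ext v
      rw [mem_pull, mem_image]
      constructor
      · rintro ⟨hv, v', hv', he⟩
        have := hinj (mem_coe.mpr (hX.sub hv')) (mem_coe.mpr hv) he
        rw [← this]; exact hv'
      · intro hv; exact ⟨hX.sub hv, v, hv, rfl⟩
    refine ⟨X.image ψ, image_subset_image hX.sub, ?_, ?_, ?_⟩
    · rw [card_image_of_injOn (hinj.mono (by intro v hv; exact mem_coe.mpr (hX.sub (mem_coe.mp hv))))]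
      exact hX.card
    · rw [e1]; exact hX.base
    · rw [pull_sdiff, e1]; exact hX.cobase

/-- general reduction step -/
theorem ctl_trans (h1 : PF u U b1) (h2 : PF w W b2) {ψ : α → α}
    (hinj : Set.InjOn ψ (W : Set α)) (hmap : ∀ v ∈ W, ψ v ∈ U)
    (hfix : ∀ v ∈ W, v ∈ U → ψ v = v) :
    (∃ X1 X2, Good u U b1 X1 ∧ Good w W b2 X2 ∧ ∀ z ∈ U, z ∈ W → (z ∈ X1 ↔ z ∈ X2)) ∨
    (u = 3 ∧ w = 2 ∧ Exc U (W.image ψ) b1 (fun S => b2 (pull W ψ S))) := by
  have hsub : W.image ψ ⊆ U := by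
    intro v hv
    obtain ⟨v', hv', rfl⟩ := mem_image.mp hv
    exact hmap v' hv'
  rcases ctl_sub h1 (h2.pull hinj) hsub with ⟨X, hX, hX'⟩ | h
  · left
    refine ⟨X, _, hX, hX'.pull hinj, ?_⟩
    intro z hzU hzW
    rw [mem_pull, hfix z hzW hzU, mem_inter, mem_image]
    constructor
    · intro h; exact ⟨hzW, h, z, hzW, hfix z hzW hzU⟩
    · rintro ⟨_, h, _⟩; exact h
  · exact Or.inr h

/-- Common trace lemma, general form. -/
theorem ctl_gen (h1 : PF u U b1) (h2 : PF w W b2) (hle : w ≤ u) :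
    (∃ X1 X2, Good u U b1 X1 ∧ Good w W b2 X2 ∧ ∀ z ∈ U, z ∈ W → (z ∈ X1 ↔ z ∈ X2)) ∨
    (u = 3 ∧ w = 2 ∧ Exc U W b1 b2) := by
  by_cases hWU : W ⊆ U
  · rcases ctl_sub h1 h2 hWU with ⟨X, hX, hX'⟩ | h
    · left
      refine ⟨X, _, hX, hX', ?_⟩
      intro z _ hzW
      rw [mem_inter]; tauto
    · exact Or.inr h
  left
  obtain ⟨s, hsW, hsU⟩ := not_subset.mp hWU
  have hc1 : (U \ W).card + (U ∩ W).card = 2 * u := by
    rw [add_comm, card_inter_add_card_sdiff, h1.card]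
  have hc2 : (W \ U).card + (U ∩ W).card = 2 * w := by
    rw [inter_comm, add_comm, card_inter_add_card_sdiff, h2.card]
  have hcle : Fintype.card ↥(W \ U) ≤ Fintype.card ↥(U \ W) := by
    rw [Fintype.card_coe, Fintype.card_coe]; omega
  obtain ⟨f⟩ := Function.Embedding.nonempty_of_card_le hcle
  set ψ : α → α := fun z => if h : z ∈ W \ U then (f ⟨z, h⟩ : α) else z with hψ
  have hψ1 : ∀ z (h : z ∈ W \ U), ψ z = (f ⟨z, h⟩ : α) := fun z h => by
    simp only [hψ]; rw [dif_pos h]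
  have hψ2 : ∀ z, z ∉ W \ U → ψ z = z := fun z h => by
    simp only [hψ]; rw [dif_neg h]
  have hψ3 : ∀ z ∈ W \ U, ψ z ∈ U \ W := by
    intro z h; rw [hψ1 z h]; exact (f ⟨z, h⟩).2
  have hinj : Set.InjOn ψ (W : Set α) := by
    intro v hv v' hv' he
    rw [mem_coe] at hv hv'
    by_cases c1 : v ∈ W \ U
    · by_cases c2 : v' ∈ W \ U
      · rw [hψ1 v c1, hψ1 v' c2] at he
        have := f.injective (Subtype.ext he)
        exact congrArg Subtype.val this
      · have h3 := hψ3 v c1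
        rw [he, hψ2 v' c2] at h3
        exact absurd hv' (mem_sdiff.mp h3).2
    · by_cases c2 : v' ∈ W \ U
      · have h3 := hψ3 v' c2
        rw [← he, hψ2 v c1] at h3
        exact absurd hv (mem_sdiff.mp h3).2
      · rw [hψ2 v c1, hψ2 v' c2] at he; exact he
  have hmap : ∀ v ∈ W, ψ v ∈ U := by
    intro v hv
    by_cases c1 : v ∈ W \ U
    · exact (mem_sdiff.mp (hψ3 v c1)).1
    · rw [hψ2 v c1]
      by_contra hvU
      exact c1 (mem_sdiff.mpr ⟨hv, hvU⟩)
  have hfix : ∀ v ∈ W, v ∈ U → ψ v = v := fun v _ hvU =>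
    hψ2 v (fun hc => (mem_sdiff.mp hc).2 hvU)
  rcases ctl_trans h1 h2 hinj hmap hfix with h | ⟨hu3, hw2, e1⟩
  · exact h
  subst hu3 hw2
  -- choose another identification
  have hsR : s ∈ W \ U := mem_sdiff.mpr ⟨hsW, hsU⟩
  have hUW' : (U \ W.image ψ).card = 2 := by
    rw [card_sdiff_of_subset e1.hWU, e1.cU, e1.cW]
  obtain ⟨c, x', hcx, hUWe⟩ := card_eq_two.mp hUW'
  have hcm : c ∈ U \ W.image ψ := by rw [hUWe]; simp
  have hxm : x' ∈ U \ W.image ψ := by rw [hUWe]; simp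
  rw [mem_sdiff] at hcm hxm
  have hxW : x' ∉ W := by
    intro h
    exact hxm.2 (mem_image.mpr ⟨x', h, hfix x' h hxm.1⟩)
  set ψ' : α → α := Function.update ψ s x' with hψ'
  have k1 : ψ' s = x' := Function.update_self _ _ _
  have k2 : ∀ v, v ≠ s → ψ' v = ψ v := fun v hv => Function.update_of_ne hv _ _
  have hinj' : Set.InjOn ψ' (W : Set α) := by
    intro v hv v' hv' he
    rw [mem_coe] at hv hv'
    by_cases c1 : v = s
    · by_cases c2 : v' = s
      · rw [c1, c2]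
      · rw [c1, k1, k2 v' c2] at he
        exact absurd (mem_image.mpr ⟨v', hv', he.symm⟩) hxm.2
    · by_cases c2 : v' = s
      · rw [c2, k1, k2 v c1] at he
        exact absurd (mem_image.mpr ⟨v, hv, he⟩) hxm.2
      · rw [k2 v c1, k2 v' c2] at he
        exact hinj (mem_coe.mpr hv) (mem_coe.mpr hv') he
  have hmap' : ∀ v ∈ W, ψ' v ∈ U := by
    intro v hv
    by_cases c1 : v = s
    · rw [c1, k1]; exact hxm.1
    · rw [k2 v c1]; exact hmap v hv
  have hfix' : ∀ v ∈ W, v ∈ U → ψ' v = v := by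
    intro v hv hvU
    have c1 : v ≠ s := by rintro rfl; exact hsU hvU
    rw [k2 v c1]; exact hfix v hv hvU
  rcases ctl_trans h1 h2 hinj' hmap' hfix' with h | ⟨_, _, e2⟩
  · exact h
  exfalso
  refine e1.clash h1 e2 (c := c) (r := ψ s) hcm.1 hcm.2 ?_ (mem_image_of_mem _ hsW) ?_ ?_
  · intro hc
    obtain ⟨v, hv, he⟩ := mem_image.mp hc
    by_cases c1 : v = s
    · rw [c1, k1] at he; exact hcx he.symm
    · rw [k2 v c1] at he; exact hcm.2 (mem_image.mpr ⟨v, hv, he⟩)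
  · intro hc
    obtain ⟨v, hv, he⟩ := mem_image.mp hc
    by_cases c1 : v = s
    · rw [c1, k1] at he
      exact hxm.2 (mem_image.mpr ⟨s, hsW, he.symm⟩)
    · rw [k2 v c1] at he
      exact c1 (hinj (mem_coe.mpr hv) (mem_coe.mpr hsW) he)
  · intro z hz
    rw [mem_erase, mem_image] at hz
    obtain ⟨hz1, v, hv, he⟩ := hz
    have c1 : v ≠ s := by rintro rfl; exact hz1 he.symm
    exact mem_image.mpr ⟨v, hv, by rw [k2 v c1]; exact he⟩

end Pool.Agent.H94
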