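import Pool.Agent.H94.InvD

/-!
Involutive automorphisms whose nonlinear terms at a fixed point have degrees in a window
`[d, 2 d - 2]` are conjugate to linear automorphisms.
-/

set_option autoImplicit false

namespace Pool.Agent.H94.DegreeWindow

open MvPolynomial

/-- If, after translation of the point `a` to the origin, the involution is the sum of a linear
map and of terms whose degrees lie between `d` and `2 d - 2`, for one `d` which is at least two,
then it is linearizable. -/
theorem result (n : ℕ) (F : MvPolynomial (Fin n) ℂ ≃ₐ[ℂ] MvPolynomial (Fin n) ℂ)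
    (hF : ∀ p : MvPolynomial (Fin n) ℂ, F (F p) = p) (a : Fin n → ℂ) (d : ℕ) (hd : 2 ≤ d)
    (hw : ∀ i : Fin n, ∀ m ∈ (aeval (fun j => X j + C (a j)) (F (X i)) - C (a i) :
      MvPolynomial (Fin n) ℂ).support,
      m.degree = 1 ∨ (d ≤ m.degree ∧ m.degree ≤ 2 * d - 2)) :
    ∃ G : MvPolynomial (Fin n) ℂ ≃ₐ[ℂ] MvPolynomial (Fin n) ℂ,
      ∀ i : Fin n, (G.symm (F (G (X i : MvPolynomial (Fin n) ℂ)))).IsHomogeneous 1 := by
  obtain ⟨V, hV⟩ := Pool.Agent.H94.Inv.window F (AlgEquiv.ext hF) a hd hw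
  exact ⟨V, hV⟩

end Pool.Agent.H94.DegreeWindow
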