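import Mathlib

set_option autoImplicit false

/-!
One-parameter families attached to an algebra automorphism whose iterates are polynomial, and
conjugacy of two involutions with locally unipotent product.
-/

namespace Pool.Agent.H94.Inv

open Polynomial

variable {k : Type*} [Field k] [CharZero k] {R : Type*} [CommRing R] [IsDomain R] [Algebra k R]

/-- The polynomial `W` interpolates the iterates of `σ` at `p`. -/
def PolyIter (σ : R ≃ₐ[k] R) (p : R) (W : R[X]) : Prop :=
  ∀ m : ℕ, W.eval (m : R) = (σ ^ m) p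

/-- All iterates are polynomial. -/
def LocPoly (σ : R ≃ₐ[k] R) : Prop := ∀ p, ∃ W : R[X], PolyIter σ p W

section
variable [CharZero R]

omit [IsDomain R] in
theorem infinite_nat_set (P : R → Prop) (h : ∀ m : ℕ, P (m : R)) : Set.Infinite {x | P x} := by
  refine (Set.infinite_range_of_injective (Nat.cast_injective (R := R))).mono ?_
  rintro _ ⟨m, rfl⟩
  exact h m

theorem poly_ext {P Q : R[X]} (h : ∀ m : ℕ, P.eval (m : R) = Q.eval (m : R)) : P = Q :=
  Polynomial.eq_of_infinite_eval_eq P Q (infinite_nat_set (fun x => eval x P = eval x Q) h)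

omit [CharZero k] in
theorem PolyIter.uniq {σ : R ≃ₐ[k] R} {p : R} {W W' : R[X]} (h : PolyIter σ p W)
    (h' : PolyIter σ p W') : W = W' :=
  poly_ext (fun m => by rw [h m, h' m])

variable (σ : R ≃ₐ[k] R) (hσ : LocPoly σ)

/-- The interpolating polynomial. -/
noncomputable def W (p : R) : R[X] := Classical.choose (hσ p)

omit [CharZero k] [IsDomain R] [CharZero R] in
theorem W_spec (p : R) : PolyIter σ p (W σ hσ p) := Classical.choose_spec (hσ p)

/-- The family of algebra endomorphisms `σ ^ s`. -/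
noncomputable def pw (s : k) : R →ₐ[k] R where
  toFun p := (W σ hσ p).eval (algebraMap k R s)
  map_one' := by
    have : W σ hσ 1 = 1 := (W_spec σ hσ 1).uniq (fun m => by rw [eval_one, map_one])
    rw [this, eval_one]
  map_mul' p q := by
    have : W σ hσ (p * q) = W σ hσ p * W σ hσ q := (W_spec σ hσ (p * q)).uniq (fun m => by
      rw [eval_mul, W_spec σ hσ p m, W_spec σ hσ q m, map_mul])
    rw [this, eval_mul]
  map_zero' := by
    have : W σ hσ 0 = 0 := (W_spec σ hσ 0).uniq (fun m => by rw [eval_zero, map_zero])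
    rw [this, eval_zero]
  map_add' p q := by
    have : W σ hσ (p + q) = W σ hσ p + W σ hσ q := (W_spec σ hσ (p + q)).uniq (fun m => by
      rw [eval_add, W_spec σ hσ p m, W_spec σ hσ q m, map_add])
    rw [this, eval_add]
  commutes' c := by
    have : W σ hσ (algebraMap k R c) = C (algebraMap k R c) :=
      (W_spec σ hσ _).uniq (fun m => by rw [eval_C, AlgEquiv.commutes])
    rw [this, eval_C]

omit [CharZero k] in
theorem pw_apply (s : k) (p : R) : pw σ hσ s p = (W σ hσ p).eval (algebraMap k R s) := rfl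

omit [CharZero k] in
theorem pw_nat (m : ℕ) (p : R) : pw σ hσ (m : k) p = (σ ^ m) p := by
  rw [pw_apply, map_natCast]; exact W_spec σ hσ p m

omit [CharZero k] in
theorem W_shift (n : ℕ) (p : R) :
    W σ hσ ((σ ^ n) p) = (W σ hσ p).comp (X + C (n : R)) :=
  (W_spec σ hσ _).uniq (fun m => by
    rw [eval_comp, eval_add, eval_X, eval_C, ← Nat.cast_add, W_spec σ hσ p (m + n), pow_add]
    rfl)

omit [CharZero k] in
theorem pw_add (s t : k) (p : R) : pw σ hσ s (pw σ hσ t p) = pw σ hσ (s + t) p := by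
  have key : (W σ hσ p).map (pw σ hσ s : R →+* R) =
      (W σ hσ p).comp (X + C (algebraMap k R s)) := by
    refine poly_ext (fun n => ?_)
    have h1 : ((n : R)) = (pw σ hσ s : R →+* R) (n : R) := by rw [map_natCast]
    rw [eval_comp, eval_add, eval_X, eval_C]
    conv_lhs => rw [h1, eval_map, eval₂_at_apply]
    rw [W_spec σ hσ p n]
    change pw σ hσ s ((σ ^ n) p) = _
    rw [pw_apply, W_shift, eval_comp, eval_add, eval_X, eval_C, add_comm]
  have h2 := congrArg (Polynomial.eval (algebraMap k R t)) key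
  rw [eval_comp, eval_add, eval_X, eval_C] at h2
  have h3 : algebraMap k R t = (pw σ hσ s : R →+* R) (algebraMap k R t) := by
    change _ = pw σ hσ s (algebraMap k R t)
    rw [AlgHom.commutes]
  have h4 : ((W σ hσ p).map (pw σ hσ s : R →+* R)).eval (algebraMap k R t) =
      pw σ hσ s (pw σ hσ t p) := by
    conv_lhs => rw [h3, eval_map, eval₂_at_apply]
    rfl
  rw [← h4, h2, pw_apply, map_add, add_comm]

omit [CharZero k] in
theorem pw_zero (p : R) : pw σ hσ 0 p = p := by
  have := pw_nat σ hσ 0 p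
  rw [Nat.cast_zero, pow_zero] at this
  exact this

omit [CharZero k] in
theorem pw_one (p : R) : pw σ hσ 1 p = σ p := by
  have := pw_nat σ hσ 1 p
  rw [Nat.cast_one, pow_one] at this
  exact this

/-- The automorphism `σ ^ s`. -/
noncomputable def pwE (s : k) : R ≃ₐ[k] R :=
  AlgEquiv.ofAlgHom (pw σ hσ s) (pw σ hσ (-s))
    (by ext p; rw [AlgHom.comp_apply, pw_add, add_neg_cancel, pw_zero]; rfl)
    (by ext p; rw [AlgHom.comp_apply, pw_add, neg_add_cancel, pw_zero]; rfl)

omit [CharZero k] in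
theorem pwE_apply (s : k) (p : R) : pwE σ hσ s p = pw σ hσ s p := rfl

omit [CharZero k] in
theorem pwE_symm_apply (s : k) (p : R) : (pwE σ hσ s).symm p = pw σ hσ (-s) p := rfl

omit [CharZero k] in
theorem pw_neg_nat (m : ℕ) (p : R) : pw σ hσ (-(m : k)) p = (σ⁻¹ ^ m) p := by
  have h1 := pw_add σ hσ (-(m : k)) (m : k) ((σ⁻¹ ^ m) p)
  rw [neg_add_cancel, pw_zero, pw_nat] at h1
  rw [← h1]
  congr 1
  change p = (σ ^ m * σ⁻¹ ^ m) p
  rw [inv_pow, mul_inv_cancel]
  rfl

omit [CharZero k] in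
theorem pw_conj (L : R ≃ₐ[k] R) (hL : L * σ * L⁻¹ = σ⁻¹) (s : k) (q : R) :
    L (pw σ hσ s (L⁻¹ q)) = pw σ hσ (-s) q := by
  have key : (W σ hσ (L⁻¹ q)).map (L : R →+* R) = (W σ hσ q).comp (-X) := by
    refine poly_ext (fun m => ?_)
    have h1 : ((m : R)) = (L : R →+* R) (m : R) := by rw [map_natCast]
    rw [eval_comp, eval_neg, eval_X]
    conv_lhs => rw [h1, eval_map, eval₂_at_apply]
    rw [W_spec σ hσ (L⁻¹ q) m]
    have h2 := pw_neg_nat σ hσ m q
    rw [pw_apply, map_neg, map_natCast] at h2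
    rw [h2]
    have h3 : (σ⁻¹ ^ m) = L * σ ^ m * L⁻¹ := by rw [← hL, conj_pow]
    rw [h3]
    rfl
  have h2 := congrArg (Polynomial.eval (algebraMap k R s)) key
  rw [eval_comp, eval_neg, eval_X] at h2
  have h3 : algebraMap k R s = (L : R →+* R) (algebraMap k R s) := by
    change _ = L (algebraMap k R s)
    rw [AlgEquiv.commutes]
  have h4 : ((W σ hσ (L⁻¹ q)).map (L : R →+* R)).eval (algebraMap k R s) =
      L (pw σ hσ s (L⁻¹ q)) := by
    conv_lhs => rw [h3, eval_map, eval₂_at_apply]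
    rfl
  rw [← h4, h2, pw_apply, map_neg]

/-- Two involutions whose product has polynomial iterates are conjugate. -/
theorem conj_of_locPoly (F L : R ≃ₐ[k] R) (hF : F * F = 1) (hL : L * L = 1)
    (h : LocPoly (F * L)) : ∃ V : R ≃ₐ[k] R, V⁻¹ * F * V = L := by
  have hFi : F⁻¹ = F := by rw [inv_eq_iff_mul_eq_one]; exact hF
  have hLi : L⁻¹ = L := by rw [inv_eq_iff_mul_eq_one]; exact hL
  have hinv : (F * L)⁻¹ = L * F := by rw [mul_inv_rev, hFi, hLi]
  have hconj : L * (F * L) * L⁻¹ = (F * L)⁻¹ := by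
    rw [hinv, mul_assoc, mul_assoc, mul_inv_cancel, mul_one]
  set V := pwE (F * L) h (1 / 2 : k) with hV
  refine ⟨V, ?_⟩
  rw [mul_assoc, inv_mul_eq_iff_eq_mul]
  ext q
  change F (V q) = V (L q)
  have h2 : (1 / 2 : k) + 1 / 2 = 1 := by ring
  have h3 := pw_conj (F * L) h L hconj (-(1 / 2 : k)) (L q)
  rw [neg_neg] at h3
  have h4 : L⁻¹ (L q) = q := by
    change (L⁻¹ * L) q = q
    rw [inv_mul_cancel]; rfl
  rw [h4] at h3
  -- `h3 : L (pw (-1/2) q) = pw (1/2) (L q)`
  have h5 : V (L q) = pw (F * L) h (1 / 2) (L q) := rfl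
  have h6 : V q = pw (F * L) h (1 / 2) q := rfl
  rw [h5, h6, ← h3]
  -- `F (pw (1/2) q) = L (pw (-1/2) q)`
  have h7 : pw (F * L) h (1 / 2) q = (F * L) (pw (F * L) h (-(1 / 2)) q) := by
    have h8 : (1 : k) + -(1 / 2) = 1 / 2 := by norm_num
    rw [← pw_one (F * L) h (pw (F * L) h (-(1 / 2)) q), pw_add, h8]
  rw [h7]
  change (F * (F * L)) _ = _
  rw [← mul_assoc, hF, one_mul]

end

end Pool.Agent.H94.Inv
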