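import Pool.Agent.H94.InvA

set_option autoImplicit false

namespace Pool.Agent.H94.Inv

open MvPolynomial

variable {n : ℕ}

/-- Polynomial iterates are closed under sums and products. -/
theorem locPoly_of_gen (σ : MvPolynomial (Fin n) ℂ ≃ₐ[ℂ] MvPolynomial (Fin n) ℂ)
    (h : ∀ i, ∃ W : Polynomial (MvPolynomial (Fin n) ℂ), PolyIter σ (X i) W) : LocPoly σ := by
  intro p
  induction p using MvPolynomial.induction_on with
  | C a =>
    refine ⟨Polynomial.C (C a), fun m => ?_⟩
    rw [Polynomial.eval_C]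
    exact ((σ ^ m).commutes a).symm
  | add p q hp hq =>
    obtain ⟨W1, h1⟩ := hp
    obtain ⟨W2, h2⟩ := hq
    exact ⟨W1 + W2, fun m => by rw [Polynomial.eval_add, h1 m, h2 m, map_add]⟩
  | mul_X p i hp =>
    obtain ⟨W1, h1⟩ := hp
    obtain ⟨W2, h2⟩ := h i
    exact ⟨W1 * W2, fun m => by rw [Polynomial.eval_mul, h1 m, h2 m, map_mul]⟩

/-- Newton's forward formula for locally unipotent automorphisms. -/
theorem polyIter_of_nilp (σ : MvPolynomial (Fin n) ℂ ≃ₐ[ℂ] MvPolynomial (Fin n) ℂ)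
    (p : MvPolynomial (Fin n) ℂ) {N : ℕ}
    (hN : ((σ.toLinearMap - 1) ^ N) p = 0) :
    ∃ W : Polynomial (MvPolynomial (Fin n) ℂ), PolyIter σ p W := by
  set D : Module.End ℂ (MvPolynomial (Fin n) ℂ) := σ.toLinearMap - 1 with hD
  refine ⟨∑ j ∈ Finset.range N, Polynomial.C ((D ^ j) p * C ((1 : ℂ) / (j.factorial : ℂ))) *
    descPochhammer (MvPolynomial (Fin n) ℂ) j, fun m => ?_⟩
  have hpow : ∀ m : ℕ, (σ ^ m) p = (σ.toLinearMap ^ m) p := by
    intro m
    induction m with
    | zero => rfl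
    | succ m ih =>
      rw [pow_succ', pow_succ', Module.End.mul_apply, ← ih]
      rfl
  have hσ : σ.toLinearMap = D + 1 := by rw [hD, sub_add_cancel]
  have hvan : ∀ j, N ≤ j → (D ^ j) p = 0 := by
    intro j hj
    obtain ⟨i, rfl⟩ := Nat.exists_eq_add_of_le hj
    rw [add_comm, pow_add, Module.End.mul_apply, hN, map_zero]
  rw [hpow, hσ, (Commute.one_right D).add_pow, Polynomial.eval_finsetSum]
  simp only [Polynomial.eval_mul, Polynomial.eval_C, descPochhammer_eval_eq_descFactorial,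
    one_pow, mul_one]
  have hterm : ∀ j : ℕ, (D ^ j) p * C ((1 : ℂ) / (j.factorial : ℂ)) *
      ((m.descFactorial j : ℕ) : MvPolynomial (Fin n) ℂ) = (D ^ j * ((m.choose j : ℕ) :
      Module.End ℂ (MvPolynomial (Fin n) ℂ))) p := by
    intro j
    rw [Nat.descFactorial_eq_factorial_mul_choose, Nat.cast_mul, ← map_natCast C j.factorial,
      mul_assoc, ← mul_assoc (C _) (C _), ← C_mul, one_div, inv_mul_cancel₀
        (by exact_mod_cast Nat.factorial_ne_zero j), C_1, one_mul,
      Module.End.mul_apply, Module.End.natCast_apply, map_nsmul, nsmul_eq_mul, mul_comm]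
  rw [LinearMap.sum_apply]
  simp only [hterm]
  rcases le_total N (m + 1) with hle | hle
  · refine Finset.sum_subset (Finset.range_mono hle) ?_
    intro j _ hj
    rw [Finset.mem_range, not_lt] at hj
    rw [← (Nat.cast_commute _ _).eq, Module.End.mul_apply, hvan j hj, map_zero]
  · symm
    refine Finset.sum_subset (Finset.range_mono hle) ?_
    intro j _ hj
    rw [Finset.mem_range, not_lt] at hj
    rw [Nat.choose_eq_zero_of_lt (by omega), Nat.cast_zero, mul_zero, LinearMap.zero_apply]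

/-- Two involutions of the polynomial ring whose product is locally unipotent on the variables
are conjugate. -/
theorem conj_of_unipotent (F L : MvPolynomial (Fin n) ℂ ≃ₐ[ℂ] MvPolynomial (Fin n) ℂ)
    (hF : F * F = 1) (hL : L * L = 1)
    (h : ∀ i, ∃ N : ℕ, (((F * L).toLinearMap - 1) ^ N) (X i) = 0) :
    ∃ V : MvPolynomial (Fin n) ℂ ≃ₐ[ℂ] MvPolynomial (Fin n) ℂ, V⁻¹ * F * V = L := by
  refine conj_of_locPoly F L hF hL (locPoly_of_gen _ (fun i => ?_))
  obtain ⟨N, hN⟩ := h i
  exact polyIter_of_nilp _ _ hN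

end Pool.Agent.H94.Inv
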