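import Pool.Agent.H94.InvB

set_option autoImplicit false

namespace Pool.Agent.H94.Inv

open MvPolynomial

variable {n : ℕ}

/-- All monomials of `q` have degree at least `e`. -/
def Ord (e : ℕ) (q : MvPolynomial (Fin n) ℂ) : Prop := ∀ m ∈ q.support, e ≤ m.degree

theorem Ord.zero (e : ℕ) : Ord e (0 : MvPolynomial (Fin n) ℂ) := by
  intro m hm; rw [support_zero] at hm; exact absurd hm (Finset.notMem_empty m)

theorem Ord.add {e : ℕ} {p q : MvPolynomial (Fin n) ℂ} (hp : Ord e p) (hq : Ord e q) :
    Ord e (p + q) := by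
  classical
  intro m hm
  rcases Finset.mem_union.mp (support_add hm) with h | h
  exacts [hp m h, hq m h]

theorem Ord.neg {e : ℕ} {p : MvPolynomial (Fin n) ℂ} (hp : Ord e p) : Ord e (-p) := by
  intro m hm; rw [support_neg] at hm; exact hp m hm

theorem Ord.sub {e : ℕ} {p q : MvPolynomial (Fin n) ℂ} (hp : Ord e p) (hq : Ord e q) :
    Ord e (p - q) := by
  rw [sub_eq_add_neg]; exact hp.add hq.neg

theorem Ord.mono {e e' : ℕ} (h : e' ≤ e) {p : MvPolynomial (Fin n) ℂ} (hp : Ord e p) :
    Ord e' p := fun m hm => h.trans (hp m hm)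

theorem Ord.mul {e e' : ℕ} {p q : MvPolynomial (Fin n) ℂ} (hp : Ord e p) (hq : Ord e' q) :
    Ord (e + e') (p * q) := by
  classical
  intro m hm
  obtain ⟨a, ha, b, hb, rfl⟩ := Finset.mem_add.mp (support_mul p q hm)
  rw [map_add]
  exact add_le_add (hp a ha) (hq b hb)

theorem Ord.any (p : MvPolynomial (Fin n) ℂ) : Ord 0 p := fun _ _ => Nat.zero_le _

theorem Ord.C_mul {e : ℕ} {p : MvPolynomial (Fin n) ℂ} (hp : Ord e p) (c : ℂ) :
    Ord e (C c * p) := by
  have := (Ord.any (C c)).mul hp
  rwa [zero_add] at this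

theorem Ord.sum {ι : Type*} {e : ℕ} (s : Finset ι) (g : ι → MvPolynomial (Fin n) ℂ)
    (h : ∀ i ∈ s, Ord e (g i)) : Ord e (∑ i ∈ s, g i) := by
  classical
  induction s using Finset.induction_on with
  | empty => rw [Finset.sum_empty]; exact Ord.zero e
  | insert a s ha ih =>
    rw [Finset.sum_insert ha]
    exact (h a (Finset.mem_insert_self a s)).add
      (ih (fun i hi => h i (Finset.mem_insert_of_mem hi)))

theorem Ord.of_hom {e : ℕ} {p : MvPolynomial (Fin n) ℂ} (h : p.IsHomogeneous e) : Ord e p := by
  intro m hm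
  by_contra hcon
  exact (mem_support_iff.mp hm) (h.coeff_eq_zero (by omega))

theorem eq_zero_of_ord {e : ℕ} {p : MvPolynomial (Fin n) ℂ} (h : Ord (e + 1) p)
    (hd : p.totalDegree ≤ e) : p = 0 := by
  by_contra hne
  obtain ⟨m, hm⟩ := support_nonempty.mpr hne
  have h1 := h m hm
  have h2 := le_totalDegree hm
  have h3 : m.degree = m.sum fun _ e => e := rfl
  rw [← h3] at h2
  omega

/-- Monomial induction on polynomials of order at least `e`. -/
theorem ord_induction {e : ℕ} {P : MvPolynomial (Fin n) ℂ → Prop} (h0 : P 0)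
    (hadd : ∀ p q, P p → P q → P (p + q))
    (hmon : ∀ (m : Fin n →₀ ℕ) (c : ℂ), e ≤ m.degree → P (monomial m c))
    {q : MvPolynomial (Fin n) ℂ} (hq : Ord e q) : P q := by
  classical
  rw [as_sum q]
  have : ∀ s : Finset (Fin n →₀ ℕ), s ⊆ q.support → P (∑ v ∈ s, monomial v (coeff v q)) := by
    intro s
    induction s using Finset.induction_on with
    | empty => intro _; rw [Finset.sum_empty]; exact h0
    | insert a s ha ih =>
      intro hs
      rw [Finset.sum_insert ha]
      exact hadd _ _ (hmon _ _ (hq a (hs (Finset.mem_insert_self a s))))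
        (ih (fun x hx => hs (Finset.mem_insert_of_mem hx)))
  exact this _ (Finset.Subset.refl _)

theorem monomial_add_one (a b : Fin n →₀ ℕ) :
    (monomial (a + b) (1 : ℂ) : MvPolynomial (Fin n) ℂ) = monomial a 1 * monomial b 1 := by
  rw [monomial_mul, one_mul]

theorem monomial_single_pow (i : Fin n) (k : ℕ) :
    (monomial (Finsupp.single i k) (1 : ℂ) : MvPolynomial (Fin n) ℂ) = X i ^ k := by
  rw [X_pow_eq_monomial]

theorem monomial_C (m : Fin n →₀ ℕ) (c : ℂ) :
    (monomial m c : MvPolynomial (Fin n) ℂ) = C c * monomial m 1 := by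
  rw [C_mul_monomial, mul_one]

theorem aeval_ord_monomial {g : Fin n → MvPolynomial (Fin n) ℂ} (hg : ∀ i, Ord 1 (g i))
    (m : Fin n →₀ ℕ) : Ord m.degree (aeval g (monomial m (1 : ℂ))) := by
  induction m using Finsupp.induction_linear with
  | zero => exact Ord.mono (by simp) (Ord.any _)
  | add a b ha hb =>
    rw [monomial_add_one, map_mul, map_add]
    exact ha.mul hb
  | single i k =>
    have h2 : (Finsupp.single i k).degree = k := by simp
    rw [monomial_single_pow, map_pow, aeval_X, h2]
    clear h2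
    induction k with
    | zero => exact Ord.any _
    | succ k ih => rw [pow_succ]; exact ih.mul (hg i)

theorem aeval_ord {g : Fin n → MvPolynomial (Fin n) ℂ} (hg : ∀ i, Ord 1 (g i)) {e : ℕ}
    {q : MvPolynomial (Fin n) ℂ} (hq : Ord e q) : Ord e (aeval g q) := by
  refine ord_induction (P := fun q => Ord e (aeval g q)) ?_ ?_ ?_ hq
  · rw [map_zero]; exact Ord.zero e
  · intro p q hp hq; rw [map_add]; exact hp.add hq
  · intro m c hm
    rw [monomial_C, map_mul, aeval_C]
    exact ((aeval_ord_monomial hg m).mono hm).C_mul c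

/-- Comparison of two substitutions that agree up to order `d`. -/
theorem aeval_sub_ord_monomial {d : ℕ} {g g' : Fin n → MvPolynomial (Fin n) ℂ}
    (hg : ∀ i, Ord 1 (g i)) (hg' : ∀ i, Ord 1 (g' i)) (hdiff : ∀ i, Ord d (g i - g' i))
    (m : Fin n →₀ ℕ) : Ord (m.degree - 1 + d)
      (aeval g (monomial m (1 : ℂ)) - aeval g' (monomial m (1 : ℂ))) := by
  induction m using Finsupp.induction_linear with
  | zero =>
    have : (monomial 0 (1 : ℂ) : MvPolynomial (Fin n) ℂ) = 1 := rfl
    rw [this, map_one, map_one, sub_self]; exact Ord.zero _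
  | add a b ha hb =>
    rw [monomial_add_one, map_mul, map_mul]
    have key : aeval g (monomial a (1 : ℂ)) * aeval g (monomial b (1 : ℂ)) -
        aeval g' (monomial a (1 : ℂ)) * aeval g' (monomial b (1 : ℂ)) =
        aeval g (monomial a (1 : ℂ)) * (aeval g (monomial b (1 : ℂ)) -
          aeval g' (monomial b (1 : ℂ))) +
        (aeval g (monomial a (1 : ℂ)) - aeval g' (monomial a (1 : ℂ))) *
          aeval g' (monomial b (1 : ℂ)) := by ring
    rw [key, map_add]
    refine Ord.add (((aeval_ord_monomial hg a).mul hb).mono (by omega))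
      ((ha.mul (aeval_ord_monomial hg' b)).mono (by omega))
  | single i k =>
    have h2 : (Finsupp.single i k).degree = k := by simp
    rw [monomial_single_pow, map_pow, map_pow, aeval_X, aeval_X, h2]
    clear h2
    induction k with
    | zero => rw [pow_zero, pow_zero, sub_self]; exact Ord.zero _
    | succ k ih =>
      have hpow : Ord k (g i ^ k) := by
        have := aeval_ord_monomial hg (Finsupp.single i k)
        have h2 : (Finsupp.single i k).degree = k := by simp
        rwa [monomial_single_pow, map_pow, aeval_X, h2] at this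
      have key : g i ^ (k + 1) - g' i ^ (k + 1) = g i ^ k * (g i - g' i) +
          (g i ^ k - g' i ^ k) * g' i := by ring
      rw [key]
      exact Ord.add ((hpow.mul (hdiff i)).mono (by omega)) ((ih.mul (hg' i)).mono (by omega))

theorem aeval_sub_ord {d : ℕ} {g g' : Fin n → MvPolynomial (Fin n) ℂ}
    (hg : ∀ i, Ord 1 (g i)) (hg' : ∀ i, Ord 1 (g' i)) (hdiff : ∀ i, Ord d (g i - g' i))
    {e : ℕ} {q : MvPolynomial (Fin n) ℂ} (hq : Ord e q) :
    Ord (e - 1 + d) (aeval g q - aeval g' q) := by
  refine ord_induction (P := fun q => Ord (e - 1 + d) (aeval g q - aeval g' q)) ?_ ?_ ?_ hq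
  · rw [map_zero, map_zero, sub_self]; exact Ord.zero _
  · intro p q hp hq
    rw [map_add, map_add, add_sub_add_comm]; exact hp.add hq
  · intro m c hm
    rw [monomial_C, map_mul, map_mul, aeval_C, aeval_C, ← mul_sub]
    exact ((aeval_sub_ord_monomial hg hg' hdiff m).mono (by omega)).C_mul c

/-! ### Degree bounds for linear substitutions -/

theorem totalDegree_linear_comb {g : Fin n → MvPolynomial (Fin n) ℂ} {D : ℕ}
    (hg : ∀ i, (g i).totalDegree ≤ D) {q : MvPolynomial (Fin n) ℂ} (hq : q.IsHomogeneous 1) :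
    (aeval g q).totalDegree ≤ D := by
  have h1 : q ∈ Submodule.span ℂ (Set.range (X : Fin n → MvPolynomial (Fin n) ℂ)) := by
    rw [← homogeneousSubmodule_one_eq_span_X]; exact hq
  induction h1 using Submodule.span_induction with
  | mem x hx => obtain ⟨i, rfl⟩ := hx; rw [aeval_X]; exact hg i
  | zero => rw [map_zero, totalDegree_zero]; exact Nat.zero_le _
  | add x y hx hy ihx ihy =>
    have e1 : x.IsHomogeneous 1 := by
      rw [← homogeneousSubmodule_one_eq_span_X] at hx; exact hx
    have e2 : y.IsHomogeneous 1 := by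
      rw [← homogeneousSubmodule_one_eq_span_X] at hy; exact hy
    rw [map_add]
    exact (totalDegree_add _ _).trans (max_le (ihx e1) (ihy e2))
  | smul c x hx ih =>
    have e1 : x.IsHomogeneous 1 := by
      rw [← homogeneousSubmodule_one_eq_span_X] at hx; exact hx
    rw [map_smul]
    exact (totalDegree_smul_le _ _).trans (ih e1)

theorem totalDegree_aeval_le {g : Fin n → MvPolynomial (Fin n) ℂ}
    (hg : ∀ i, (g i).totalDegree ≤ 1) (q : MvPolynomial (Fin n) ℂ) :
    (aeval g q).totalDegree ≤ q.totalDegree := by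
  classical
  have hmon : ∀ m : Fin n →₀ ℕ, (aeval g (monomial m (1 : ℂ))).totalDegree ≤ m.degree := by
    intro m
    induction m using Finsupp.induction_linear with
    | zero =>
      have : (monomial 0 (1 : ℂ) : MvPolynomial (Fin n) ℂ) = 1 := rfl
      rw [this, map_one, totalDegree_one]; exact Nat.zero_le _
    | add a b ha hb =>
      rw [monomial_add_one, map_mul, map_add]
      exact (totalDegree_mul _ _).trans (add_le_add ha hb)
    | single i k =>
      have h2 : (Finsupp.single i k).degree = k := by simp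
      rw [monomial_single_pow, map_pow, aeval_X, h2]
      refine (totalDegree_pow _ _).trans ?_
      calc k * (g i).totalDegree ≤ k * 1 := Nat.mul_le_mul_left k (hg i)
        _ = k := mul_one k
  conv_lhs => rw [as_sum q, map_sum]
  refine (totalDegree_finsetSum _ _).trans (Finset.sup_le ?_)
  intro m hm
  rw [monomial_C, map_mul, aeval_C]
  have h1 : (algebraMap ℂ (MvPolynomial (Fin n) ℂ) (coeff m q) *
      aeval g (monomial m (1 : ℂ))).totalDegree ≤ (aeval g (monomial m (1 : ℂ))).totalDegree := by
    rw [algebraMap_eq, C_mul']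
    exact totalDegree_smul_le _ _
  refine h1.trans ((hmon m).trans ?_)
  exact le_totalDegree hm

end Pool.Agent.H94.Inv
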