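import Pool.Agent.H94.InvC

set_option autoImplicit false

namespace Pool.Agent.H94.Inv

open MvPolynomial

variable {n : ℕ}

theorem equiv_eq_aeval (F : MvPolynomial (Fin n) ℂ ≃ₐ[ℂ] MvPolynomial (Fin n) ℂ)
    (q : MvPolynomial (Fin n) ℂ) : F q = aeval (fun i => F (X i)) q := by
  have h := aeval_unique (F : MvPolynomial (Fin n) ℂ →ₐ[ℂ] MvPolynomial (Fin n) ℂ)
  have h2 := DFunLike.congr_fun h q
  exact h2

theorem totalDegree_le_of {p : MvPolynomial (Fin n) ℂ} {D : ℕ}
    (h : ∀ m ∈ p.support, m.degree ≤ D) : p.totalDegree ≤ D := by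
  rw [totalDegree]
  exact Finset.sup_le h

theorem X_totalDegree_le (i : Fin n) : (X i : MvPolynomial (Fin n) ℂ).totalDegree ≤ 1 :=
  (isHomogeneous_X ℂ i).totalDegree_le

/-- Involutions fixing the origin whose nonlinear terms have degrees in `[d, 2 d - 2]`. -/
theorem window_zero (F : MvPolynomial (Fin n) ℂ ≃ₐ[ℂ] MvPolynomial (Fin n) ℂ) (hF : F * F = 1)
    {d : ℕ} (hd : 2 ≤ d)
    (hw : ∀ i, ∀ m ∈ (F (X i)).support, m.degree = 1 ∨ (d ≤ m.degree ∧ m.degree ≤ 2 * d - 2)) :
    ∃ V : MvPolynomial (Fin n) ℂ ≃ₐ[ℂ] MvPolynomial (Fin n) ℂ,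
      ∀ i, ((V⁻¹ * F * V) (X i)).IsHomogeneous 1 := by
  classical
  obtain ⟨f, hf⟩ : ∃ f : Fin n → MvPolynomial (Fin n) ℂ, ∀ i, F (X i) = f i :=
    ⟨fun i => F (X i), fun i => rfl⟩
  have hFa : ∀ q, F q = aeval f q := by
    intro q; rw [equiv_eq_aeval F q]; simp only [hf]
  obtain ⟨l, hl⟩ : ∃ l : Fin n → MvPolynomial (Fin n) ℂ,
      ∀ i, l i = homogeneousComponent 1 (f i) := ⟨_, fun i => rfl⟩
  have hlh : ∀ i, (l i).IsHomogeneous 1 := by
    intro i; rw [hl]; exact homogeneousComponent_isHomogeneous 1 (f i)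
  have hlO : ∀ i, Ord 1 (l i) := fun i => Ord.of_hom (hlh i)
  have hfO : ∀ i, Ord 1 (f i) := by
    intro i m hm
    rw [← hf] at hm
    rcases hw i m hm with h | h <;> omega
  have hfD : ∀ i, (f i).totalDegree ≤ 2 * d - 2 := by
    intro i
    refine totalDegree_le_of ?_
    intro m hm
    rw [← hf] at hm
    rcases hw i m hm with h | h <;> omega
  have hnO : ∀ i, Ord d (f i - l i) := by
    intro i m hm
    rw [mem_support_iff, coeff_sub, hl, coeff_homogeneousComponent] at hm
    by_cases h1 : m.degree = 1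
    · rw [if_pos h1, sub_self] at hm; exact absurd rfl hm
    · rw [if_neg h1, sub_zero, ← mem_support_iff, ← hf] at hm
      rcases hw i m hm with h | h
      · exact absurd h h1
      · exact h.1
  have hnD : ∀ i, (f i - l i).totalDegree ≤ 2 * d - 2 := by
    intro i
    refine (totalDegree_sub _ _).trans (max_le (hfD i) ?_)
    exact (hlh i).totalDegree_le.trans (by omega)
  have hsplit : ∀ i, f i = l i + (f i - l i) := fun i => by ring
  have hFF : ∀ q, F (F q) = q := by
    intro q
    have := DFunLike.congr_fun hF q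
    exact this
  -- the linear part is an involution
  have hpO : ∀ i, Ord d (F (l i) - aeval l (l i)) := by
    intro i
    rw [hFa]
    have := aeval_sub_ord hfO hlO hnO (hlO i)
    rwa [Nat.sub_self, zero_add] at this
  have hFnO : ∀ i, Ord d (F (f i - l i)) := by
    intro i; rw [hFa]; exact aeval_ord hfO (hnO i)
  have hll : ∀ i, aeval l (l i) = X i := by
    intro i
    have h1 : F (l i) + F (f i - l i) = X i := by
      rw [← map_add, ← hsplit, ← hf, hFF]
    have h2 : Ord 2 (X i - aeval l (l i)) := by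
      have : X i - aeval l (l i) = (F (l i) - aeval l (l i)) + F (f i - l i) := by
        rw [← h1]; ring
      rw [this]
      exact ((hpO i).add (hFnO i)).mono hd
    have h3 : (X i - aeval l (l i)).totalDegree ≤ 1 := by
      refine (totalDegree_sub _ _).trans (max_le (X_totalDegree_le i) ?_)
      exact totalDegree_linear_comb (fun j => (hlh j).totalDegree_le) (hlh i)
    have h4 := eq_zero_of_ord h2 h3
    exact (sub_eq_zero.mp h4).symm
  have hcomp : (aeval l : MvPolynomial (Fin n) ℂ →ₐ[ℂ] MvPolynomial (Fin n) ℂ).comp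
      (aeval l) = AlgHom.id ℂ _ := by
    refine algHom_ext (fun i => ?_)
    rw [AlgHom.comp_apply, aeval_X, hll]; rfl
  set L : MvPolynomial (Fin n) ℂ ≃ₐ[ℂ] MvPolynomial (Fin n) ℂ :=
    AlgEquiv.ofAlgHom (aeval l) (aeval l) hcomp hcomp with hLdef
  have hLa : ∀ q, L q = aeval l q := fun q => rfl
  have hLX : ∀ i, L (X i) = l i := fun i => by rw [hLa, aeval_X]
  have hLL : L * L = 1 := by
    refine AlgEquiv.ext (fun q => ?_)
    change L (L q) = q
    rw [hLa, hLa]
    exact DFunLike.congr_fun hcomp q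
  -- the two displacement vectors
  obtain ⟨p, hp⟩ : ∃ p : Fin n → MvPolynomial (Fin n) ℂ, ∀ i, p i = F (l i) - X i :=
    ⟨_, fun i => rfl⟩
  have hpO' : ∀ i, Ord d (p i) := by
    intro i; rw [hp, ← hll i]
    have := hpO i
    rw [hll] at this ⊢
    exact this
  have hpD : ∀ i, (p i).totalDegree ≤ 2 * d - 2 := by
    intro i
    rw [hp, hFa]
    refine (totalDegree_sub _ _).trans (max_le (totalDegree_linear_comb hfD (hlh i)) ?_)
    exact (X_totalDegree_le i).trans (by omega)
  have hσX : ∀ i, (F * L) (X i) = X i + p i := by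
    intro i
    change F (L (X i)) = _
    rw [hLX, hp]; ring
  have hσa : ∀ q, (F * L) q = aeval (fun i => X i + p i) q := by
    intro q; rw [equiv_eq_aeval (F * L) q]; simp only [hσX]
  obtain ⟨q, hq⟩ : ∃ q : Fin n → MvPolynomial (Fin n) ℂ, ∀ i, q i = L (f i - l i) :=
    ⟨_, fun i => rfl⟩
  have hqO : ∀ i, Ord d (q i) := by
    intro i; rw [hq, hLa]; exact aeval_ord hlO (hnO i)
  have hqD : ∀ i, (q i).totalDegree ≤ 2 * d - 2 := by
    intro i
    rw [hq, hLa]
    exact (totalDegree_aeval_le (fun j => (hlh j).totalDegree_le) _).trans (hnD i)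
  have hLF : ∀ i, L (F (X i)) = X i + q i := by
    intro i
    rw [hf, hsplit, map_add, ← hq, hLa, hll]
  have hprod : ∀ i, (F * L) (X i + q i) = X i := by
    intro i
    rw [← hLF]
    change F (L (L (F (X i)))) = X i
    have h1 : ∀ r, L (L r) = r := fun r => DFunLike.congr_fun hLL r
    rw [h1, hFF]
  have hσq : ∀ i, (F * L) (q i) = - p i := by
    intro i
    have := hprod i
    rw [map_add, hσX] at this
    linear_combination this
  have hpq : ∀ i, q i = - p i := by
    intro i
    have h1 : Ord (2 * d - 2 + 1) (p i + q i) := by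
      have h2 : Ord (d - 1 + d) ((F * L) (q i) - q i) := by
        have h3 := aeval_sub_ord (d := d) (e := d) (q := q i) (g := fun i => X i + p i)
          (g' := fun i => (X i : MvPolynomial (Fin n) ℂ)) ?_ ?_ ?_ (hqO i)
        · rw [hσa]
          have h4 : aeval (fun i => (X i : MvPolynomial (Fin n) ℂ)) (q i) = q i := aeval_X_left_apply (q i)
          rw [h4] at h3
          exact h3
        · intro j; exact (Ord.of_hom (isHomogeneous_X ℂ j)).add ((hpO' j).mono (by omega))
        · intro j; exact Ord.of_hom (isHomogeneous_X ℂ j)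
        · intro j
          simp only [add_sub_cancel_left]
          exact hpO' j
      have h5 : p i + q i = -((F * L) (q i) - q i) := by rw [hσq]; ring
      rw [h5]
      exact h2.neg.mono (by omega)
    have h6 : (p i + q i).totalDegree ≤ 2 * d - 2 :=
      (totalDegree_add _ _).trans (max_le (hpD i) (hqD i))
    have h7 := eq_zero_of_ord h1 h6
    linear_combination h7
  have hσp : ∀ i, (F * L) (p i) = p i := by
    intro i
    have h1 := hσq i
    rw [hpq, map_neg] at h1
    exact neg_injective h1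
  have hnil : ∀ i, (((F * L).toLinearMap - (1 : Module.End ℂ (MvPolynomial (Fin n) ℂ))) ^ 2)
      (X i) = 0 := by
    intro i
    rw [pow_two, Module.End.mul_apply]
    have h1 : ((F * L).toLinearMap - (1 : Module.End ℂ (MvPolynomial (Fin n) ℂ))) (X i) = p i := by
      rw [LinearMap.sub_apply]
      change (F * L) (X i) - X i = p i
      rw [hσX]; ring
    rw [h1, LinearMap.sub_apply]
    change (F * L) (p i) - p i = 0
    rw [hσp, sub_self]
  obtain ⟨V, hV⟩ := conj_of_unipotent F L hF hLL (fun i => ⟨2, hnil i⟩)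
  refine ⟨V, fun i => ?_⟩
  rw [hV, hLX]
  exact hlh i

/-! ### Translations -/

/-- The translation automorphism. -/
noncomputable def trans (a : Fin n → ℂ) : MvPolynomial (Fin n) ℂ ≃ₐ[ℂ] MvPolynomial (Fin n) ℂ :=
  AlgEquiv.ofAlgHom (aeval fun i => X i + C (a i)) (aeval fun i => X i - C (a i))
    (by
      refine algHom_ext (fun i => ?_)
      rw [AlgHom.comp_apply, aeval_X, map_sub, aeval_X, aeval_C, algebraMap_eq, AlgHom.id_apply]
      ring)
    (by
      refine algHom_ext (fun i => ?_)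
      rw [AlgHom.comp_apply, aeval_X, map_add, aeval_X, aeval_C, algebraMap_eq, AlgHom.id_apply]
      ring)

theorem trans_apply (a : Fin n → ℂ) (q : MvPolynomial (Fin n) ℂ) :
    trans a q = aeval (fun i => X i + C (a i)) q := rfl

theorem trans_inv_X (a : Fin n → ℂ) (i : Fin n) : (trans a)⁻¹ (X i) = X i - C (a i) := by
  change (aeval fun i => X i - C (a i)) (X i) = _
  rw [aeval_X]

/-- Window theorem with an arbitrary fixed point. -/
theorem window (F : MvPolynomial (Fin n) ℂ ≃ₐ[ℂ] MvPolynomial (Fin n) ℂ) (hF : F * F = 1)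
    (a : Fin n → ℂ) {d : ℕ} (hd : 2 ≤ d)
    (hw : ∀ i, ∀ m ∈ (aeval (fun j => X j + C (a j)) (F (X i)) - C (a i) :
      MvPolynomial (Fin n) ℂ).support,
      m.degree = 1 ∨ (d ≤ m.degree ∧ m.degree ≤ 2 * d - 2)) :
    ∃ V : MvPolynomial (Fin n) ℂ ≃ₐ[ℂ] MvPolynomial (Fin n) ℂ,
      ∀ i, ((V⁻¹ * F * V) (X i)).IsHomogeneous 1 := by
  set T := trans a with hT
  have hF' : (T * F * T⁻¹) * (T * F * T⁻¹) = 1 := by
    have : (T * F * T⁻¹) * (T * F * T⁻¹) = T * (F * F) * T⁻¹ := by group
    rw [this, hF, mul_one, mul_inv_cancel]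
  have hX : ∀ i, (T * F * T⁻¹) (X i) = aeval (fun j => X j + C (a j)) (F (X i)) - C (a i) := by
    intro i
    change T (F (T⁻¹ (X i))) = _
    rw [hT, trans_inv_X, map_sub, map_sub, trans_apply]
    congr 1
    have h1 : F (C (a i)) = C (a i) := F.commutes (a i)
    rw [h1, trans_apply, aeval_C]
    rfl
  obtain ⟨V, hV⟩ := window_zero (T * F * T⁻¹) hF' hd (by
    intro i m hm
    rw [hX] at hm
    exact hw i m hm)
  refine ⟨T⁻¹ * V, fun i => ?_⟩
  have : (T⁻¹ * V)⁻¹ * F * (T⁻¹ * V) = V⁻¹ * (T * F * T⁻¹) * V := by group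
  rw [this]
  exact hV i

end Pool.Agent.H94.Inv
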