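import Pool.Agent.H94.InvD

set_option autoImplicit false

namespace Pool.Agent.H94.Inv

open MvPolynomial

variable {n : ℕ}

theorem av (v : Fin n → ℂ) (p : MvPolynomial (Fin n) ℂ) : aeval v p = eval v p := rfl

theorem hom1_mem {r : MvPolynomial (Fin n) ℂ} :
    r.IsHomogeneous 1 ↔
      r ∈ Submodule.span ℂ (Set.range (X : Fin n → MvPolynomial (Fin n) ℂ)) := by
  rw [← homogeneousSubmodule_one_eq_span_X]; exact Iff.rfl

/-- Linear forms evaluate linearly. -/
theorem hom1_eval {r : MvPolynomial (Fin n) ℂ} (hr : r.IsHomogeneous 1) (u v : Fin n → ℂ)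
    (c d : ℂ) : eval (fun i => c * u i + d * v i) r = c * eval u r + d * eval v r := by
  rw [hom1_mem] at hr
  induction hr using Submodule.span_induction with
  | mem x hx => obtain ⟨i, rfl⟩ := hx; simp
  | zero => simp
  | add x y _ _ hx hy => rw [map_add, map_add, map_add, hx, hy]; ring
  | smul a x _ hx => rw [smul_eval, smul_eval, smul_eval, hx]; ring

/-- Induction for quadratic forms. -/
theorem hom2_induction {P : MvPolynomial (Fin n) ℂ → Prop}
    (hmul : ∀ r s : MvPolynomial (Fin n) ℂ, r.IsHomogeneous 1 → s.IsHomogeneous 1 → P (r * s))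
    (hadd : ∀ p q, P p → P q → P (p + q)) {q : MvPolynomial (Fin n) ℂ}
    (hq : q.IsHomogeneous 2) : P q := by
  have h1 : q ∈ (homogeneousSubmodule (Fin n) ℂ 1) * (homogeneousSubmodule (Fin n) ℂ 1) := by
    rw [← pow_two, homogeneousSubmodule_one_pow]; exact hq
  induction h1 using Submodule.mul_induction_on' with
  | mem_mul_mem r hr s hs => exact hmul r s hr hs
  | add x hx y hy ihx ihy =>
    have e1 : x.IsHomogeneous 2 := by
      rw [← pow_two, homogeneousSubmodule_one_pow] at hx; exact hx
    have e2 : y.IsHomogeneous 2 := by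
      rw [← pow_two, homogeneousSubmodule_one_pow] at hy; exact hy
    exact hadd _ _ (ihx e1) (ihy e2)

theorem hom2_eval_scale {q : MvPolynomial (Fin n) ℂ} (hq : q.IsHomogeneous 2) (u : Fin n → ℂ)
    (c : ℂ) : eval (fun i => c * u i) q = c ^ 2 * eval u q := by
  refine hom2_induction (P := fun q => eval (fun i => c * u i) q = c ^ 2 * eval u q) ?_ ?_ hq
  · intro r s hr hs
    have e : (fun i => c * u i) = (fun i => c * u i + 0 * u i) := by funext i; ring
    rw [map_mul, map_mul, e, hom1_eval hr, hom1_eval hs]; ring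
  · intro p q hp hq
    rw [map_add, map_add, hp, hq]; ring

theorem hom2_eval_mid {q : MvPolynomial (Fin n) ℂ} (hq : q.IsHomogeneous 2) (u v : Fin n → ℂ) :
    eval (fun i => (u i + v i) / 2) q =
      (eval u q + eval v q) / 2 - eval (fun i => u i - v i) q / 4 := by
  refine hom2_induction (P := fun q => eval (fun i => (u i + v i) / 2) q =
      (eval u q + eval v q) / 2 - eval (fun i => u i - v i) q / 4) ?_ ?_ hq
  · intro r s hr hs
    have e1 : (fun i => (u i + v i) / 2) = (fun i => (1 / 2) * u i + (1 / 2) * v i) := by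
      funext i; ring
    have e2 : (fun i => u i - v i) = (fun i => 1 * u i + (-1) * v i) := by funext i; ring
    rw [map_mul, map_mul, map_mul, map_mul, e1, e2, hom1_eval hr, hom1_eval hs, hom1_eval hr,
      hom1_eval hs]; ring
  · intro p q hp hq
    rw [map_add, map_add, map_add, map_add, hp, hq]; ring

/-- Decomposition of a polynomial of degree at most two. -/
theorem deg2_split {p : MvPolynomial (Fin n) ℂ} (hp : p.totalDegree ≤ 2) :
    p = C (coeff 0 p) + homogeneousComponent 1 p + homogeneousComponent 2 p := by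
  have h1 := sum_homogeneousComponent p
  have h2 : ∑ i ∈ Finset.range 3, homogeneousComponent i p = p := by
    conv_rhs => rw [← h1]
    symm
    refine Finset.sum_subset (Finset.range_mono (by omega)) ?_
    intro j _ hj
    rw [Finset.mem_range, not_lt] at hj
    exact homogeneousComponent_eq_zero _ _ (by omega)
  rw [Finset.sum_range_succ, Finset.sum_range_succ, Finset.sum_range_succ, Finset.sum_range_zero,
    zero_add, homogeneousComponent_zero] at h2
  exact h2.symm

theorem deg2_eval_mid {p : MvPolynomial (Fin n) ℂ} (hp : p.totalDegree ≤ 2) (u v : Fin n → ℂ) :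
    eval (fun i => (u i + v i) / 2) p =
      (eval u p + eval v p) / 2 - eval (fun i => u i - v i) (homogeneousComponent 2 p) / 4 := by
  have h2 := hom2_eval_mid (homogeneousComponent_isHomogeneous 2 p) u v
  have e1 : (fun i => (u i + v i) / 2) = (fun i => (1 / 2) * u i + (1 / 2) * v i) := by
    funext i; ring
  have h1 := hom1_eval (homogeneousComponent_isHomogeneous 1 p) u v (1 / 2) (1 / 2)
  rw [← e1] at h1
  have hs := deg2_split hp
  have hu : eval u p = coeff 0 p + eval u (homogeneousComponent 1 p) +
      eval u (homogeneousComponent 2 p) := by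
    conv_lhs => rw [hs, map_add, map_add, eval_C]
  have hv : eval v p = coeff 0 p + eval v (homogeneousComponent 1 p) +
      eval v (homogeneousComponent 2 p) := by
    conv_lhs => rw [hs, map_add, map_add, eval_C]
  have hm : eval (fun i => (u i + v i) / 2) p = coeff 0 p +
      eval (fun i => (u i + v i) / 2) (homogeneousComponent 1 p) +
      eval (fun i => (u i + v i) / 2) (homogeneousComponent 2 p) := by
    conv_lhs => rw [hs, map_add, map_add, eval_C]
  rw [hm, h1, h2, hu, hv]; ring

theorem eval_equiv (F : MvPolynomial (Fin n) ℂ ≃ₐ[ℂ] MvPolynomial (Fin n) ℂ) (v : Fin n → ℂ)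
    (q : MvPolynomial (Fin n) ℂ) : eval v (F q) = eval (fun i => eval v (F (X i))) q := by
  have h : (aeval v : MvPolynomial (Fin n) ℂ →ₐ[ℂ] ℂ).comp
      (F : MvPolynomial (Fin n) ℂ →ₐ[ℂ] MvPolynomial (Fin n) ℂ) =
      aeval (fun i => eval v (F (X i))) := by
    refine algHom_ext (fun i => ?_)
    rw [AlgHom.comp_apply, aeval_X]
    rfl
  have h2 := DFunLike.congr_fun h q
  rw [AlgHom.comp_apply] at h2
  change aeval v (F q) = _ at h2
  rw [av, av] at h2
  exact h2

/-- The quadratic part of a quadratic involution squares to zero under composition. -/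
theorem quad_comp_zero (F : MvPolynomial (Fin n) ℂ ≃ₐ[ℂ] MvPolynomial (Fin n) ℂ)
    (hF : F * F = 1) (hdeg : ∀ i, (F (X i)).totalDegree ≤ 2) (i : Fin n) :
    aeval (fun j => homogeneousComponent 2 (F (X j))) (homogeneousComponent 2 (F (X i))) = 0 := by
  obtain ⟨f, hf⟩ : ∃ f : Fin n → MvPolynomial (Fin n) ℂ, ∀ i, F (X i) = f i :=
    ⟨fun i => F (X i), fun i => rfl⟩
  have hFa : ∀ q, F q = aeval f q := by
    intro q; rw [equiv_eq_aeval F q]; simp only [hf]
  have hFF : ∀ q, F (F q) = q := by
    intro q
    have := DFunLike.congr_fun hF q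
    exact this
  have hfD : ∀ j, (f j).totalDegree ≤ 2 := by intro j; rw [← hf]; exact hdeg j
  simp only [hf]
  obtain ⟨h, hh⟩ : ∃ h : Fin n → MvPolynomial (Fin n) ℂ,
      ∀ j, h j = homogeneousComponent 2 (f j) := ⟨_, fun j => rfl⟩
  have hhom : ∀ j, (h j).IsHomogeneous 2 := by
    intro j; rw [hh]; exact homogeneousComponent_isHomogeneous 2 (f j)
  have e0 : (fun j => homogeneousComponent 2 (f j)) = h := by funext j; rw [hh]
  rw [e0, ← hh]
  have hsplit : ∀ j, f j = C (coeff 0 (f j)) + homogeneousComponent 1 (f j) + h j := by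
    intro j; rw [hh]; exact deg2_split (hfD j)
  have hdiff : ∀ j, (f j - h j).totalDegree ≤ 1 := by
    intro j
    have : f j - h j = C (coeff 0 (f j)) + homogeneousComponent 1 (f j) := by
      conv_lhs => rw [hsplit j]
      ring
    rw [this]
    refine (totalDegree_add _ _).trans (max_le ?_ ?_)
    · rw [totalDegree_C]; exact Nat.zero_le _
    · exact (homogeneousComponent_isHomogeneous 1 (f j)).totalDegree_le
  have key : ∀ q : MvPolynomial (Fin n) ℂ, q.IsHomogeneous 2 →
      (aeval f q - aeval h q).totalDegree ≤ 3 := by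
    intro q hq
    refine hom2_induction (P := fun q => (aeval f q - aeval h q).totalDegree ≤ 3) ?_ ?_ hq
    · intro r s hr hs
      have hlin : ∀ r : MvPolynomial (Fin n) ℂ, r.IsHomogeneous 1 →
          (aeval f r - aeval h r).totalDegree ≤ 1 := by
        intro r hr
        have h1 : aeval f r - aeval h r = aeval (fun j => f j - h j) r := by
          rw [hom1_mem] at hr
          induction hr using Submodule.span_induction with
          | mem x hx => obtain ⟨j, rfl⟩ := hx; simp
          | zero => simp
          | add x y _ _ hx hy => rw [map_add, map_add, map_add, ← hx, ← hy]; ring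
          | smul a x _ hx => rw [map_smul, map_smul, map_smul, ← hx, smul_sub]
        rw [h1]
        exact totalDegree_linear_comb hdiff hr
      have h2 : aeval f (r * s) - aeval h (r * s) = (aeval f r - aeval h r) * aeval f s +
          aeval h r * (aeval f s - aeval h s) := by
        rw [map_mul, map_mul]; ring
      rw [h2]
      refine (totalDegree_add _ _).trans (max_le ?_ ?_)
      · refine (totalDegree_mul _ _).trans ?_
        have a1 := hlin r hr
        have a2 : (aeval f s).totalDegree ≤ 2 := totalDegree_linear_comb hfD hs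
        omega
      · refine (totalDegree_mul _ _).trans ?_
        have a1 := hlin s hs
        have a2 : (aeval h r).totalDegree ≤ 2 :=
          totalDegree_linear_comb (fun j => (hhom j).totalDegree_le) hr
        omega
    · intro p q hp hq
      rw [map_add, map_add, add_sub_add_comm]
      exact (totalDegree_add _ _).trans (max_le hp hq)
  have hFh : (aeval f (h i)).totalDegree ≤ 2 := by
    have h1 : F (h i) = X i - C (coeff 0 (f i)) - F (homogeneousComponent 1 (f i)) := by
      have h2 : h i = f i - C (coeff 0 (f i)) - homogeneousComponent 1 (f i) := by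
        conv_rhs => rw [hsplit i]
        have h3 : coeff 0 (C (coeff 0 (f i)) + homogeneousComponent 1 (f i) + h i) =
            coeff 0 (f i) := by rw [← hsplit i]
        have h4 : homogeneousComponent 1 (C (coeff 0 (f i)) + homogeneousComponent 1 (f i) + h i)
            = homogeneousComponent 1 (f i) := by rw [← hsplit i]
        rw [h3, h4]; ring
      conv_lhs => rw [h2]
      have hC : F (C (coeff 0 (f i))) = C (coeff 0 (f i)) := F.commutes _
      rw [map_sub, map_sub, hC, ← hf, hFF]
    rw [← hFa, h1]
    refine (totalDegree_sub _ _).trans (max_le ((totalDegree_sub _ _).trans (max_le ?_ ?_)) ?_)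
    · exact (X_totalDegree_le i).trans (by norm_num)
    · rw [totalDegree_C]; exact Nat.zero_le _
    · rw [hFa]
      exact totalDegree_linear_comb hfD (homogeneousComponent_isHomogeneous 1 (f i))
  have h3 : (aeval h (h i)).totalDegree ≤ 3 := by
    have : aeval h (h i) = aeval f (h i) - (aeval f (h i) - aeval h (h i)) := by ring
    rw [this]
    exact (totalDegree_sub _ _).trans (max_le (hFh.trans (by norm_num)) (key _ (hhom i)))
  have h4 : Ord (3 + 1) (aeval h (h i)) := Ord.of_hom ((hhom i).aeval h hhom)
  exact eq_zero_of_ord h4 h3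

/-- A quadratic involution has a fixed point. -/
theorem exists_fixed (F : MvPolynomial (Fin n) ℂ ≃ₐ[ℂ] MvPolynomial (Fin n) ℂ)
    (hF : F * F = 1) (hdeg : ∀ i, (F (X i)).totalDegree ≤ 2) :
    ∃ a : Fin n → ℂ, ∀ i, eval a (F (X i)) = a i := by
  have hFF : ∀ q, F (F q) = q := by
    intro q
    have := DFunLike.congr_fun hF q
    exact this
  obtain ⟨fv, hfv⟩ : ∃ fv : (Fin n → ℂ) → (Fin n → ℂ), ∀ v i, fv v i = eval v (F (X i)) :=
    ⟨fun v i => eval v (F (X i)), fun v i => rfl⟩
  obtain ⟨hv, hhv⟩ : ∃ hv : (Fin n → ℂ) → (Fin n → ℂ), ∀ v i, hv v i =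
      eval v (homogeneousComponent 2 (F (X i))) := ⟨_, fun v i => rfl⟩
  have hinv : ∀ v, fv (fv v) = v := by
    intro v
    funext i
    rw [hfv]
    have e : fv v = fun i => eval v (F (X i)) := by funext i; rw [hfv]
    rw [e, ← eval_equiv, hFF, eval_X]
  have hmid : ∀ v, fv (fun i => (v i + fv v i) / 2) = fun i =>
      (v i + fv v i) / 2 - hv (fun i => v i - fv v i) i / 4 := by
    intro v
    funext i
    rw [hfv, deg2_eval_mid (hdeg i) v (fv v), ← hfv, ← hfv, hinv, hhv]
    ring
  have hzero : ∀ w i, hv (hv w) i = 0 := by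
    intro w i
    have h1 := quad_comp_zero F hF hdeg i
    have h2 := congrArg (eval w) h1
    rw [map_zero] at h2
    rw [hhv]
    have e : hv w = fun j => eval w (homogeneousComponent 2 (F (X j))) := by funext j; rw [hhv]
    rw [e]
    rw [← h2]
    have h3 : (aeval w : MvPolynomial (Fin n) ℂ →ₐ[ℂ] ℂ).comp
        (aeval (fun j => homogeneousComponent 2 (F (X j)))) =
        aeval (fun j => eval w (homogeneousComponent 2 (F (X j)))) := by
      refine algHom_ext (fun j => ?_)
      rw [AlgHom.comp_apply, aeval_X, aeval_X, av]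
    have h4 := DFunLike.congr_fun h3 (homogeneousComponent 2 (F (X i)))
    rw [AlgHom.comp_apply, av, av] at h4
    exact h4.symm
  set m1 : Fin n → ℂ := fun i => ((0 : Fin n → ℂ) i + fv 0 i) / 2 with hm1
  have hf1 : ∀ i, fv m1 i = m1 i - hv (fun i => (0 : Fin n → ℂ) i - fv 0 i) i / 4 := by
    intro i; rw [hm1, hmid 0]
  set m2 : Fin n → ℂ := fun i => (m1 i + fv m1 i) / 2 with hm2
  refine ⟨m2, fun i => ?_⟩
  rw [← hfv]
  have h5 : fv m2 i = m2 i - hv (fun i => m1 i - fv m1 i) i / 4 := by
    rw [hm2, hmid m1]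
  have h6 : (fun i => m1 i - fv m1 i) =
      fun i => (1 / 4) * hv (fun i => (0 : Fin n → ℂ) i - fv 0 i) i := by
    funext i; rw [hf1]; ring
  rw [h5, h6, hhv, hom2_eval_scale (homogeneousComponent_isHomogeneous 2 _), ← hhv, hzero]
  ring

/-- Involutions of degree at most two are linearizable. -/
theorem quadratic (F : MvPolynomial (Fin n) ℂ ≃ₐ[ℂ] MvPolynomial (Fin n) ℂ)
    (hF : F * F = 1) (hdeg : ∀ i, (F (X i)).totalDegree ≤ 2) :
    ∃ V : MvPolynomial (Fin n) ℂ ≃ₐ[ℂ] MvPolynomial (Fin n) ℂ,
      ∀ i, ((V⁻¹ * F * V) (X i)).IsHomogeneous 1 := by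
  obtain ⟨a, ha⟩ := exists_fixed F hF hdeg
  refine window F hF a (d := 2) le_rfl ?_
  intro i m hm
  have h1 : (aeval (fun j => X j + C (a j)) (F (X i)) - C (a i) :
      MvPolynomial (Fin n) ℂ).totalDegree ≤ 2 := by
    refine (totalDegree_sub _ _).trans (max_le ?_ ?_)
    · refine (totalDegree_aeval_le (fun j => ?_) _).trans (hdeg i)
      refine (totalDegree_add _ _).trans (max_le (X_totalDegree_le j) ?_)
      rw [totalDegree_C]; exact Nat.zero_le _
    · rw [totalDegree_C]; exact Nat.zero_le _
  have h2 : m.degree ≤ 2 := (le_totalDegree hm).trans h1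
  have h3 : m.degree ≠ 0 := by
    intro h0
    have hm0 : m = 0 := by
      rwa [Finsupp.degree_eq_zero_iff] at h0
    rw [hm0, mem_support_iff] at hm
    apply hm
    rw [← constantCoeff_eq, map_sub, constantCoeff_C]
    have h4 : constantCoeff (aeval (fun j => X j + C (a j)) (F (X i)) :
        MvPolynomial (Fin n) ℂ) = eval a (F (X i)) := by
      have h5 : (aeval (0 : Fin n → ℂ) : MvPolynomial (Fin n) ℂ →ₐ[ℂ] ℂ).comp
          (aeval (fun j => X j + C (a j))) = aeval a := by
        refine algHom_ext (fun j => ?_)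
        rw [AlgHom.comp_apply, aeval_X, aeval_X, map_add, aeval_X, aeval_C]
        simp
      have h6 := DFunLike.congr_fun h5 (F (X i))
      rw [AlgHom.comp_apply, av, av] at h6
      rw [← h6, ← eval_zero]
    rw [h4, ha, sub_self]
  omega

end Pool.Agent.H94.Inv
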