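import Pool.Agent.H94.InvE

set_option autoImplicit false

namespace Pool.Agent.H94.Inv

open MvPolynomial

variable {n : ℕ}

/-- The linear part of an involution fixing the origin is an involution. -/
theorem lin_invol (F : MvPolynomial (Fin n) ℂ ≃ₐ[ℂ] MvPolynomial (Fin n) ℂ) (hF : F * F = 1)
    (h0 : ∀ i, constantCoeff (F (X i)) = 0) (i : Fin n) :
    aeval (fun j => homogeneousComponent 1 (F (X j))) (homogeneousComponent 1 (F (X i))) = X i := by
  obtain ⟨f, hf⟩ : ∃ f : Fin n → MvPolynomial (Fin n) ℂ, ∀ i, F (X i) = f i :=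
    ⟨fun i => F (X i), fun i => rfl⟩
  have hFa : ∀ q, F q = aeval f q := by
    intro q; rw [equiv_eq_aeval F q]; simp only [hf]
  simp only [hf]
  obtain ⟨l, hl⟩ : ∃ l : Fin n → MvPolynomial (Fin n) ℂ,
      ∀ i, l i = homogeneousComponent 1 (f i) := ⟨_, fun i => rfl⟩
  have e0 : (fun j => homogeneousComponent 1 (f j)) = l := by funext j; rw [hl]
  rw [e0, ← hl]
  have hlh : ∀ i, (l i).IsHomogeneous 1 := by
    intro i; rw [hl]; exact homogeneousComponent_isHomogeneous 1 (f i)
  have hlO : ∀ i, Ord 1 (l i) := fun i => Ord.of_hom (hlh i)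
  have hfO : ∀ i, Ord 1 (f i) := by
    intro i m hm
    by_contra hcon
    have hm0 : m = 0 := by
      rw [← Finsupp.degree_eq_zero_iff]; omega
    rw [hm0, mem_support_iff, ← constantCoeff_eq, ← hf, h0] at hm
    exact hm rfl
  have hnO : ∀ i, Ord 2 (f i - l i) := by
    intro i m hm
    rw [mem_support_iff, coeff_sub, hl, coeff_homogeneousComponent] at hm
    by_cases h1 : m.degree = 1
    · rw [if_pos h1, sub_self] at hm; exact absurd rfl hm
    · rw [if_neg h1, sub_zero, ← mem_support_iff] at hm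
      have := hfO i m hm
      omega
  have hsplit : ∀ i, f i = l i + (f i - l i) := fun i => by ring
  have hFF : ∀ q, F (F q) = q := by
    intro q
    have := DFunLike.congr_fun hF q
    exact this
  have h1 : F (l i) + F (f i - l i) = X i := by
    rw [← map_add, ← hsplit, ← hf, hFF]
  have hpO : Ord 2 (F (l i) - aeval l (l i)) := by
    rw [hFa]
    have := aeval_sub_ord hfO hlO hnO (hlO i)
    rwa [Nat.sub_self, zero_add] at this
  have hFnO : Ord 2 (F (f i - l i)) := by
    rw [hFa]; exact aeval_ord hfO (hnO i)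
  have h2 : Ord 2 (X i - aeval l (l i)) := by
    have : X i - aeval l (l i) = (F (l i) - aeval l (l i)) + F (f i - l i) := by
      rw [← h1]; ring
    rw [this]
    exact hpO.add hFnO
  have h3 : (X i - aeval l (l i)).totalDegree ≤ 1 := by
    refine (totalDegree_sub _ _).trans (max_le (X_totalDegree_le i) ?_)
    exact totalDegree_linear_comb (fun j => (hlh j).totalDegree_le) (hlh i)
  have h4 := eq_zero_of_ord h2 h3
  exact (sub_eq_zero.mp h4).symm

theorem totalDegree_nsmul_le' (m : ℕ) (p : MvPolynomial (Fin n) ℂ) :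
    (m • p).totalDegree ≤ p.totalDegree := by
  rw [← Nat.cast_smul_eq_nsmul ℂ]
  exact totalDegree_smul_le _ _

/-- If the iterates of the product of an involution and its linear part have bounded degree, then
the involution is linearizable. -/
theorem bounded_zero (F : MvPolynomial (Fin n) ℂ ≃ₐ[ℂ] MvPolynomial (Fin n) ℂ) (hF : F * F = 1)
    (h0 : ∀ i, constantCoeff (F (X i)) = 0)
    (L : MvPolynomial (Fin n) ℂ ≃ₐ[ℂ] MvPolynomial (Fin n) ℂ)
    (hL : ∀ i, L (X i) = homogeneousComponent 1 (F (X i)))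
    (hb : ∀ i, ∃ D : ℕ, ∀ m : ℕ, (((F * L) ^ m) (X i)).totalDegree ≤ D) :
    ∃ V : MvPolynomial (Fin n) ℂ ≃ₐ[ℂ] MvPolynomial (Fin n) ℂ, V⁻¹ * F * V = L := by
  have hLa : ∀ q, L q = aeval (fun j => homogeneousComponent 1 (F (X j))) q := by
    intro q; rw [equiv_eq_aeval L q]; simp only [hL]
  have hLL : L * L = 1 := by
    have h1 : (L : MvPolynomial (Fin n) ℂ →ₐ[ℂ] MvPolynomial (Fin n) ℂ).comp
        (L : MvPolynomial (Fin n) ℂ →ₐ[ℂ] MvPolynomial (Fin n) ℂ) = AlgHom.id ℂ _ := by
      refine algHom_ext (fun i => ?_)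
      rw [AlgHom.comp_apply]
      change L (L (X i)) = X i
      rw [hL, hLa]
      exact lin_invol F hF h0 i
    refine AlgEquiv.ext (fun q => ?_)
    exact DFunLike.congr_fun h1 q
  obtain ⟨f, hf⟩ : ∃ f : Fin n → MvPolynomial (Fin n) ℂ, ∀ i, F (X i) = f i :=
    ⟨fun i => F (X i), fun i => rfl⟩
  have hFa : ∀ q, F q = aeval f q := by
    intro q; rw [equiv_eq_aeval F q]; simp only [hf]
  have hlh : ∀ i, (L (X i)).IsHomogeneous 1 := by
    intro i; rw [hL]; exact homogeneousComponent_isHomogeneous 1 _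
  have hlO : ∀ i, Ord 1 (L (X i)) := fun i => Ord.of_hom (hlh i)
  have hfO : ∀ i, Ord 1 (f i) := by
    intro i m hm
    by_contra hcon
    have hm0 : m = 0 := by
      rw [← Finsupp.degree_eq_zero_iff]; omega
    rw [hm0, mem_support_iff, ← constantCoeff_eq, ← hf, h0] at hm
    exact hm rfl
  have hnO : ∀ i, Ord 2 (f i - L (X i)) := by
    intro i m hm
    rw [mem_support_iff, coeff_sub, hL, hf, coeff_homogeneousComponent] at hm
    by_cases h1 : m.degree = 1
    · rw [if_pos h1, sub_self] at hm; exact absurd rfl hm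
    · rw [if_neg h1, sub_zero, ← mem_support_iff] at hm
      have := hfO i m hm
      omega
  -- displacement of the product on the variables has order two
  have hσ2 : ∀ i, Ord 2 ((F * L) (X i) - X i) := by
    intro i
    have h1 : (F * L) (X i) - X i = F (L (X i)) - L (L (X i)) := by
      have h2 : L (L (X i)) = X i := DFunLike.congr_fun hLL (X i)
      rw [h2]; rfl
    have h3 : ∀ q, L q = aeval (fun j => L (X j)) q := fun q => equiv_eq_aeval L q
    rw [h1, hFa, h3 (L (X i))]
    have := aeval_sub_ord hfO hlO hnO (hlO i)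
    rwa [Nat.sub_self, zero_add] at this
  have hσ1 : ∀ i, Ord 1 ((F * L) (X i)) := by
    intro i
    have := ((hσ2 i).mono (by norm_num : 1 ≤ 2)).add (Ord.of_hom (isHomogeneous_X ℂ i))
    rwa [sub_add_cancel] at this
  set D : Module.End ℂ (MvPolynomial (Fin n) ℂ) := (F * L).toLinearMap - 1 with hD
  have hDapp : ∀ q, D q = (F * L) q - q := by
    intro q; rw [hD, LinearMap.sub_apply]; rfl
  have hDord : ∀ (e : ℕ) (q : MvPolynomial (Fin n) ℂ), Ord (e + 1) q → Ord (e + 2) (D q) := by
    intro e q hq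
    rw [hDapp, equiv_eq_aeval (F * L) q]
    have h := aeval_sub_ord (d := 2) (e := e + 1) (q := q) (g := fun i => (F * L) (X i))
      (g' := fun i => (X i : MvPolynomial (Fin n) ℂ)) hσ1
      (fun j => Ord.of_hom (isHomogeneous_X ℂ j)) hσ2 hq
    have h4 : aeval (fun i => (X i : MvPolynomial (Fin n) ℂ)) q = q := aeval_X_left_apply q
    rw [h4] at h
    exact h.mono (by omega)
  have hDpow : ∀ (N : ℕ) (i : Fin n), Ord (N + 1) ((D ^ N) (X i)) := by
    intro N i
    induction N with
    | zero => exact Ord.of_hom (isHomogeneous_X ℂ i)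
    | succ N ih =>
      rw [pow_succ', Module.End.mul_apply]
      exact hDord N _ ih
  refine conj_of_unipotent F L hF hLL (fun i => ?_)
  obtain ⟨B, hB⟩ := hb i
  refine ⟨B, eq_zero_of_ord (hDpow B i) ?_⟩
  -- degree bound
  have hpow : ∀ m : ℕ, ((F * L) ^ m) (X i) = ((F * L).toLinearMap ^ m) (X i) := by
    intro m
    induction m with
    | zero => rfl
    | succ m ih =>
      rw [pow_succ', pow_succ', Module.End.mul_apply, ← ih]
      rfl
  have hcomm : Commute (F * L).toLinearMap (-1 : Module.End ℂ (MvPolynomial (Fin n) ℂ)) := by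
    refine LinearMap.ext (fun q => ?_)
    change (F * L) (-q) = -((F * L) q)
    exact map_neg _ _
  have h5 : (D ^ B) (X i) = ∑ j ∈ Finset.range (B + 1),
      ((F * L).toLinearMap ^ j * (-1) ^ (B - j) * ((B.choose j : ℕ) :
        Module.End ℂ (MvPolynomial (Fin n) ℂ))) (X i) := by
    rw [hD, sub_eq_add_neg, hcomm.add_pow, LinearMap.sum_apply]
  rw [h5]
  refine (totalDegree_finsetSum _ _).trans (Finset.sup_le ?_)
  intro j _
  have h6 : ((F * L).toLinearMap ^ j * (-1) ^ (B - j) * ((B.choose j : ℕ) :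
        Module.End ℂ (MvPolynomial (Fin n) ℂ))) (X i) =
        (((-1 : ℂ) ^ (B - j)) * (B.choose j : ℂ)) • ((F * L) ^ j) (X i) := by
    have e0 : ∀ k : ℕ, ((-1 : Module.End ℂ (MvPolynomial (Fin n) ℂ)) ^ k) =
        ((-1 : ℂ) ^ k) • (1 : Module.End ℂ (MvPolynomial (Fin n) ℂ)) := by
      intro k
      induction k with
      | zero => rw [pow_zero, pow_zero, one_smul]
      | succ k ih =>
        rw [pow_succ, ih, pow_succ]
        refine LinearMap.ext (fun q => ?_)
        change ((-1 : ℂ) ^ k) • (-q) = ((-1 : ℂ) ^ k * (-1)) • q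
        rw [mul_smul, neg_one_smul]
    have e1 := e0 (B - j)
    rw [Module.End.mul_apply, Module.End.natCast_apply, e1, Module.End.mul_apply, map_nsmul,
      LinearMap.smul_apply, Module.End.one_apply, map_nsmul, map_smul, hpow,
      ← Nat.cast_smul_eq_nsmul ℂ, smul_smul, mul_comm]
  rw [h6]
  exact (totalDegree_smul_le _ _).trans (hB j)

end Pool.Agent.H94.Inv
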