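import Pool.Agent.H94.Conn2

set_option autoImplicit false

namespace Pool.Agent.H94

open Finset

variable {α : Type*} [DecidableEq α]

/-- Paving-type system of bases of rank `r` on the ground set `E`. -/
structure PB (r : ℕ) (E : Finset α) (base : Finset α → Prop) : Prop where
  sub : ∀ B, base B → B ⊆ E
  card : ∀ B, base B → B.card = r
  pav : ∀ (I : Finset α) (y z : α), I ⊆ E → y ∈ E → z ∈ E → y ∉ I → z ∉ I → y ≠ z →
    I.card + 1 = r → ¬ base (insert y I) → ¬ base (insert z I) →
    ∀ S : Finset α, S ⊆ insert y (insert z I) → S.card = r → ¬ base S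

/-- Symmetric difference. -/
def sd (A B : Finset α) : Finset α := (A \ B) ∪ (B \ A)

/-- Contraction of the common part of two bases. -/
def ctr (base : Finset α → Prop) (A B S : Finset α) : Prop := base ((A ∩ B) ∪ S)

variable {r : ℕ} {E : Finset α} {base : Finset α → Prop}

theorem mem_sd {A B : Finset α} {v : α} : v ∈ sd A B ↔ (v ∈ A ∧ v ∉ B) ∨ (v ∈ B ∧ v ∉ A) := by
  rw [sd, mem_union, mem_sdiff, mem_sdiff]

theorem sd_comm (A B : Finset α) : sd A B = sd B A := by
  ext v; rw [mem_sd, mem_sd]; tauto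

theorem card_sdiff_eq {A B : Finset α} (hc : A.card = B.card) : (A \ B).card = (B \ A).card := by
  have h1 := card_inter_add_card_sdiff A B
  have h2 := card_inter_add_card_sdiff B A
  rw [inter_comm] at h2
  omega

theorem card_sd {A B : Finset α} (hc : A.card = B.card) : (sd A B).card = 2 * (A \ B).card := by
  have hd : Disjoint (A \ B) (B \ A) := by
    rw [disjoint_left]; intro v h1 h2
    exact (mem_sdiff.mp h1).2 (mem_sdiff.mp h2).1
  rw [sd, card_union_of_disjoint hd, ← card_sdiff_eq hc]; ring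

theorem disj_sd (A B : Finset α) : Disjoint (A ∩ B) (sd A B) := by
  rw [disjoint_left]; intro v h1 h2
  rw [mem_inter] at h1
  rw [mem_sd] at h2
  tauto

theorem sd_sdiff_left (A B : Finset α) : sd A B \ (A \ B) = B \ A := by
  ext v; simp only [mem_sdiff, mem_sd]; tauto

theorem inter_union_sdiff (A B : Finset α) : (A ∩ B) ∪ (A \ B) = A := by
  ext v; simp only [mem_union, mem_inter, mem_sdiff]; tauto

theorem inter_union_sdiff' (A B : Finset α) : (A ∩ B) ∪ (B \ A) = B := by
  ext v; simp only [mem_union, mem_inter, mem_sdiff]; tauto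

theorem PB.pf (h : PB r E base) {A B : Finset α} (hA : base A) (hB : base B) :
    PF (A \ B).card (sd A B) (ctr base A B) := by
  have hcA := h.card A hA
  have hcB := h.card B hB
  have hAE := h.sub A hA
  have hBE := h.sub B hB
  have hsplit : (A ∩ B).card + (A \ B).card = r := by
    rw [card_inter_add_card_sdiff]; exact hcA
  have hsdE : sd A B ⊆ E := by
    intro v hv
    rw [mem_sd] at hv
    rcases hv with hv | hv
    · exact hAE hv.1
    · exact hBE hv.1
  have hout : ∀ v ∈ sd A B, v ∉ A ∩ B := by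
    intro v hv hv'
    exact disjoint_left.mp (disj_sd A B) hv' hv
  refine ⟨card_sd (hcA.trans hcB.symm), ?_, ?_⟩
  · intro I y z hI hy hz hyI hzI hyz hc hb1 hb2 S hS hSc
    have hdI : Disjoint (A ∩ B) I := disjoint_of_subset_right hI (disj_sd A B)
    have hSU : S ⊆ sd A B := by
      intro v hv
      have := hS hv
      simp only [mem_insert] at this
      rcases this with rfl | rfl | h'
      exacts [hy, hz, hI h']
    have hdS : Disjoint (A ∩ B) S := disjoint_of_subset_right hSU (disj_sd A B)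
    refine h.pav (A ∩ B ∪ I) y z ?_ (hsdE hy) (hsdE hz) ?_ ?_ hyz ?_ ?_ ?_ (A ∩ B ∪ S) ?_ ?_
    · exact union_subset (inter_subset_left.trans hAE) (hI.trans hsdE)
    · rw [mem_union]; rintro (h' | h'); exacts [hout y hy h', hyI h']
    · rw [mem_union]; rintro (h' | h'); exacts [hout z hz h', hzI h']
    · rw [card_union_of_disjoint hdI]; omega
    · rw [← union_insert]; exact hb1
    · rw [← union_insert]; exact hb2
    · intro v hv
      simp only [mem_insert, mem_union] at hv ⊢
      rcases hv with hv | hv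
      · tauto
      · have := hS hv
        simp only [mem_insert] at this
        tauto
    · rw [card_union_of_disjoint hdS]; omega
  · refine ⟨A \ B, ?_, rfl, ?_, ?_⟩
    · intro v hv; rw [mem_sdiff] at hv; rw [mem_sd]; exact Or.inl hv
    · rw [ctr, inter_union_sdiff]; exact hA
    · rw [ctr, sd_sdiff_left, inter_union_sdiff']; exact hB

theorem good_self {A B : Finset α} (hA : base A) (hB : base B) :
    Good (A \ B).card (sd A B) (ctr base A B) (A \ B) := by
  refine ⟨?_, rfl, ?_, ?_⟩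
  · intro v hv; rw [mem_sdiff] at hv; rw [mem_sd]; exact Or.inl hv
  · rw [ctr, inter_union_sdiff]; exact hA
  · rw [ctr, sd_sdiff_left, inter_union_sdiff']; exact hB

/-- The type of an exceptional pair. -/
def Ty (base : Finset α → Prop) (P A Q B : Finset α) : Prop :=
  ((P \ A).card = 3 ∧ (Q \ B).card = 2 ∧
    Exc (sd P A) (sd Q B) (ctr base P A) (ctr base Q B)) ∨
  ((P \ A).card = 2 ∧ (Q \ B).card = 3 ∧
    Exc (sd Q B) (sd P A) (ctr base Q B) (ctr base P A))

theorem card_P_aux {P C T : Finset α} {d : α} (hd : d ∈ T) (hdC : d ∉ C) :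
    (P \ (C ∪ T.erase d)).card = (P \ (C ∪ T)).card + if d ∈ P then 1 else 0 := by
  by_cases hP : d ∈ P
  · rw [if_pos hP]
    have : P \ (C ∪ T.erase d) = insert d (P \ (C ∪ T)) := by
      ext v
      simp only [mem_sdiff, mem_union, mem_erase, mem_insert]
      by_cases hvd : v = d
      · subst hvd; simp [hP, hdC]
      · simp [hvd]
    rw [this, card_insert_of_notMem]
    rw [mem_sdiff, mem_union]; tauto
  · rw [if_neg hP]
    have : P \ (C ∪ T.erase d) = P \ (C ∪ T) := by
      ext v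
      simp only [mem_sdiff, mem_union, mem_erase]
      by_cases hvd : v = d
      · subst hvd; simp [hP]
      · simp [hvd]
    rw [this]; rfl

theorem exc_sets (h : PB r E base) {C1 C2 T P Q : Finset α} {x y p q z : α}
    (hT : T = {x, y, p, q}) (hxy : x ≠ y) (hxp : x ≠ p) (hxq : x ≠ q) (hyp : y ≠ p)
    (hyq : y ≠ q) (hpq : p ≠ q) (hC1 : C1.card + 3 = r) (hC2 : C2.card + 2 = r)
    (hTC1 : ∀ v ∈ T, v ∉ C1) (hTC2 : ∀ v ∈ T, v ∉ C2)
    (hbP : base P) (hbQ : base Q) (hzC : z ∈ C2) (hzQ : z ∉ Q)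
    (hbB : ∀ e : Finset α, (e = {x, p} ∨ e = {p, y} ∨ e = {y, q} ∨ e = {q, x}) →
      base (C2 ∪ e))
    (hs : ∀ e : Finset α, (e = {x, p} ∨ e = {p, y} ∨ e = {y, q} ∨ e = {q, x}) →
      ∀ d ∈ T, d ∉ e → Ty base P (C1 ∪ T.erase d) Q (C2 ∪ e)) : False := by
  have hxT : x ∈ T := by rw [hT]; simp
  have hyT : y ∈ T := by rw [hT]; simp
  have hpT : p ∈ T := by rw [hT]; simp
  have hqT : q ∈ T := by rw [hT]; simp
  have cP := h.card P hbP
  have cQ := h.card Q hbQ
  -- the eight states
  have s1 := hs {x, p} (Or.inl rfl) y hyT (by simp [hxy.symm, hyp])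
  have s2 := hs {x, p} (Or.inl rfl) q hqT (by simp [hxq.symm, hpq.symm])
  have s3 := hs {p, y} (Or.inr (Or.inl rfl)) x hxT (by simp [hxp, hxy])
  have s4 := hs {p, y} (Or.inr (Or.inl rfl)) q hqT (by simp [hpq.symm, hyq.symm])
  have s5 := hs {y, q} (Or.inr (Or.inr (Or.inl rfl))) x hxT (by simp [hxy, hxq])
  have s6 := hs {y, q} (Or.inr (Or.inr (Or.inl rfl))) p hpT (by simp [hyp.symm, hpq])
  have s7 := hs {q, x} (Or.inr (Or.inr (Or.inr rfl))) y hyT (by simp [hyq, hxy.symm])
  have s8 := hs {q, x} (Or.inr (Or.inr (Or.inr rfl))) p hpT (by simp [hpq, hxp.symm])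
  have ax := card_P_aux (P := P) hxT (hTC1 x hxT)
  have ay := card_P_aux (P := P) hyT (hTC1 y hyT)
  have ap := card_P_aux (P := P) hpT (hTC1 p hpT)
  have aq := card_P_aux (P := P) hqT (hTC1 q hqT)
  rcases s1 with ⟨u1, v1, w1⟩ | ⟨u1, v1, w1⟩
  · -- type one
    have w2 : (P \ (C1 ∪ T.erase q)).card = 3 ∧
        Exc (sd P (C1 ∪ T.erase q)) (sd Q (C2 ∪ {x, p})) (ctr base P (C1 ∪ T.erase q))
          (ctr base Q (C2 ∪ {x, p})) := by
      rcases s2 with ⟨a, b, c⟩ | ⟨a, b, c⟩
      · exact ⟨a, c⟩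
      · omega
    have w7 : (Q \ (C2 ∪ {q, x})).card = 2 ∧
        Exc (sd P (C1 ∪ T.erase y)) (sd Q (C2 ∪ {q, x})) (ctr base P (C1 ∪ T.erase y))
          (ctr base Q (C2 ∪ {q, x})) := by
      rcases s7 with ⟨a, b, c⟩ | ⟨a, b, c⟩
      · exact ⟨b, c⟩
      · omega
    have w8 : (P \ (C1 ∪ T.erase p)).card = 3 ∧
        Exc (sd P (C1 ∪ T.erase p)) (sd Q (C2 ∪ {q, x})) (ctr base P (C1 ∪ T.erase p))
          (ctr base Q (C2 ∪ {q, x})) := by
      rcases s8 with ⟨a, b, c⟩ | ⟨a, b, c⟩
      · exact ⟨a, c⟩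
      · omega
    have w4 : (Q \ (C2 ∪ {p, y})).card = 2 ∧
        Exc (sd P (C1 ∪ T.erase q)) (sd Q (C2 ∪ {p, y})) (ctr base P (C1 ∪ T.erase q))
          (ctr base Q (C2 ∪ {p, y})) := by
      rcases s4 with ⟨a, b, c⟩ | ⟨a, b, c⟩
      · exact ⟨b, c⟩
      · omega
    have w3 : (P \ (C1 ∪ T.erase x)).card = 3 ∧
        Exc (sd P (C1 ∪ T.erase x)) (sd Q (C2 ∪ {p, y})) (ctr base P (C1 ∪ T.erase x))
          (ctr base Q (C2 ∪ {p, y})) := by
      rcases s3 with ⟨a, b, c⟩ | ⟨a, b, c⟩
      · exact ⟨a, c⟩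
      · omega
    have w6 : (Q \ (C2 ∪ {y, q})).card = 2 ∧
        Exc (sd P (C1 ∪ T.erase p)) (sd Q (C2 ∪ {y, q})) (ctr base P (C1 ∪ T.erase p))
          (ctr base Q (C2 ∪ {y, q})) := by
      rcases s6 with ⟨a, b, c⟩ | ⟨a, b, c⟩
      · exact ⟨b, c⟩
      · omega
    by_cases hxP : x ∈ P
    · -- T inside P
      have t1 : x ∉ sd P (C1 ∪ T.erase y) := by
        rw [mem_sd]
        have : x ∈ C1 ∪ T.erase y := mem_union_right _ (mem_erase.mpr ⟨hxy, hxT⟩)
        tauto
      have t2 : x ∈ Q := by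
        by_contra hxQ
        refine t1 (w1.hWU ?_)
        rw [mem_sd]
        exact Or.inr ⟨by simp, hxQ⟩
      have t3 : x ∉ sd P (C1 ∪ T.erase p) := by
        rw [mem_sd]
        have : x ∈ C1 ∪ T.erase p := mem_union_right _ (mem_erase.mpr ⟨hxp, hxT⟩)
        tauto
      refine t3 (w6.2.hWU ?_)
      rw [mem_sd]
      refine Or.inl ⟨t2, ?_⟩
      have := hTC2 x hxT
      simp [this, hxy, hxq]
    · have hyP : y ∉ P := by
        intro hc; rw [if_pos hc] at ay; rw [if_neg hxP] at ax; omega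
      have hpP : p ∉ P := by
        intro hc; rw [if_pos hc] at ap; rw [if_neg hxP] at ax; omega
      have hqP : q ∉ P := by
        intro hc; rw [if_pos hc] at aq; rw [if_neg hxP] at ax; omega
      have key : ∀ (v : α) (e : Finset α), v ∈ T → v ∉ P → v ∉ e →
          sd Q (C2 ∪ e) ⊆ sd P (C1 ∪ T.erase v) → v ∉ Q := by
        intro v e hv hvP hve hsub hvQ
        have h1 : v ∈ sd Q (C2 ∪ e) := by
          rw [mem_sd]
          refine Or.inl ⟨hvQ, ?_⟩
          rw [mem_union]; rintro (h' | h')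
          exacts [hTC2 v hv h', hve h']
        have h2 := hsub h1
        rw [mem_sd, mem_union, mem_erase] at h2
        have := hTC1 v hv
        tauto
      have hxQ : x ∉ Q := key x {p, y} hxT hxP (by simp [hxp, hxy]) w3.2.hWU
      have hyQ : y ∉ Q := key y {x, p} hyT hyP (by simp [hxy.symm, hyp]) w1.hWU
      have hpQ : p ∉ Q := key p {q, x} hpT hpP (by simp [hpq, hxp.symm]) w8.2.hWU
      have hqQ : q ∉ Q := key q {x, p} hqT hqP (by simp [hxq.symm, hpq.symm]) w2.2.hWU
      have e1 : Q \ (C2 ∪ {x, p}) = Q \ C2 := by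
        ext v
        simp only [mem_sdiff, mem_union, mem_insert, mem_singleton]
        constructor
        · tauto
        · rintro ⟨h1, h2⟩
          refine ⟨h1, ?_⟩
          rintro (h3 | rfl | rfl)
          exacts [h2 h3, hxQ h1, hpQ h1]
      rw [e1] at v1
      have h1 := card_inter_add_card_sdiff Q C2
      have h2 : (Q ∩ C2).card = C2.card := by omega
      have h3 : Q ∩ C2 = C2 := eq_of_subset_of_card_le inter_subset_right (by omega)
      have : z ∈ Q ∩ C2 := by rw [h3]; exact hzC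
      exact hzQ (mem_inter.mp this).1
  · -- type two
    have w2 : (P \ (C1 ∪ T.erase q)).card = 2 ∧
        Exc (sd Q (C2 ∪ {x, p})) (sd P (C1 ∪ T.erase q)) (ctr base Q (C2 ∪ {x, p}))
          (ctr base P (C1 ∪ T.erase q)) := by
      rcases s2 with ⟨a, b, c⟩ | ⟨a, b, c⟩
      · omega
      · exact ⟨a, c⟩
    have w7 : (Q \ (C2 ∪ {q, x})).card = 3 := by
      rcases s7 with ⟨a, b, c⟩ | ⟨a, b, c⟩
      · omega
      · exact b
    have w8 : (P \ (C1 ∪ T.erase p)).card = 2 := by
      rcases s8 with ⟨a, b, c⟩ | ⟨a, b, c⟩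
      · omega
      · exact a
    have w4 : (Q \ (C2 ∪ {p, y})).card = 3 := by
      rcases s4 with ⟨a, b, c⟩ | ⟨a, b, c⟩
      · omega
      · exact b
    have w3 : (P \ (C1 ∪ T.erase x)).card = 2 := by
      rcases s3 with ⟨a, b, c⟩ | ⟨a, b, c⟩
      · omega
      · exact a
    by_cases hxP : x ∈ P
    · have hyP : y ∈ P := by
        by_contra hc; rw [if_neg hc] at ay; rw [if_pos hxP] at ax; omega
      have hpP : p ∈ P := by
        by_contra hc; rw [if_neg hc] at ap; rw [if_pos hxP] at ax; omega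
      have hqP : q ∈ P := by
        by_contra hc; rw [if_neg hc] at aq; rw [if_pos hxP] at ax; omega
      have hTP : ∀ v ∈ T, v ∈ P := by
        intro v hv
        rw [hT] at hv
        simp only [mem_insert, mem_singleton] at hv
        rcases hv with rfl | rfl | rfl | rfl <;> assumption
      have hsubm : ∀ a b : α, a ∈ T → b ∈ T →
          (sd P (C1 ∪ T.erase a)).erase a ⊆ sd P (C1 ∪ T.erase b) := by
        intro a b ha hb v hv
        rw [mem_erase, mem_sd, mem_union, mem_erase] at hv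
        rw [mem_sd, mem_union, mem_erase]
        have h1 : v ∈ T → v ∈ P := hTP v
        by_cases hvT : v ∈ T
        · exfalso
          rcases hv with ⟨h2, h3 | h3⟩
          · exact h3.2 (Or.inr ⟨h2, hvT⟩)
          · exact h3.2 (h1 hvT)
        · tauto
      have hyU : y ∈ sd P (C1 ∪ T.erase y) := by
        rw [mem_sd, mem_union, mem_erase]
        have := hTC1 y hyT
        tauto
      have hyU' : y ∉ sd P (C1 ∪ T.erase q) := by
        rw [mem_sd, mem_union, mem_erase]
        tauto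
      obtain ⟨c, hc, hc'⟩ : ∃ c ∈ sd Q (C2 ∪ {x, p}), c ∉ insert q (sd P (C1 ∪ T.erase y)) := by
        by_contra hcon
        push Not at hcon
        have h1 := card_le_card (show sd Q (C2 ∪ {x, p}) ⊆ insert q (sd P (C1 ∪ T.erase y))
          from hcon)
        have h2 := card_insert_le q (sd P (C1 ∪ T.erase y))
        rw [w1.cW] at h2
        rw [w1.cU] at h1
        omega
      rw [mem_insert] at hc'
      have hpf : PF 3 (sd Q (C2 ∪ {x, p})) (ctr base Q (C2 ∪ {x, p})) := by
        have := h.pf hbQ (hbB {x, p} (Or.inl rfl))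
        rw [v1] at this
        exact this
      refine Exc.clash hpf w1 w2.2 hc (fun h' => hc' (Or.inr h')) ?_ hyU hyU' (hsubm y q hyT hqT)
      intro h'
      by_cases hcq : c = q
      · exact hc' (Or.inl hcq)
      · exact hc' (Or.inr (hsubm q y hqT hyT (mem_erase.mpr ⟨hcq, h'⟩)))
    · have hyP : y ∉ P := by
        intro hc; rw [if_pos hc] at ay; rw [if_neg hxP] at ax; omega
      have hpP : p ∉ P := by
        intro hc; rw [if_pos hc] at ap; rw [if_neg hxP] at ax; omega
      have hqP : q ∉ P := by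
        intro hc; rw [if_pos hc] at aq; rw [if_neg hxP] at ax; omega
      have e1 : P \ (C1 ∪ T) = P \ C1 := by
        ext v
        simp only [mem_sdiff, mem_union, hT, mem_insert, mem_singleton]
        constructor
        · tauto
        · rintro ⟨h1, h2⟩
          refine ⟨h1, ?_⟩
          rintro (h3 | rfl | rfl | rfl | rfl)
          exacts [h2 h3, hxP h1, hyP h1, hpP h1, hqP h1]
      rw [e1, if_neg hxP] at ax
      have h1 := card_inter_add_card_sdiff P C1
      have h2 := card_le_card (inter_subset_right : P ∩ C1 ⊆ C1)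
      omega

end Pool.Agent.H94
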