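import Pool.Agent.H94.Lift

set_option autoImplicit false

namespace Pool.Agent.H94

open Finset

variable {α : Type*}

theorem isB_iff (M : Matroid α) (S : Finset α) :
    isB M S ↔ (S : Set α) ⊆ M.E ∧ M.E ⊆ M.closure (S : Set α) ∧ (S.card : ℕ∞) ≤ M.eRank := by
  constructor
  · intro h
    have h' : M.IsBase (S : Set α) := h
    refine ⟨h'.subset_ground, h'.closure_eq.symm.subset, ?_⟩
    rw [← h'.encard_eq_eRank, Set.encard_coe_eq_coe_finsetCard]
  · rintro ⟨h1, h2, h3⟩
    have hsp : M.Spanning (S : Set α) := ⟨(M.closure_subset_ground _).antisymm h2, h1⟩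
    obtain ⟨B, hB, hBS⟩ := hsp.exists_isBase_subset
    have hB_fin_aux : B.Finite := S.finite_toSet.subset hBS
    have : B = (S : Set α) := by
      refine hB_fin_aux.eq_of_subset_of_encard_le hBS ?_
      rw [hB.encard_eq_eRank, Set.encard_coe_eq_coe_finsetCard]
      exact h3
    rw [this] at hB
    exact hB

open Classical in
/-- Representative of the parallel class. -/
noncomputable def par (M : Matroid α) (e : α) : α :=
  if h : M.IsNonloop e then
    haveI : Nonempty {f // M.IsNonloop f} := ⟨⟨e, h⟩⟩
    (Function.invFun (fun f : {f // M.IsNonloop f} => M.closure {f.1}) (M.closure {e})).1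
  else e

theorem par_spec (M : Matroid α) {e : α} (h : M.IsNonloop e) :
    M.IsNonloop (par M e) ∧ M.closure {par M e} = M.closure {e} := by
  have : Nonempty {f // M.IsNonloop f} := ⟨⟨e, h⟩⟩
  rw [par, dif_pos h]
  refine ⟨(Function.invFun (fun f : {f // M.IsNonloop f} => M.closure {f.1})
    (M.closure {e})).2, ?_⟩
  exact Function.invFun_eq (f := fun f : {f // M.IsNonloop f} => M.closure {f.1})
    (b := M.closure {e}) ⟨⟨e, h⟩, rfl⟩

theorem par_eq (M : Matroid α) {e f : α} (he : M.IsNonloop e) (hf : M.IsNonloop f)
    (h : M.closure {e} = M.closure {f}) : par M e = par M f := by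
  rw [par, dif_pos he, par, dif_pos hf]
  simp only [h]

theorem par_of_not (M : Matroid α) {e : α} (he : ¬ M.IsNonloop e) : par M e = e := by
  rw [par, dif_neg he]

theorem closure_par (M : Matroid α) {S : Set α} (hS : ∀ e ∈ S, M.IsNonloop e) :
    M.closure (par M '' S) = M.closure S := by
  refine Set.Subset.antisymm ?_ ?_
  · refine M.closure_subset_closure_of_subset_closure ?_
    rintro _ ⟨e, he, rfl⟩
    have h1 := par_spec M (hS e he)
    have h2 : par M e ∈ M.closure {e} := by
      rw [← h1.2]; exact M.mem_closure_self _ h1.1.mem_ground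
    exact M.closure_subset_closure (Set.singleton_subset_iff.mpr he) h2
  · refine M.closure_subset_closure_of_subset_closure ?_
    intro e he
    have h1 := par_spec M (hS e he)
    have h2 : e ∈ M.closure {par M e} := by
      rw [h1.2]; exact M.mem_closure_self _ (hS e he).mem_ground
    exact M.closure_subset_closure (Set.singleton_subset_iff.mpr (Set.mem_image_of_mem _ he)) h2

theorem hb_par [DecidableEq α] (M : Matroid α) (S : Finset α) :
    isB M S ↔ (Set.InjOn (par M) (S : Set α) ∧
      (isB M (S.image (par M)) ∧ ∀ e ∈ S.image (par M), par M e = e)) := by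
  constructor
  · intro h
    have h' : M.IsBase (S : Set α) := h
    have hnl : ∀ e ∈ S, M.IsNonloop e := fun e he =>
      h'.indep.isNonloop_of_mem (Finset.mem_coe.mpr he)
    have hinj : Set.InjOn (par M) (S : Set α) := by
      intro e he f hf hef
      by_contra hne
      have h1 := par_spec M (hnl e he)
      have h2 := par_spec M (hnl f hf)
      have hcl : M.closure {e} = M.closure {f} := by rw [← h1.2, ← h2.2, hef]
      have h3 : e ∈ M.closure {f} := by
        rw [← hcl]; exact M.mem_closure_self _ (hnl e he).mem_ground
      have h4 : e ∈ M.closure ((S : Set α) \ {e}) := by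
        refine M.closure_subset_closure ?_ h3
        rw [Set.singleton_subset_iff]
        exact ⟨hf, fun h => hne h.symm⟩
      exact h'.indep.notMem_closure_sdiff_of_mem he h4
    refine ⟨hinj, ?_, ?_⟩
    · rw [isB_iff]
      obtain ⟨_, h2, h3⟩ := (isB_iff M S).mp h
      have h4 : ((S.image (par M) : Finset α) : Set α) = par M '' (S : Set α) := by
        push_cast; rfl
      refine ⟨?_, ?_, ?_⟩
      · rw [h4]
        rintro _ ⟨e, he, rfl⟩
        exact (par_spec M (hnl e he)).1.mem_ground
      · rw [h4, closure_par M (S := (S : Set α)) (fun e he => hnl e he)]; exact h2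
      · rw [Finset.card_image_of_injOn hinj]; exact h3
    · intro e he
      obtain ⟨f, hf, rfl⟩ := Finset.mem_image.mp he
      have h1 := par_spec M (hnl f hf)
      exact par_eq M h1.1 (hnl f hf) h1.2
  · rintro ⟨hinj, hb, -⟩
    have h4 : ((S.image (par M) : Finset α) : Set α) = par M '' (S : Set α) := by
      push_cast; rfl
    have hnl : ∀ e ∈ S, M.IsNonloop e := by
      intro e he
      by_contra hcon
      have h1 := par_of_not M hcon
      have h2 : M.IsNonloop (par M e) :=
        Matroid.IsBase.indep (M := M) hb |>.isNonloop_of_mem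
          (Finset.mem_coe.mpr (Finset.mem_image_of_mem _ he))
      rw [h1] at h2
      exact hcon h2
    obtain ⟨_, h2, h3⟩ := (isB_iff M _).mp hb
    rw [isB_iff]
    refine ⟨fun e he => (hnl e he).mem_ground, ?_, ?_⟩
    · rw [h4, closure_par M (S := (S : Set α)) (fun e he => hnl e he)] at h2; exact h2
    · rw [Finset.card_image_of_injOn hinj] at h3; exact h3

open Classical in
theorem PB_par [DecidableEq α] (M : Matroid α) [M.Finite]
    (hM : ∀ C, M.IsCircuit C → C.encard ≤ 2 ∨ M.eRank ≤ C.encard) :
    ∃ (r : ℕ) (E : Finset α), PB r E (fun T => isB M T ∧ ∀ e ∈ T, par M e = e) := by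
  obtain ⟨B0, hB0⟩ := M.exists_isBase
  have hr : M.eRank = (B0.ncard : ℕ∞) := by
    rw [← hB0.encard_eq_eRank, hB0.finite.cast_ncard_eq]
  refine ⟨B0.ncard, M.ground_finite.toFinset.filter (fun e => M.IsNonloop e ∧ par M e = e),
    ?_, ?_, ?_⟩
  · rintro B ⟨hB, hBp⟩
    intro e he
    rw [Finset.mem_filter, Set.Finite.mem_toFinset]
    have h' : M.IsBase (B : Set α) := hB
    have h1 := h'.indep.isNonloop_of_mem (Finset.mem_coe.mpr he)
    exact ⟨h1.mem_ground, h1, hBp e he⟩
  · rintro B ⟨hB, hBp⟩
    have h' : M.IsBase (B : Set α) := hB
    rw [← h'.ncard_eq_ncard_of_isBase hB0, Set.ncard_coe_finset]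
  · intro I y z hI hy hz hyI hzI hyz hc hb1 hb2 S hS hSc hSb
    have memE : ∀ e, e ∈ M.ground_finite.toFinset.filter
        (fun e => M.IsNonloop e ∧ par M e = e) → M.IsNonloop e ∧ par M e = e := by
      intro e he
      rw [Finset.mem_filter] at he
      exact he.2
    have circ : ∀ v, v ∈ M.ground_finite.toFinset.filter
        (fun e => M.IsNonloop e ∧ par M e = e) → v ∉ I →
        ¬ (isB M (insert v I) ∧ ∀ e ∈ insert v I, par M e = e) →
        v ∈ M.closure (I : Set α) := by
      intro v hv hvI hnb
      have hA : ∀ e ∈ insert v I, M.IsNonloop e ∧ par M e = e := by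
        intro e he
        rw [Finset.mem_insert] at he
        rcases he with rfl | he
        · exact memE e hv
        · exact memE e (hI he)
      have hcard : (insert v I).card = B0.ncard := by
        rw [Finset.card_insert_of_notMem hvI]; exact hc
      have hnb' : ¬ isB M (insert v I) := fun h => hnb ⟨h, fun e he => (hA e he).2⟩
      have hdep : M.Dep ((insert v I : Finset α) : Set α) := by
        rw [Matroid.dep_iff]
        refine ⟨?_, fun e he => (hA e he).1.mem_ground⟩
        intro hind
        apply hnb'
        obtain ⟨B, hB, hsub⟩ := hind.exists_isBase_superset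
        have : ((insert v I : Finset α) : Set α) = B := by
          refine (insert v I).finite_toSet.eq_of_subset_of_encard_le hsub ?_
          rw [hB.encard_eq_eRank, hr, Set.encard_coe_eq_coe_finsetCard, hcard]
        rw [isB, this]; exact hB
      obtain ⟨C, hCA, hC⟩ := hdep.exists_isCircuit_subset
      have hCA' : C = ((insert v I : Finset α) : Set α) := by
        rcases hM C hC with h2 | h2
        · exfalso
          obtain ⟨e, he⟩ := hC.nonempty
          have heA := hA e (Finset.mem_coe.mp (hCA he))
          by_cases hsing : C = {e}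
          · rw [hsing, Matroid.singleton_isCircuit] at hC
            exact hC.not_isNonloop heA.1
          · obtain ⟨f, hf, hfe⟩ : ∃ f ∈ C, f ≠ e := by
              by_contra hcon
              push Not at hcon
              apply hsing
              ext g
              rw [Set.mem_singleton_iff]
              exact ⟨fun h => hcon g h, by rintro rfl; exact he⟩
            have hfA := hA f (Finset.mem_coe.mp (hCA hf))
            have hCef : C = {e, f} := by
              symm
              refine (Set.toFinite {e, f}).eq_of_subset_of_encard_le ?_ ?_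
              · intro g hg
                rcases hg with rfl | hg
                · exact he
                · rw [Set.mem_singleton_iff] at hg; rw [hg]; exact hf
              · rw [Set.encard_pair (Ne.symm hfe)]; exact h2
            rw [hCef] at hC
            have h3 := (heA.1.closure_eq_closure_iff_isCircuit_of_ne (Ne.symm hfe)).mpr hC
            have h4 := par_eq M heA.1 hfA.1 h3
            rw [heA.2, hfA.2] at h4
            exact hfe h4.symm
        · refine ((insert v I).finite_toSet.subset hCA).eq_of_subset_of_encard_le hCA ?_
          rw [Set.encard_coe_eq_coe_finsetCard, hcard, ← hr]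
          exact h2
      rw [hCA'] at hC
      have h5 := hC.mem_closure_sdiff_singleton_of_mem (e := v)
        (Finset.mem_coe.mpr (Finset.mem_insert_self v I))
      have h6 : ((insert v I : Finset α) : Set α) \ {v} = (I : Set α) := by
        rw [Finset.coe_insert]
        exact Set.insert_sdiff_self_of_notMem (by simpa using hvI)
      rw [h6] at h5
      exact h5
    have hy' := circ y hy hyI hb1
    have hz' := circ z hz hzI hb2
    obtain ⟨s1, s2, s3⟩ := (isB_iff M S).mp hSb.1
    have hIE : (I : Set α) ⊆ M.E := fun e he => (memE e (hI (Finset.mem_coe.mp he))).1.mem_ground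
    have hSI : (S : Set α) ⊆ M.closure (I : Set α) := by
      intro e he
      have := hS (Finset.mem_coe.mp he)
      rw [Finset.mem_insert, Finset.mem_insert] at this
      rcases this with rfl | rfl | h
      · exact hy'
      · exact hz'
      · exact M.mem_closure_of_mem (Finset.mem_coe.mpr h) hIE
    have hsp : M.Spanning (I : Set α) :=
      ⟨(M.closure_subset_ground _).antisymm
        (s2.trans (M.closure_subset_closure_of_subset_closure hSI)), hIE⟩
    obtain ⟨B, hB, hBI⟩ := hsp.exists_isBase_subset
    have h7 := Set.encard_le_encard hBI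
    rw [hB.encard_eq_eRank, hr, Set.encard_coe_eq_coe_finsetCard] at h7
    have h8 : B0.ncard ≤ I.card := by exact_mod_cast h7
    omega

/-- The combinatorial form of the theorem for matroids all of whose circuits have at most two or
at least rank many elements. -/
theorem WP_pav [DecidableEq α] (M : Matroid α) [M.Finite]
    (hM : ∀ C, M.IsCircuit C → C.encard ≤ 2 ∨ M.eRank ≤ C.encard) : WP (isB M) := by
  obtain ⟨r, E, h⟩ := PB_par M hM
  refine WP_lift (par M) (base' := fun T => isB M T ∧ ∀ e ∈ T, par M e = e) (hb_par M) ?_
  intro m B D hB hD hc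
  exact reach_common h _ B D hB hD hc rfl

end Pool.Agent.H94
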