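import Mathlib

set_option autoImplicit false

namespace Pool.Agent.H94

open Finset

variable {α : Type*} [DecidableEq α]

/-- Abstract paving structure of rank `n` on a set `U` of `2 n` elements having
complementary bases. -/
structure PF (n : ℕ) (U : Finset α) (b : Finset α → Prop) : Prop where
  card : U.card = 2 * n
  pav : ∀ (I : Finset α) (y z : α), I ⊆ U → y ∈ U → z ∈ U → y ∉ I → z ∉ I → y ≠ z →
    I.card + 1 = n → ¬ b (insert y I) → ¬ b (insert z I) →
    ∀ S : Finset α, S ⊆ insert y (insert z I) → S.card = n → ¬ b S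
  ex : ∃ X : Finset α, X ⊆ U ∧ X.card = n ∧ b X ∧ b (U \ X)

/-- `X` and its complement in `U` are both bases. -/
structure Good (n : ℕ) (U : Finset α) (b : Finset α → Prop) (X : Finset α) : Prop where
  sub : X ⊆ U
  card : X.card = n
  base : b X
  cobase : b (U \ X)

/-- Hyperplanes of the abstract paving structure. -/
structure Fl (n : ℕ) (U : Finset α) (b : Finset α → Prop) (H : Finset α) : Prop where
  sub : H ⊆ U
  big : n ≤ H.card + 1
  dep : ∀ S ⊆ H, S.card = n → ¬ b S
  out : ∀ I ⊆ H, I.card + 1 = n → ∀ y ∈ U, y ∉ H → b (insert y I)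

variable {n : ℕ} {U : Finset α} {b : Finset α → Prop}

theorem PF.exists_good (h : PF n U b) : ∃ X, Good n U b X := by
  obtain ⟨X, h1, h2, h3, h4⟩ := h.ex
  exact ⟨X, h1, h2, h3, h4⟩

theorem Good.compl (hU : U.card = 2 * n) {X : Finset α} (h : Good n U b X) :
    Good n U b (U \ X) := by
  refine ⟨sdiff_subset, ?_, h.cobase, ?_⟩
  · rw [card_sdiff_of_subset h.sub, hU, h.card]; omega
  · rw [Finset.sdiff_sdiff_eq_self h.sub]; exact h.base

/-- closure of an `(n-1)`-set. -/
theorem PF.exists_fl (h : PF n U b) {I : Finset α} (hI : I ⊆ U) (hc : I.card + 1 = n) :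
    ∃ H, Fl n U b H ∧ I ⊆ H := by
  classical
  set H : Finset α := I ∪ U.filter (fun y => y ∉ I ∧ ¬ b (insert y I)) with hH
  have hHU : H ⊆ U := union_subset hI (filter_subset _ _)
  have hIH : I ⊆ H := subset_union_left
  have hmem : ∀ y ∈ H, y ∉ I → ¬ b (insert y I) := by
    intro y hy hyI
    rw [hH, mem_union, mem_filter] at hy
    rcases hy with hy | hy
    · exact absurd hy hyI
    · exact hy.2.2
  have hmem' : ∀ y ∈ U, y ∉ I → ¬ b (insert y I) → y ∈ H := by
    intro y hy hyI hb
    rw [hH, mem_union, mem_filter]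
    exact Or.inr ⟨hy, hyI, hb⟩
  have dep : ∀ (m : ℕ) (S : Finset α), S ⊆ H → S.card = n → (S \ I).card = m → ¬ b S := by
    intro m
    induction m using Nat.strong_induction_on with
    | _ m ih =>
      intro S hS hSc hSm
      have hcap : (S ∩ I).card + (S \ I).card = n := by
        rw [card_inter_add_card_sdiff]; exact hSc
      have hcapI : (S ∩ I).card + (I \ S).card = I.card := by
        rw [inter_comm]; exact card_inter_add_card_sdiff I S
      rcases Nat.lt_or_ge m 1 with hm | hm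
      · omega
      rcases Nat.lt_or_ge m 2 with hm2 | hm2
      · have h1 : m = 1 := by omega
        have hIS : (I \ S).card = 0 := by omega
        have hIsub : I ⊆ S := by
          rw [card_eq_zero, sdiff_eq_empty_iff_subset] at hIS; exact hIS
        obtain ⟨y, hy⟩ := card_eq_one.mp (hSm.trans h1)
        have hyS : y ∈ S \ I := by rw [hy]; exact mem_singleton_self y
        have hSeq : S = insert y I := by
          rw [insert_eq, ← hy, sdiff_union_of_subset hIsub]
        rw [hSeq]
        exact hmem y (hS (mem_sdiff.mp hyS).1) (mem_sdiff.mp hyS).2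
      · obtain ⟨y, hy, z, hz, hyz⟩ := one_lt_card.mp (show 1 < (S \ I).card by omega)
        have hIS : 0 < (I \ S).card := by omega
        obtain ⟨i, hi⟩ := card_pos.mp hIS
        rw [mem_sdiff] at hy hz hi
        set J : Finset α := insert i ((S.erase y).erase z) with hJ
        have hiJ : i ∉ (S.erase y).erase z := by
          intro hc'; exact hi.2 (mem_of_mem_erase (mem_of_mem_erase hc'))
        have hzS : z ∈ S.erase y := mem_erase.mpr ⟨hyz.symm, hz.1⟩
        have hJc : J.card + 1 = n := by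
          rw [hJ, card_insert_of_notMem hiJ, card_erase_of_mem hzS, card_erase_of_mem hy.1, hSc]
          have : 2 ≤ S.card := by
            have := card_le_card (sdiff_subset : S \ I ⊆ S)
            omega
          omega
        have hJU : J ⊆ U := by
          rw [hJ]
          refine insert_subset (hI hi.1) ?_
          exact ((erase_subset _ _).trans (erase_subset _ _)).trans (hS.trans hHU)
        have hyi : y ≠ i := by rintro rfl; exact hi.2 hy.1
        have hzi : z ≠ i := by rintro rfl; exact hi.2 hz.1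
        have hyJ : y ∉ J := by
          rw [hJ, mem_insert, mem_erase, mem_erase]; tauto
        have hzJ : z ∉ J := by
          rw [hJ, mem_insert, mem_erase, mem_erase]; tauto
        have key : ∀ u v : α, u ∈ S → u ∉ I → v ∈ S → v ∉ I → u ≠ v →
            ¬ b (insert u (insert i ((S.erase u).erase v))) := by
          intro u v hu huI hv hvI huv
          have hset : insert u (insert i ((S.erase u).erase v)) = insert i (S.erase v) := by
            ext w; simp only [mem_insert, mem_erase]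
            constructor
            · rintro (rfl | rfl | h3)
              · exact Or.inr ⟨huv, hu⟩
              · exact Or.inl rfl
              · exact Or.inr ⟨h3.1, h3.2.2⟩
            · rintro (rfl | h3)
              · exact Or.inr (Or.inl rfl)
              · by_cases hwu : w = u
                · exact Or.inl hwu
                · exact Or.inr (Or.inr ⟨h3.1, hwu, h3.2⟩)
          rw [hset]
          have hiS : i ∉ S.erase v := fun hc' => hi.2 (mem_of_mem_erase hc')
          refine ih ((insert i (S.erase v)) \ I).card ?_ _ ?_ ?_ rfl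
          · rw [insert_sdiff_of_mem _ hi.1]
            have : S.erase v \ I = (S \ I).erase v := by
              ext w; simp only [mem_sdiff, mem_erase]; tauto
            rw [this, card_erase_of_mem (mem_sdiff.mpr ⟨hv, hvI⟩)]
            omega
          · exact insert_subset (hIH hi.1) ((erase_subset _ _).trans hS)
          · rw [card_insert_of_notMem hiS, card_erase_of_mem hv]
            omega
        have hb1 : ¬ b (insert y J) := key y z hy.1 hy.2 hz.1 hz.2 hyz
        have hb2 : ¬ b (insert z J) := by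
          have := key z y hz.1 hz.2 hy.1 hy.2 hyz.symm
          rw [hJ, erase_right_comm]; exact this
        refine h.pav J y z hJU (hHU (hS hy.1)) (hHU (hS hz.1)) hyJ hzJ hyz hJc hb1 hb2 S ?_ hSc
        intro w hw
        simp only [hJ, mem_insert, mem_erase]
        by_cases h1 : w = y
        · exact Or.inl h1
        · by_cases h2 : w = z
          · exact Or.inr (Or.inl h2)
          · exact Or.inr (Or.inr (Or.inr ⟨h2, h1, hw⟩))
  have out : ∀ (m : ℕ) (J : Finset α), J ⊆ H → J.card + 1 = n → (J \ I).card = m →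
      ∀ y ∈ U, y ∉ H → b (insert y J) := by
    intro m
    induction m with
    | zero =>
      intro J hJ hJc hm y hyU hyH
      have hsub : J ⊆ I := by
        rw [card_eq_zero, sdiff_eq_empty_iff_subset] at hm; exact hm
      have hJI : J = I := eq_of_subset_of_card_le hsub (by omega)
      by_contra hb
      rw [hJI] at hb
      exact hyH (hmem' y hyU (fun hyI => hyH (hIH hyI)) hb)
    | succ m ih =>
      intro J hJ hJc hm y hyU hyH
      by_contra hb
      have hcap : (J ∩ I).card + (J \ I).card = J.card := card_inter_add_card_sdiff J I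
      have hcapI : (J ∩ I).card + (I \ J).card = I.card := by
        rw [inter_comm]; exact card_inter_add_card_sdiff I J
      obtain ⟨j, hj⟩ := card_pos.mp (show 0 < (J \ I).card by omega)
      obtain ⟨i, hi⟩ := card_pos.mp (show 0 < (I \ J).card by omega)
      rw [mem_sdiff] at hj hi
      have hyJ : y ∉ J := fun hc' => hyH (hJ hc')
      have hiy : y ≠ i := by rintro rfl; exact hyH (hIH hi.1)
      have hbi : ¬ b (insert i J) := by
        refine dep _ _ (insert_subset (hIH hi.1) hJ) ?_ rfl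
        rw [card_insert_of_notMem hi.2]; exact hJc
      have hiJ' : i ∉ J.erase j := fun hc' => hi.2 (mem_of_mem_erase hc')
      have hb' : ¬ b (insert y (insert i (J.erase j))) := by
        refine h.pav J y i (hJ.trans hHU) hyU (hI hi.1) hyJ hi.2 hiy hJc hb hbi _ ?_ ?_
        · exact insert_subset_insert _ (insert_subset_insert _ (erase_subset _ _))
        · rw [card_insert_of_notMem, card_insert_of_notMem hiJ', card_erase_of_mem hj.1]
          · omega
          · rw [mem_insert, mem_erase]; tauto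
      refine hb' (ih (insert i (J.erase j)) ?_ ?_ ?_ y hyU hyH)
      · exact insert_subset (hIH hi.1) ((erase_subset _ _).trans hJ)
      · rw [card_insert_of_notMem hiJ', card_erase_of_mem hj.1]; omega
      · rw [insert_sdiff_of_mem _ hi.1]
        have : J.erase j \ I = (J \ I).erase j := by
          ext w; simp only [mem_sdiff, mem_erase]; tauto
        rw [this, card_erase_of_mem (mem_sdiff.mpr hj)]
        omega
  refine ⟨H, ⟨hHU, ?_, fun S hS hSc => dep _ S hS hSc rfl, fun J hJ hJc => out _ J hJ hJc rfl⟩,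
    hIH⟩
  have := card_le_card hIH
  omega

theorem Fl.subset_of_inter {H H' : Finset α} (h : Fl n U b H) (h' : Fl n U b H')
    (hn : 1 ≤ n) (hc : n ≤ (H ∩ H').card + 1) : H ⊆ H' := by
  obtain ⟨I, hI, hIc⟩ := exists_subset_card_eq (show n - 1 ≤ (H ∩ H').card by omega)
  intro y hy
  by_contra hy'
  have hyI : y ∉ I := fun hc' => hy' (mem_inter.mp (hI hc')).2
  have h1 : b (insert y I) :=
    h'.out I (hI.trans inter_subset_right) (by omega) y (h.sub hy) hy'
  refine h.dep (insert y I) (insert_subset hy (hI.trans inter_subset_left)) ?_ h1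
  rw [card_insert_of_notMem hyI]; omega

theorem Fl.eq_of_inter {H H' : Finset α} (h : Fl n U b H) (h' : Fl n U b H')
    (hn : 1 ≤ n) (hc : n ≤ (H ∩ H').card + 1) : H = H' :=
  Subset.antisymm (h.subset_of_inter h' hn hc)
    (h'.subset_of_inter h hn (by rw [inter_comm]; exact hc))

/-- If two hyperplanes both contain a set of `n-1` elements they are equal. -/
theorem Fl.eq_of_sub {H H' K : Finset α} (h : Fl n U b H) (h' : Fl n U b H')
    (hn : 1 ≤ n) (hK : K ⊆ H) (hK' : K ⊆ H') (hc : n ≤ K.card + 1) : H = H' := by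
  refine h.eq_of_inter h' hn ?_
  have := card_le_card (subset_inter hK hK')
  omega

theorem PF.exists_fl_of_not {S : Finset α} (h : PF n U b) (hn : 1 ≤ n) (hS : S ⊆ U)
    (hc : S.card = n) (hb : ¬ b S) : ∃ H, Fl n U b H ∧ S ⊆ H := by
  obtain ⟨x, hx⟩ := card_pos.mp (show 0 < S.card by omega)
  obtain ⟨H, hH, hsub⟩ := h.exists_fl (I := S.erase x) ((erase_subset _ _).trans hS)
    (by rw [card_erase_of_mem hx]; omega)
  refine ⟨H, hH, ?_⟩
  intro w hw
  by_cases hwx : w = x
  · subst hwx
    by_contra hwH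
    have := hH.out _ hsub (by rw [card_erase_of_mem hx]; omega) w (hS hw) hwH
    rw [insert_erase hw] at this
    exact hb this
  · exact hsub (mem_erase.mpr ⟨hwx, hw⟩)

theorem Fl.not_subset_good {H X : Finset α} (h : Fl n U b H) (hX : Good n U b X) : ¬ X ⊆ H :=
  fun hs => h.dep X hs hX.card hX.base

theorem Fl.card_le (hU : U.card = 2 * n) {H X : Finset α} (h : Fl n U b H)
    (hX : Good n U b X) : H.card + 2 ≤ 2 * n := by
  have h1 := h.not_subset_good hX
  have h2 := h.not_subset_good (hX.compl hU)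
  obtain ⟨x, hx, hxH⟩ := not_subset.mp h1
  obtain ⟨y, hy, hyH⟩ := not_subset.mp h2
  have hxy : x ≠ y := by rintro rfl; exact (mem_sdiff.mp hy).2 hx
  have hsub : insert x (insert y H) ⊆ U :=
    insert_subset (hX.sub hx) (insert_subset (mem_sdiff.mp hy).1 h.sub)
  have := card_le_card hsub
  rw [card_insert_of_notMem, card_insert_of_notMem hyH, hU] at this
  · exact this
  · rw [mem_insert]; tauto

/-- Good swaps -/
def Swap (n : ℕ) (U : Finset α) (b : Finset α → Prop) (X : Finset α) (x y : α) : Prop :=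
  Good n U b (insert y (X.erase x))

theorem sdiff_swap {X : Finset α} {x y : α} (hX : X ⊆ U) (hx : x ∈ X) (hy : y ∈ U \ X) :
    U \ insert y (X.erase x) = insert x ((U \ X).erase y) := by
  rw [mem_sdiff] at hy
  ext w
  simp only [mem_sdiff, mem_insert, mem_erase, not_or, not_and]
  constructor
  · rintro ⟨h1, h2, h3⟩
    by_cases hw : w = x
    · exact Or.inl hw
    · exact Or.inr ⟨h2, h1, h3 hw⟩
  · rintro (rfl | ⟨h1, h2, h3⟩)
    · exact ⟨hX hx, fun h => hy.2 (h ▸ hx), fun h => absurd rfl h⟩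
    · exact ⟨h2, h1, fun _ => h3⟩

theorem swap_iff {X : Finset α} {x y : α} (hX : Good n U b X) (hx : x ∈ X) (hy : y ∈ U \ X) :
    Swap n U b X x y ↔ b (insert y (X.erase x)) ∧ b (insert x ((U \ X).erase y)) := by
  have hyX : y ∉ X := (mem_sdiff.mp hy).2
  constructor
  · intro h
    refine ⟨h.base, ?_⟩
    rw [← sdiff_swap hX.sub hx hy]; exact h.cobase
  · rintro ⟨h1, h2⟩
    refine ⟨insert_subset (mem_sdiff.mp hy).1 ((erase_subset _ _).trans hX.sub), ?_, h1, ?_⟩
    · rw [card_insert_of_notMem (fun h => hyX (mem_of_mem_erase h)), card_erase_of_mem hx, hX.card]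
      have := card_pos.mpr ⟨x, hx⟩
      rw [hX.card] at this
      omega
    · rw [sdiff_swap hX.sub hx hy]; exact h2

/-- Each `y` outside `X` is bad (on the `X` side) for at most one `x`. -/
theorem PF.F_unique (h : PF n U b) {X : Finset α} (hXU : X ⊆ U) (hXc : X.card = n) (hXb : b X)
    {x x' y : α} (hx : x ∈ X) (hx' : x' ∈ X) (hy : y ∈ U) (hyX : y ∉ X)
    (h1 : ¬ b (insert y (X.erase x))) (h2 : ¬ b (insert y (X.erase x'))) : x = x' := by
  by_contra hne
  have hn : 1 ≤ n := by have := card_pos.mpr ⟨x, hx⟩; omega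
  have hsub : ∀ z, insert y (X.erase z) ⊆ U := fun z =>
    insert_subset hy ((erase_subset _ _).trans hXU)
  have hcard : ∀ z ∈ X, (insert y (X.erase z)).card = n := by
    intro z hz
    rw [card_insert_of_notMem (fun h => hyX (mem_of_mem_erase h)), card_erase_of_mem hz]
    omega
  obtain ⟨H, hH, hs⟩ := h.exists_fl_of_not hn (hsub x) (hcard x hx) h1
  obtain ⟨H', hH', hs'⟩ := h.exists_fl_of_not hn (hsub x') (hcard x' hx') h2
  have hK : insert y ((X.erase x).erase x') ⊆ insert y (X.erase x) :=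
    insert_subset_insert _ (erase_subset _ _)
  have hK' : insert y ((X.erase x).erase x') ⊆ insert y (X.erase x') := by
    rw [erase_right_comm]; exact insert_subset_insert _ (erase_subset _ _)
  have hKc : n ≤ (insert y ((X.erase x).erase x')).card + 1 := by
    rw [card_insert_of_notMem (fun h => hyX (mem_of_mem_erase (mem_of_mem_erase h))),
      card_erase_of_mem (mem_erase.mpr ⟨Ne.symm hne, hx'⟩), card_erase_of_mem hx]
    omega
  have heq := hH.eq_of_sub hH' hn (hK.trans hs) (hK'.trans hs') hKc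
  refine hH.dep X ?_ hXc hXb
  intro w hw
  by_cases hwx : w = x
  · subst hwx; rw [heq]; exact hs' (mem_insert_of_mem (mem_erase.mpr ⟨hne, hw⟩))
  · exact hs (mem_insert_of_mem (mem_erase.mpr ⟨hwx, hw⟩))


theorem PF.F_unique' (h : PF n U b) {X : Finset α} (hX : Good n U b X)
    {x x' y : α} (hx : x ∈ X) (hx' : x' ∈ X) (hy : y ∈ U \ X)
    (h1 : ¬ b (insert y (X.erase x))) (h2 : ¬ b (insert y (X.erase x'))) : x = x' :=
  h.F_unique hX.sub hX.card hX.base hx hx' (mem_sdiff.mp hy).1 (mem_sdiff.mp hy).2 h1 h2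

theorem PF.G_unique (h : PF n U b) {X : Finset α} (hX : Good n U b X)
    {x y y' : α} (hx : x ∈ X) (hy : y ∈ U \ X) (hy' : y' ∈ U \ X)
    (h1 : ¬ b (insert x ((U \ X).erase y))) (h2 : ¬ b (insert x ((U \ X).erase y'))) : y = y' := by
  have hX' := hX.compl h.card
  exact h.F_unique hX'.sub hX'.card hX'.base hy hy' (hX.sub hx)
    (fun hc => (mem_sdiff.mp hc).2 hx) h1 h2

theorem card_le_of_fst {Q1 Q2 : Finset α} (P : α → α → Prop) [DecidablePred fun p : α × α => P p.1 p.2]
    (hP : ∀ x ∈ Q1, ∀ x' ∈ Q1, ∀ y ∈ Q2, P x y → P x' y → x = x') :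
    ((Q1 ×ˢ Q2).filter (fun p => P p.1 p.2)).card ≤ Q2.card := by
  refine card_le_card_of_injOn (fun p => p.2) ?_ ?_
  · intro p hp
    have := mem_filter.mp (mem_coe.mp hp)
    exact mem_coe.mpr (mem_product.mp this.1).2
  · intro p hp q hq hpq
    have h1 := mem_filter.mp (mem_coe.mp hp)
    have h2 := mem_filter.mp (mem_coe.mp hq)
    have h3 := mem_product.mp h1.1
    have h4 := mem_product.mp h2.1
    simp only at hpq
    refine Prod.ext ?_ hpq
    refine hP _ h3.1 _ h4.1 _ h3.2 h1.2 ?_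
    rw [hpq]; exact h2.2

theorem card_le_of_snd {Q1 Q2 : Finset α} (P : α → α → Prop) [DecidablePred fun p : α × α => P p.1 p.2]
    (hP : ∀ x ∈ Q1, ∀ y ∈ Q2, ∀ y' ∈ Q2, P x y → P x y' → y = y') :
    ((Q1 ×ˢ Q2).filter (fun p => P p.1 p.2)).card ≤ Q1.card := by
  refine card_le_card_of_injOn (fun p => p.1) ?_ ?_
  · intro p hp
    have := mem_filter.mp (mem_coe.mp hp)
    exact mem_coe.mpr (mem_product.mp this.1).1
  · intro p hp q hq hpq
    have h1 := mem_filter.mp (mem_coe.mp hp)
    have h2 := mem_filter.mp (mem_coe.mp hq)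
    have h3 := mem_product.mp h1.1
    have h4 := mem_product.mp h2.1
    simp only at hpq
    refine Prod.ext hpq ?_
    refine hP _ h3.1 _ h3.2 _ h4.2 h1.2 ?_
    rw [hpq]; exact h2.2

/-- Counting lemma: three relations covering a rectangle. -/
theorem cover3 {Q1 Q2 : Finset α} (F G G' : α → α → Prop)
    (hF : ∀ x ∈ Q1, ∀ x' ∈ Q1, ∀ y ∈ Q2, F x y → F x' y → x = x')
    (hG : ∀ x ∈ Q1, ∀ y ∈ Q2, ∀ y' ∈ Q2, G x y → G x y' → y = y')
    (hG' : ∀ x ∈ Q1, ∀ y ∈ Q2, ∀ y' ∈ Q2, G' x y → G' x y' → y = y')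
    (hcov : ∀ x ∈ Q1, ∀ y ∈ Q2, F x y ∨ G x y ∨ G' x y) :
    Q1.card * Q2.card ≤ Q2.card + Q1.card + Q1.card := by
  classical
  have h1 := card_le_of_fst F hF
  have h2 := card_le_of_snd G hG
  have h3 := card_le_of_snd G' hG'
  have hsub : Q1 ×ˢ Q2 ⊆ (Q1 ×ˢ Q2).filter (fun p => F p.1 p.2) ∪
      ((Q1 ×ˢ Q2).filter (fun p => G p.1 p.2) ∪ (Q1 ×ˢ Q2).filter (fun p => G' p.1 p.2)) := by
    intro p hp
    have hp' := mem_product.mp hp
    rcases hcov _ hp'.1 _ hp'.2 with h | h | h
    · exact mem_union_left _ (mem_filter.mpr ⟨hp, h⟩)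
    · exact mem_union_right _ (mem_union_left _ (mem_filter.mpr ⟨hp, h⟩))
    · exact mem_union_right _ (mem_union_right _ (mem_filter.mpr ⟨hp, h⟩))
  have h4 := card_le_card hsub
  rw [card_product] at h4
  have h5 := card_union_le ((Q1 ×ˢ Q2).filter (fun p => F p.1 p.2))
      ((Q1 ×ˢ Q2).filter (fun p => G p.1 p.2) ∪ (Q1 ×ˢ Q2).filter (fun p => G' p.1 p.2))
  have h6 := card_union_le ((Q1 ×ˢ Q2).filter (fun p => G p.1 p.2))
      ((Q1 ×ˢ Q2).filter (fun p => G' p.1 p.2))
  omega

/-- transposed version -/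
theorem cover3' {Q1 Q2 : Finset α} (F G G' : α → α → Prop)
    (hF : ∀ x ∈ Q1, ∀ x' ∈ Q1, ∀ y ∈ Q2, F x y → F x' y → x = x')
    (hG : ∀ x ∈ Q1, ∀ y ∈ Q2, ∀ y' ∈ Q2, G x y → G x y' → y = y')
    (hG' : ∀ x ∈ Q1, ∀ x' ∈ Q1, ∀ y ∈ Q2, G' x y → G' x' y → x = x')
    (hcov : ∀ x ∈ Q1, ∀ y ∈ Q2, F x y ∨ G x y ∨ G' x y) :
    Q1.card * Q2.card ≤ Q2.card + Q1.card + Q2.card := by
  classical
  have h1 := card_le_of_fst F hF
  have h2 := card_le_of_snd G hG
  have h3 := card_le_of_fst G' hG'
  have hsub : Q1 ×ˢ Q2 ⊆ (Q1 ×ˢ Q2).filter (fun p => F p.1 p.2) ∪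
      ((Q1 ×ˢ Q2).filter (fun p => G p.1 p.2) ∪ (Q1 ×ˢ Q2).filter (fun p => G' p.1 p.2)) := by
    intro p hp
    have hp' := mem_product.mp hp
    rcases hcov _ hp'.1 _ hp'.2 with h | h | h
    · exact mem_union_left _ (mem_filter.mpr ⟨hp, h⟩)
    · exact mem_union_right _ (mem_union_left _ (mem_filter.mpr ⟨hp, h⟩))
    · exact mem_union_right _ (mem_union_right _ (mem_filter.mpr ⟨hp, h⟩))
  have h4 := card_le_card hsub
  rw [card_product] at h4
  have h5 := card_union_le ((Q1 ×ˢ Q2).filter (fun p => F p.1 p.2))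
      ((Q1 ×ˢ Q2).filter (fun p => G p.1 p.2) ∪ (Q1 ×ˢ Q2).filter (fun p => G' p.1 p.2))
  have h6 := card_union_le ((Q1 ×ˢ Q2).filter (fun p => G p.1 p.2))
      ((Q1 ×ˢ Q2).filter (fun p => G' p.1 p.2))
  omega

/-- Rectangle lemma: every rectangle with both sides at least two and not two by two contains a
good swap. -/
theorem PF.rect (h : PF n U b) {X : Finset α} (hX : Good n U b X) {Q1 Q2 : Finset α}
    (hQ1 : Q1 ⊆ X) (hQ2 : Q2 ⊆ U \ X) (h1 : 2 ≤ Q1.card) (h2 : 2 ≤ Q2.card)
    (h3 : 5 ≤ Q1.card + Q2.card) : ∃ x ∈ Q1, ∃ y ∈ Q2, Swap n U b X x y := by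
  by_contra hcon
  push Not at hcon
  have hcov : ∀ x ∈ Q1, ∀ y ∈ Q2, ¬ b (insert y (X.erase x)) ∨
      ¬ b (insert x ((U \ X).erase y)) ∨ False := by
    intro x hx y hy
    have := hcon x hx y hy
    rw [swap_iff hX (hQ1 hx) (hQ2 hy)] at this
    tauto
  rcases Nat.lt_or_ge Q1.card 3 with h4 | h4
  · -- Q1.card = 2, Q2.card ≥ 3
    obtain ⟨Q3, hQ3, hQ3c⟩ := exists_subset_card_eq (show 3 ≤ Q2.card by omega)
    classical
    have c1 := card_le_of_fst (Q1 := Q1) (Q2 := Q3) (fun x y => ¬ b (insert y (X.erase x)))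
      (fun x hx x' hx' y hy => h.F_unique' hX (hQ1 hx) (hQ1 hx') (hQ2 (hQ3 hy)))
    have c2 := card_le_of_snd (Q1 := Q1) (Q2 := Q3) (fun x y => ¬ b (insert x ((U \ X).erase y)))
      (fun x hx y hy y' hy' => h.G_unique hX (hQ1 hx) (hQ2 (hQ3 hy)) (hQ2 (hQ3 hy')))
    have hsub : Q1 ×ˢ Q3 ⊆ (Q1 ×ˢ Q3).filter (fun p => ¬ b (insert p.2 (X.erase p.1))) ∪
        (Q1 ×ˢ Q3).filter (fun p => ¬ b (insert p.1 ((U \ X).erase p.2))) := by
      intro p hp
      have hp' := mem_product.mp hp
      rcases hcov _ hp'.1 _ (hQ3 hp'.2) with h | h | h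
      · exact mem_union_left _ (mem_filter.mpr ⟨hp, h⟩)
      · exact mem_union_right _ (mem_filter.mpr ⟨hp, h⟩)
      · exact h.elim
    have c3 := card_le_card hsub
    have c4 := card_union_le ((Q1 ×ˢ Q3).filter (fun p => ¬ b (insert p.2 (X.erase p.1))))
      ((Q1 ×ˢ Q3).filter (fun p => ¬ b (insert p.1 ((U \ X).erase p.2))))
    rw [card_product] at c3
    have : Q1.card = 2 := by omega
    rw [this, hQ3c] at c3
    omega
  · obtain ⟨Q3, hQ3, hQ3c⟩ := exists_subset_card_eq (show 3 ≤ Q1.card by omega)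
    obtain ⟨Q4, hQ4, hQ4c⟩ := exists_subset_card_eq (show 2 ≤ Q2.card by omega)
    classical
    have c1 := card_le_of_fst (Q1 := Q3) (Q2 := Q4) (fun x y => ¬ b (insert y (X.erase x)))
      (fun x hx x' hx' y hy => h.F_unique' hX (hQ1 (hQ3 hx)) (hQ1 (hQ3 hx')) (hQ2 (hQ4 hy)))
    have c2 := card_le_of_snd (Q1 := Q3) (Q2 := Q4) (fun x y => ¬ b (insert x ((U \ X).erase y)))
      (fun x hx y hy y' hy' => h.G_unique hX (hQ1 (hQ3 hx)) (hQ2 (hQ4 hy)) (hQ2 (hQ4 hy')))
    have hsub : Q3 ×ˢ Q4 ⊆ (Q3 ×ˢ Q4).filter (fun p => ¬ b (insert p.2 (X.erase p.1))) ∪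
        (Q3 ×ˢ Q4).filter (fun p => ¬ b (insert p.1 ((U \ X).erase p.2))) := by
      intro p hp
      have hp' := mem_product.mp hp
      rcases hcov _ (hQ3 hp'.1) _ (hQ4 hp'.2) with h | h | h
      · exact mem_union_left _ (mem_filter.mpr ⟨hp, h⟩)
      · exact mem_union_right _ (mem_filter.mpr ⟨hp, h⟩)
      · exact h.elim
    have c3 := card_le_card hsub
    have c4 := card_union_le ((Q3 ×ˢ Q4).filter (fun p => ¬ b (insert p.2 (X.erase p.1))))
      ((Q3 ×ˢ Q4).filter (fun p => ¬ b (insert p.1 ((U \ X).erase p.2))))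
    rw [card_product, hQ3c, hQ4c] at c3
    omega

/-- Symmetric exchange. -/
theorem PF.symm_exch (h : PF n U b) {X : Finset α} (hX : Good n U b X) {x : α} (hx : x ∈ X) :
    ∃ y ∈ U \ X, Swap n U b X x y := by
  by_contra hcon
  push Not at hcon
  have hX' := hX.compl h.card
  have hn : 1 ≤ n := by have := card_pos.mpr ⟨x, hx⟩; rw [hX.card] at this; omega
  have hcov : ∀ y ∈ U \ X, ¬ b (insert y (X.erase x)) ∨
      ¬ b (insert x ((U \ X).erase y)) := by
    intro y hy
    have := hcon y hy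
    rw [swap_iff hX hx hy] at this
    tauto
  obtain ⟨H, hH, hsub⟩ := h.exists_fl (I := X.erase x) ((erase_subset _ _).trans hX.sub)
    (by rw [card_erase_of_mem hx, hX.card]; omega)
  have hHc : (X.erase x).card + 1 = n := by rw [card_erase_of_mem hx, hX.card]; omega
  have hxH : x ∉ H := by
    intro hxH
    refine hH.dep X ?_ hX.card hX.base
    intro w hw
    by_cases hwx : w = x
    · rw [hwx]; exact hxH
    · exact hsub (mem_erase.mpr ⟨hwx, hw⟩)
  -- some `y0` outside `H`
  obtain ⟨y0, hy0, hy0H⟩ := not_subset.mp (hH.not_subset_good hX')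
  have hb0 : b (insert y0 (X.erase x)) := hH.out _ hsub hHc y0 (mem_sdiff.mp hy0).1 hy0H
  have hg0 : ¬ b (insert x ((U \ X).erase y0)) := by
    rcases hcov y0 hy0 with h1 | h1
    · exact absurd hb0 h1
    · exact h1
  -- all the other elements of the complement are in `H`
  have hrest : (U \ X).erase y0 ⊆ H := by
    intro y hy
    rw [mem_erase] at hy
    by_contra hyH
    have hb1 : b (insert y (X.erase x)) := hH.out _ hsub hHc y (mem_sdiff.mp hy.2).1 hyH
    rcases hcov y hy.2 with h1 | h1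
    · exact h1 hb1
    · exact hy.1 (h.G_unique hX hx hy.2 hy0 h1 hg0)
  have hc1 : ((U \ X).erase y0).card + 1 = n := by
    rw [card_erase_of_mem hy0, hX'.card]; omega
  exact hg0 (hH.out _ hrest hc1 x (hX.sub hx) hxH)

/-- If a hyperplane misses exactly the two elements `y1`, `y2`, every `n`-set separating them is
good. -/
theorem Fl.big_good {H : Finset α} (hU : U.card = 2 * n) (hH : Fl n U b H) {y1 y2 : α}
    (hc : ∀ w ∈ U, w ∉ H → w = y1 ∨ w = y2) {Z : Finset α} (hZ : Z ⊆ U) (hZc : Z.card = n)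
    (h1 : y1 ∈ Z) (h1' : y1 ∉ H) (h2 : y2 ∈ U) (h2' : y2 ∉ Z) (h2H : y2 ∉ H) : Good n U b Z := by
  have hn : 1 ≤ n := by have := card_pos.mpr ⟨y1, h1⟩; omega
  have hA : Z.erase y1 ⊆ H := by
    intro w hw
    rw [mem_erase] at hw
    by_contra hwH
    rcases hc w (hZ hw.2) hwH with h | h
    · exact hw.1 h
    · exact h2' (h ▸ hw.2)
  have hZ'c : (U \ Z).card = n := by rw [card_sdiff_of_subset hZ, hU, hZc]; omega
  have hy2 : y2 ∈ U \ Z := mem_sdiff.mpr ⟨h2, h2'⟩
  have hB : (U \ Z).erase y2 ⊆ H := by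
    intro w hw
    rw [mem_erase] at hw
    by_contra hwH
    rcases hc w (mem_sdiff.mp hw.2).1 hwH with h | h
    · exact (mem_sdiff.mp hw.2).2 (h ▸ h1)
    · exact hw.1 h
  refine ⟨hZ, hZc, ?_, ?_⟩
  · have := hH.out _ hA (by rw [card_erase_of_mem h1]; omega) y1 (hZ h1) h1'
    rwa [insert_erase h1] at this
  · have := hH.out _ hB (by rw [card_erase_of_mem hy2, hZ'c]; omega) y2 h2 h2H
    rwa [insert_erase hy2] at this

end Pool.Agent.H94
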