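import Mathlib

set_option autoImplicit false

namespace Pool.Agent.H94

open MvPolynomial

variable {α : Type*}

/-- The bases of a matroid, as finsets of its elements. -/
abbrev Bases (M : Matroid α) : Type _ := {B : Finset α // M.IsBase (B : Set α)}

/-- The algebra homomorphism sending the variable of the base `B` to the squarefree monomial
with support `B`. -/
noncomputable def baseHom (K : Type*) [Field K] (M : Matroid α) :
    MvPolynomial (Bases M) K →ₐ[K] MvPolynomial α K :=
  aeval fun B : Bases M => ∏ e ∈ B.1, (X e : MvPolynomial α K)

/-- The toric ideal of a matroid. -/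
noncomputable def toricIdeal (K : Type*) [Field K] (M : Matroid α) :
    Ideal (MvPolynomial (Bases M) K) :=
  RingHom.ker (baseHom K M)

/-- The pair of bases `(B₃, B₄)` is obtained from the pair `(B₁, B₂)` by a symmetric exchange. -/
def IsSymmExch [DecidableEq α] (M : Matroid α) (B₁ B₂ B₃ B₄ : Bases M) : Prop :=
  ∃ b₁ ∈ B₁.1 \ B₂.1, ∃ b₂ ∈ B₂.1 \ B₁.1,
    B₃.1 = insert b₂ (B₁.1.erase b₁) ∧ B₄.1 = insert b₁ (B₂.1.erase b₂)

/-- The set of binomials of symmetric exchanges. -/
def exchBinomials (K : Type*) [Field K] [DecidableEq α] (M : Matroid α) :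
    Set (MvPolynomial (Bases M) K) :=
  {f | ∃ B₁ B₂ B₃ B₄ : Bases M, IsSymmExch M B₁ B₂ B₃ B₄ ∧ f = X B₁ * X B₂ - X B₃ * X B₄}

/-- The smallest class of matroids that contains every finite matroid all of whose circuits have
at most two elements or at least as many elements as the rank (for instance every finite paving
matroid and every finite matroid of rank at most three) and is closed under duality, under direct
sums and under adding an element parallel to an existing one. -/
inductive PavClass {α : Type*} : Matroid α → Prop
  | base (M : Matroid α) (hfin : M.Finite)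
      (hC : ∀ C, M.IsCircuit C → C.encard ≤ 2 ∨ M.eRank ≤ C.encard) : PavClass M
  | dual (M : Matroid α) (h : PavClass M) : PavClass M✶
  | sum (M N : Matroid α) (hd : Disjoint M.E N.E) (hM : PavClass M) (hN : PavClass N) :
      PavClass (M.disjointSum N hd)
  | parallel (M : Matroid α) (e f : α) (hne : e ≠ f) (he : M.IsNonloop e)
      (hcl : M.closure {e} = M.closure {f}) (h : PavClass (M.delete {e})) : PavClass M

end Pool.Agent.H94
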